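import Mathlib
import Pool.Agent.H165R3.BPE

/-!
# The Poisson process, marks, and averages of void events
-/

set_option autoImplicit false

/-! ## Averages of sequences of events -/

section

open Filter Topology MeasureTheory Set
open scoped ENNReal NNReal

noncomputable section

namespace Pool.Agent.TH739.Poi

/-- Averages of a sequence of real numbers. -/
def Av (a : ℕ → ℝ) (N : ℕ) : ℝ := (N : ℝ)⁻¹ * ∑ n ∈ Finset.range N, a n

/-- The averages converge. -/
def CvR (a : ℕ → ℝ) : Prop := ∃ L : ℝ, Tendsto (Av a) atTop (𝓝 L)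

open Classical in
/-- the number one if the proposition holds, otherwise zero -/
def pv (p : Prop) : ℝ := if p then 1 else 0

theorem pv_nonneg (p : Prop) : 0 ≤ pv p := by
  unfold pv
  split_ifs <;> norm_num

theorem pv_le (p : Prop) : pv p ≤ 1 := by
  unfold pv
  split_ifs <;> norm_num

theorem pv_true {p : Prop} (h : p) : pv p = 1 := if_pos h

theorem pv_false {p : Prop} (h : ¬ p) : pv p = 0 := if_neg h

theorem measurable_pv : Measurable pv := measurable_from_top

/-- the cylinder sets -/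
def cyl (I : Finset ℕ) : Set (ℕ → Prop) := {b | ∀ n ∈ I, b n}

theorem cyl_meas (I : Finset ℕ) : MeasurableSet (cyl I) := by
  have : cyl I = ⋂ n ∈ I, {b : ℕ → Prop | b n} := by
    ext b
    simp [cyl]
  rw [this]
  refine Finset.measurableSet_biInter I fun n _ => ?_
  exact measurableSet_setOfPred.mpr (measurable_pi_apply n)

theorem cyl_gen : (MeasurableSpace.pi : MeasurableSpace (ℕ → Prop)) =
    MeasurableSpace.generateFrom (Set.range cyl) := by
  apply le_antisymm
  · rw [MeasurableSpace.pi]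
    refine iSup_le fun n => ?_
    rw [← measurable_iff_comap_le]
    refine @measurable_to_prop _ (MeasurableSpace.generateFrom (Set.range cyl)) _ ?_
    apply MeasurableSpace.measurableSet_generateFrom
    refine ⟨{n}, ?_⟩
    ext b
    simp [cyl]
  · refine MeasurableSpace.generateFrom_le ?_
    rintro _ ⟨I, rfl⟩
    exact cyl_meas I

theorem cyl_pi : IsPiSystem (Set.range cyl) := by
  classical
  rintro _ ⟨I, rfl⟩ _ ⟨J, rfl⟩ _
  refine ⟨I ∪ J, ?_⟩
  ext b
  simp only [cyl, mem_ofPred_eq, mem_inter_iff, Finset.mem_union]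
  constructor
  · intro h
    exact ⟨fun n hn => h n (Or.inl hn), fun n hn => h n (Or.inr hn)⟩
  · rintro ⟨h1, h2⟩ n (hn | hn)
    · exact h1 n hn
    · exact h2 n hn

variable {Ω Ω' : Type*} [MeasurableSpace Ω] [MeasurableSpace Ω'] {P : Measure Ω} {P' : Measure Ω'}

/-- the sequence of the truth values -/
def seqOf (F : ℕ → Set Ω) (ω : Ω) : ℕ → Prop := fun n => ω ∈ F n

theorem seqOf_meas {F : ℕ → Set Ω} (hF : ∀ n, MeasurableSet (F n)) : Measurable (seqOf F) :=
  measurable_pi_iff.mpr fun n => measurableSet_setOfPred.mp (hF n)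

omit [MeasurableSpace Ω] in
theorem preim_cyl (F : ℕ → Set Ω) (I : Finset ℕ) : seqOf F ⁻¹' cyl I = ⋂ n ∈ I, F n := by
  ext ω
  simp [seqOf, cyl]

theorem law_eq [IsProbabilityMeasure P] [IsProbabilityMeasure P'] {F : ℕ → Set Ω}
    {F' : ℕ → Set Ω'} (hF : ∀ n, MeasurableSet (F n)) (hF' : ∀ n, MeasurableSet (F' n))
    (h : ∀ I : Finset ℕ, P (⋂ n ∈ I, F n) = P' (⋂ n ∈ I, F' n)) :
    P.map (seqOf F) = P'.map (seqOf F') := by
  have := Measure.isProbabilityMeasure_map (μ := P) (seqOf_meas hF).aemeasurable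
  have := Measure.isProbabilityMeasure_map (μ := P') (seqOf_meas hF').aemeasurable
  refine ext_of_generate_finite (Set.range cyl) cyl_gen cyl_pi ?_ ?_
  · rintro _ ⟨I, rfl⟩
    rw [Measure.map_apply (seqOf_meas hF) (cyl_meas I), Measure.map_apply (seqOf_meas hF')
      (cyl_meas I), preim_cyl, preim_cyl, h I]
  · rw [measure_univ, measure_univ]

/-- the set of sequences with convergent averages -/
def good : Set (ℕ → Prop) := {b | CvR fun n => pv (b n)}

theorem good_meas : MeasurableSet good := by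
  unfold good CvR
  apply measurableSet_exists_tendsto
  intro N
  unfold Av
  refine Measurable.const_mul ?_ _
  refine Finset.measurable_fun_sum _ fun n _ => ?_
  exact measurable_pv.comp (measurable_pi_apply n)

theorem cv_iff {F : ℕ → Set Ω} (hF : ∀ n, MeasurableSet (F n)) :
    (∀ᵐ ω ∂P, CvR fun n => pv (ω ∈ F n)) ↔ ∀ᵐ b ∂(P.map (seqOf F)), b ∈ good := by
  have h := ae_map_iff (p := fun b => b ∈ good) (μ := P) (seqOf_meas hF).aemeasurable good_meas
  exact h.symm

/-- Transfer of almost sure convergence. -/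
theorem transfer [IsProbabilityMeasure P] [IsProbabilityMeasure P'] {F : ℕ → Set Ω}
    {F' : ℕ → Set Ω'} (hF : ∀ n, MeasurableSet (F n)) (hF' : ∀ n, MeasurableSet (F' n))
    (h : ∀ I : Finset ℕ, P (⋂ n ∈ I, F n) = P' (⋂ n ∈ I, F' n))
    (hc : ∀ᵐ ω ∂P, CvR fun n => pv (ω ∈ F n)) : ∀ᵐ ω ∂P', CvR fun n => pv (ω ∈ F' n) := by
  rw [cv_iff hF', ← law_eq hF hF' h]
  exact (cv_iff hF).mp hc

/-- The ergodic theorem for stationary sequences of events. -/
theorem stat [IsProbabilityMeasure P] {F : ℕ → Set Ω} (hF : ∀ n, MeasurableSet (F n))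
    (h : ∀ I : Finset ℕ, P (⋂ n ∈ I, F (n + 1)) = P (⋂ n ∈ I, F n)) :
    ∀ᵐ ω ∂P, CvR fun n => pv (ω ∈ F n) := by
  rw [cv_iff hF]
  have := Measure.isProbabilityMeasure_map (μ := P) (seqOf_meas hF).aemeasurable
  let σ : (ℕ → Prop) → (ℕ → Prop) := fun b n => b (n + 1)
  have hσ : Measurable σ := measurable_pi_iff.mpr fun n => measurable_pi_apply (n + 1)
  have hmp : MeasurePreserving σ (P.map (seqOf F)) (P.map (seqOf F)) := by
    refine ⟨hσ, ?_⟩
    rw [Measure.map_map hσ (seqOf_meas hF)]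
    exact law_eq (F := fun n => F (n + 1)) (fun n => hF (n + 1)) hF h
  have hb := H165R3.BPE.birkhoff hmp (fun b => pv (b 0))
    (measurable_pv.comp (measurable_pi_apply 0)) 1 fun b => by
      rw [abs_of_nonneg (pv_nonneg _)]
      exact pv_le _
  filter_upwards [hb] with b hb
  refine ⟨_, hb.congr fun N => ?_⟩
  unfold Av
  congr 1
  refine Finset.sum_congr rfl fun k _ => ?_
  have hk : ∀ k n, σ^[k] b n = b (n + k) := by
    intro k
    induction k with
    | zero => intro n; rfl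
    | succ k ih =>
      intro n
      rw [Function.iterate_succ_apply']
      show σ^[k] b (n + 1) = _
      rw [ih]
      congr 1
      ring
  rw [hk, Nat.zero_add]

end Pool.Agent.TH739.Poi

end

end

/-! ## Averages and generating functions -/

section

open Filter Topology Set
open scoped ENNReal NNReal

noncomputable section

namespace Pool.Agent.TH739.Poi

/-- A power series with bounded coefficients which vanishes on a sequence accumulating inside the
interval has a vanishing constant term. -/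
theorem coeff_zero {d : ℕ → ℝ} {C : ℝ} (hC : ∀ k, |d k| ≤ C) {z : ℕ → ℝ} {z₀ : ℝ}
    (hz₀ : |z₀| < 1) (hz : Tendsto z atTop (𝓝 z₀)) (hne : ∀ i, z i ≠ z₀)
    (h0 : ∀ i, ∑' k, d k * z i ^ k = 0) : d 0 = 0 := by
  set p := FormalMultilinearSeries.ofScalars ℝ d with hp
  have hrad : (1 : ℝ≥0∞) ≤ p.radius := by
    have := p.le_radius_of_bound (r := 1) C (fun n => by
      rw [NNReal.coe_one, one_pow, mul_one, hp, FormalMultilinearSeries.ofScalars_norm]
      exact hC n)
    simpa using this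
  have hrad0 : 0 < p.radius := lt_of_lt_of_le one_pos hrad
  have han : AnalyticOnNhd ℝ p.sum (Metric.eball (0 : ℝ) p.radius) :=
    (p.hasFPowerSeriesOnBall hrad0).analyticOnNhd
  have hsub : Metric.ball (0 : ℝ) 1 ⊆ Metric.eball (0 : ℝ) p.radius := by
    rw [← Metric.eball_ofReal, ENNReal.ofReal_one]
    exact Metric.eball_subset_eball hrad
  have han' : AnalyticOnNhd ℝ p.sum (Metric.ball (0 : ℝ) 1) := han.mono hsub
  have hsum : ∀ x : ℝ, p.sum x = ∑' k, d k * x ^ k := by
    intro x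
    have h1 := FormalMultilinearSeries.ofScalars_sum_eq (E := ℝ) d x
    rw [FormalMultilinearSeries.ofScalarsSum] at h1
    rw [h1]
    simp [smul_eq_mul]
  have hfr : ∃ᶠ x in 𝓝[≠] z₀, p.sum x = 0 := by
    have h1 : Tendsto z atTop (𝓝[≠] z₀) :=
      tendsto_nhdsWithin_iff.mpr ⟨hz, Eventually.of_forall hne⟩
    exact h1.frequently (Frequently.of_forall fun i => by rw [hsum]; exact h0 i)
  have hzero := han'.eqOn_zero_of_preconnected_of_frequently_eq_zero
    (convex_ball (0 : ℝ) 1).isPreconnected (by simpa [Real.norm_eq_abs] using hz₀) hfr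
  have h2 := hzero (Metric.mem_ball_self one_pos)
  rw [hsum] at h2
  simp only [Pi.zero_apply] at h2
  rw [← h2, tsum_eq_single 0]
  · simp
  · intro k hk
    simp [zero_pow hk]

/-- the value of the power `z ^ κ`, where `none` stands for infinity -/
def val (κ : Option ℕ) (z : ℝ) : ℝ := κ.elim 0 fun k => z ^ k

theorem val_hasSum (κ : Option ℕ) (z : ℝ) :
    HasSum (fun k => pv (κ = some k) * z ^ k) (val κ z) := by
  cases κ with
  | none =>
    have : (fun k : ℕ => pv ((none : Option ℕ) = some k) * z ^ k) = fun _ => 0 := by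
      funext k
      rw [pv_false (by simp), zero_mul]
    rw [this]
    exact hasSum_zero
  | some m =>
    have h := hasSum_single (f := fun k : ℕ => pv (some m = some k) * z ^ k) m (by
      intro k hk
      rw [pv_false (by simpa using hk.symm), zero_mul])
    simpa [val, pv_true] using h

theorem Av_le {a : ℕ → ℝ} (h0 : ∀ n, 0 ≤ a n) (h1 : ∀ n, a n ≤ 1) (N : ℕ) :
    Av a N ∈ Icc (0 : ℝ) 1 := by
  unfold Av
  constructor
  · exact mul_nonneg (by positivity) (Finset.sum_nonneg fun n _ => h0 n)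
  · rcases Nat.eq_zero_or_pos N with h | h
    · subst h
      simp
    · rw [inv_mul_le_iff₀ (by exact_mod_cast h), mul_one]
      refine (Finset.sum_le_sum fun n _ => h1 n).trans ?_
      simp

/-- Convergence of the frequency of zero from the convergence of the generating functions. -/
theorem gf {κ : ℕ → Option ℕ} {z : ℕ → ℝ} {z₀ : ℝ} (hz₀ : |z₀| < 1)
    (hz : Tendsto z atTop (𝓝 z₀)) (hne : ∀ i, z i ≠ z₀) (hz0 : ∀ i, 0 ≤ z i) (hz1 : ∀ i, z i < 1)
    (h : ∀ i, CvR fun n => val (κ n) (z i)) : CvR fun n => pv (κ n = some 0) := by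
  let p : ℕ → ℕ → ℝ := fun N k => Av (fun n => pv (κ n = some k)) N
  have hp : ∀ N k, p N k ∈ Icc (0 : ℝ) 1 := fun N k =>
    Av_le (fun n => pv_nonneg _) (fun n => pv_le _) N
  have hps : ∀ N i, ∑' k, p N k * z i ^ k = Av (fun n => val (κ n) (z i)) N := by
    intro N i
    have h1 : HasSum (fun k => ∑ n ∈ Finset.range N, pv (κ n = some k) * z i ^ k)
        (∑ n ∈ Finset.range N, val (κ n) (z i)) := hasSum_sum fun n _ => val_hasSum (κ n) (z i)
    have h2 := (h1.mul_left (N : ℝ)⁻¹).tsum_eq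
    rw [Av, ← h2]
    congr 1
    funext k
    show (N : ℝ)⁻¹ * (∑ n ∈ Finset.range N, pv (κ n = some k)) * z i ^ k = _
    rw [mul_assoc, Finset.sum_mul]
  choose L hL using h
  have hK : IsCompact (Set.pi univ fun _ : ℕ => Icc (0 : ℝ) 1) :=
    isCompact_univ_pi fun _ => isCompact_Icc
  have key : ∀ (φ : ℕ → ℕ), Tendsto φ atTop atTop → ∀ q : ℕ → ℝ,
      (∀ k, Tendsto (fun r => p (φ r) k) atTop (𝓝 (q k))) → (∀ k, q k ∈ Icc (0 : ℝ) 1) →
      ∀ i, ∑' k, q k * z i ^ k = L i := by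
    intro φ hφ q hq hq1 i
    have h1 : Tendsto (fun r => ∑' k, p (φ r) k * z i ^ k) atTop (𝓝 (∑' k, q k * z i ^ k)) := by
      refine tendsto_tsum_of_dominated_convergence (bound := fun k => z i ^ k)
        (summable_geometric_of_lt_one (hz0 i) (hz1 i)) (fun k => (hq k).mul_const _) ?_
      refine Eventually.of_forall fun r k => ?_
      rw [norm_mul, norm_pow, Real.norm_of_nonneg (hp _ _).1, Real.norm_of_nonneg (hz0 i)]
      exact mul_le_of_le_one_left (pow_nonneg (hz0 i) k) (hp _ _).2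
    have h2 : Tendsto (fun r => ∑' k, p (φ r) k * z i ^ k) atTop (𝓝 (L i)) := by
      simp only [hps]
      exact (hL i).comp hφ
    exact tendsto_nhds_unique h1 h2
  obtain ⟨q, hqK, φ, hφm, hφ⟩ := hK.tendsto_subseq (x := p) fun N => fun k _ => hp N k
  have hφ' := fun k => (tendsto_pi_nhds.mp hφ) k
  have hqs := key φ hφm.tendsto_atTop q hφ' fun k => hqK k (mem_univ k)
  refine ⟨q 0, ?_⟩
  refine tendsto_of_subseq_tendsto fun ns hns => ?_
  obtain ⟨q', hqK', ψ, hψm, hψ⟩ := hK.tendsto_subseq (x := fun r => p (ns r)) fun N => fun k _ =>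
    hp (ns N) k
  have hψ' := fun k => (tendsto_pi_nhds.mp hψ) k
  have hqs' := key (fun r => ns (ψ r)) (hns.comp hψm.tendsto_atTop) q' hψ' fun k =>
    hqK' k (mem_univ k)
  have hsm : ∀ (q : ℕ → ℝ), (∀ k, q k ∈ Icc (0 : ℝ) 1) → ∀ i, Summable fun k => q k * z i ^ k := by
    intro q hq i
    refine Summable.of_norm_bounded (summable_geometric_of_lt_one (hz0 i) (hz1 i)) fun k => ?_
    rw [norm_mul, norm_pow, Real.norm_of_nonneg (hq _).1, Real.norm_of_nonneg (hz0 i)]
    exact mul_le_of_le_one_left (pow_nonneg (hz0 i) k) (hq _).2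
  have hd := coeff_zero (d := fun k => q' k - q k) (C := 1) (fun k => by
    have h1 := hqK k (mem_univ k)
    have h2 := hqK' k (mem_univ k)
    simp only [mem_Icc] at h1 h2
    rw [abs_le]
    constructor <;> linarith [h1.1, h1.2, h2.1, h2.2]) hz₀ hz hne fun i => by
      simp only [sub_mul]
      rw [(hsm q' (fun k => hqK' k (mem_univ k)) i).tsum_sub
        (hsm q (fun k => hqK k (mem_univ k)) i), hqs' i, hqs i, sub_self]
  have hd' : q' 0 = q 0 := by
    linarith
  refine ⟨ψ, ?_⟩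
  rw [← hd']
  exact hψ' 0

end Pool.Agent.TH739.Poi

end

end

/-! ## A Poisson process with countably many points -/

section

open Filter Topology MeasureTheory ProbabilityTheory Set
open scoped ENNReal NNReal

noncomputable section

namespace Pool.Agent.TH739.Poi

/-- integral of a finite product over an infinite product space -/
theorem int_prod {ι : Type*} {X : ι → Type*} [∀ i, MeasurableSpace (X i)]
    (μ : ∀ i, Measure (X i)) [∀ i, IsProbabilityMeasure (μ i)] (s : Finset ι)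
    (f : ∀ i, X i → ℝ) (hf : ∀ i, Measurable (f i)) :
    ∫ x, ∏ i ∈ s, f i (x i) ∂(Measure.infinitePi μ) = ∏ i ∈ s, ∫ y, f i y ∂(μ i) := by
  have h1 := integral_restrict_infinitePi (μ := μ) (s := s)
    (f := fun y : (Π i : s, X i) => ∏ i : s, f i (y i)) (by
      refine Measurable.aestronglyMeasurable ?_
      refine Finset.measurable_fun_prod _ fun i _ => ?_
      exact (hf i).comp (measurable_pi_apply i))
  have h2 := integral_fintype_prod_eq_prod (ι := s) (E := fun i => X i) (𝕜 := ℝ)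
    (fun i => f i) (μ := fun i => μ i)
  rw [h2] at h1
  rw [← Finset.prod_coe_sort s (fun i => ∫ y, f i y ∂(μ i)), ← h1]
  congr 1
  funext x
  exact (Finset.prod_coe_sort s (fun i => f i (x i))).symm

variable {Y : Type*} [MeasurableSpace Y]

/-- the total masses -/
def lam (ν : ℕ → Measure Y) (k : ℕ) : ℝ≥0 := (ν k univ).toNNReal

open Classical in
/-- the normalised measures -/
def pr (ν : ℕ → Measure Y) (y₀ : Y) (k : ℕ) : Measure Y :=
  if ν k = 0 then Measure.dirac y₀ else (ν k univ)⁻¹ • ν k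

variable {ν : ℕ → Measure Y} {y₀ : Y}

instance [∀ k, IsFiniteMeasure (ν k)] (k : ℕ) : IsProbabilityMeasure (pr ν y₀ k) := by
  unfold pr
  split_ifs with h
  · infer_instance
  · constructor
    have h1 : ν k univ ≠ 0 := fun h2 => h (Measure.measure_univ_eq_zero.mp h2)
    rw [Measure.smul_apply, smul_eq_mul, ENNReal.inv_mul_cancel h1 (measure_ne_top _ _)]

theorem lam_pr [∀ k, IsFiniteMeasure (ν k)] (k : ℕ) (f : Y → ℝ) :
    (lam ν k : ℝ) * ∫ y, f y ∂(pr ν y₀ k) = ∫ y, f y ∂(ν k) := by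
  unfold pr lam
  split_ifs with h
  · rw [h]
    simp
  · have h1 : ν k univ ≠ 0 := fun h2 => h (Measure.measure_univ_eq_zero.mp h2)
    rw [integral_smul_measure, ENNReal.toReal_inv, smul_eq_mul, ← mul_assoc]
    have h2 : ((ν k univ).toNNReal : ℝ) = (ν k univ).toReal := rfl
    rw [h2, mul_inv_cancel₀, one_mul]
    exact ENNReal.toReal_ne_zero.mpr ⟨h1, measure_ne_top _ _⟩

/-- the law of one block: the number of points and the points -/
def blk (ν : ℕ → Measure Y) (y₀ : Y) (k : ℕ) : Measure (ℕ × (ℕ → Y)) :=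
  (poissonMeasure (lam ν k)).prod (Measure.infinitePi fun _ : ℕ => pr ν y₀ k)

instance [∀ k, IsFiniteMeasure (ν k)] (k : ℕ) : IsProbabilityMeasure (blk ν y₀ k) := by
  unfold blk
  infer_instance

/-- the product of the values at the points of a block -/
def hb (g : Y → ℝ) (b : ℕ × (ℕ → Y)) : ℝ := ∏ l ∈ Finset.range b.1, g (b.2 l)

theorem hb_meas {g : Y → ℝ} (hg : Measurable g) : Measurable (hb g) := by
  unfold hb
  refine measurable_from_prod_countable_right fun n => ?_
  show Measurable fun y : ℕ → Y => ∏ l ∈ Finset.range n, g (y l)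
  refine Finset.measurable_fun_prod _ fun l _ => ?_
  exact hg.comp (measurable_pi_apply l)

omit [MeasurableSpace Y] in
theorem hb_bd {g : Y → ℝ} (h0 : ∀ y, 0 ≤ g y) (h1 : ∀ y, g y ≤ 1) (b : ℕ × (ℕ → Y)) :
    0 ≤ hb g b ∧ hb g b ≤ 1 :=
  ⟨Finset.prod_nonneg fun _ _ => h0 _, Finset.prod_le_one (fun _ _ => h0 _) fun _ _ => h1 _⟩

theorem int_hb [∀ k, IsFiniteMeasure (ν k)] (k : ℕ) {g : Y → ℝ} (hg : Measurable g)
    (h0 : ∀ y, 0 ≤ g y) (h1 : ∀ y, g y ≤ 1) :
    ∫ b, hb g b ∂(blk ν y₀ k) = Real.exp (-∫ y, (1 - g y) ∂(ν k)) := by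
  have hgi : Integrable g (ν k) := Integrable.of_bound hg.aestronglyMeasurable 1
    (Eventually.of_forall fun y => by rw [Real.norm_of_nonneg (h0 y)]; exact h1 y)
  have hgp : Integrable g (pr ν y₀ k) := Integrable.of_bound hg.aestronglyMeasurable 1
    (Eventually.of_forall fun y => by rw [Real.norm_of_nonneg (h0 y)]; exact h1 y)
  have hbi : Integrable (hb g) (blk ν y₀ k) := Integrable.of_bound
    (hb_meas hg).aestronglyMeasurable 1 (Eventually.of_forall fun b => by
      rw [Real.norm_of_nonneg (hb_bd h0 h1 b).1]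
      exact (hb_bd h0 h1 b).2)
  unfold blk at hbi ⊢
  rw [integral_prod _ hbi]
  set c : ℝ := ∫ y, g y ∂(pr ν y₀ k) with hc
  have e1 : ∀ n : ℕ, ∫ y, hb g (n, y) ∂(Measure.infinitePi fun _ : ℕ => pr ν y₀ k) = c ^ n := by
    intro n
    unfold hb
    simp only
    rw [int_prod (fun _ : ℕ => pr ν y₀ k) (Finset.range n) (fun _ => g) fun _ => hg]
    simp [hc]
  simp only [e1]
  rw [integral_poissonMeasure]
  set r : ℝ := (lam ν k : ℝ) with hr
  have e2 : ∀ n : ℕ, (Real.exp (-r) * r ^ n / (n.factorial : ℝ)) • c ^ n =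
      Real.exp (-r) * ((r * c) ^ n / (n.factorial : ℝ)) := by
    intro n
    rw [smul_eq_mul, mul_pow]
    ring
  simp only [e2]
  rw [tsum_mul_left]
  have e3 : ∑' n : ℕ, (r * c) ^ n / (n.factorial : ℝ) = Real.exp (r * c) := by
    rw [Real.exp_eq_exp_ℝ, NormedSpace.exp_eq_tsum_div]
  rw [e3, ← Real.exp_add]
  congr 1
  have e4 : ∫ y, (1 - g y) ∂(ν k) = r * ∫ y, (1 - g y) ∂(pr ν y₀ k) := (lam_pr k _).symm
  rw [e4, integral_sub (integrable_const _) hgp, ← hc]
  simp
  ring

/-- the space of configurations -/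
abbrev Om (Y : Type*) : Type _ := ℕ → ℕ × (ℕ → Y)

/-- the law of the configuration -/
def PP (ν : ℕ → Measure Y) (y₀ : Y) [∀ k, IsFiniteMeasure (ν k)] : Measure (Om Y) :=
  Measure.infinitePi fun k => blk ν y₀ k

instance [∀ k, IsFiniteMeasure (ν k)] : IsProbabilityMeasure (PP ν y₀) := by
  unfold PP
  infer_instance

/-- the product of the values at the points of the first blocks -/
def HK (K : ℕ) (g : Y → ℝ) (ω : Om Y) : ℝ := ∏ k ∈ Finset.range K, hb g (ω k)

theorem HK_meas (K : ℕ) {g : Y → ℝ} (hg : Measurable g) : Measurable (HK K g) := by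
  unfold HK
  refine Finset.measurable_fun_prod _ fun k _ => ?_
  exact (hb_meas hg).comp (measurable_pi_apply k)

omit [MeasurableSpace Y] in
theorem HK_bd (K : ℕ) {g : Y → ℝ} (h0 : ∀ y, 0 ≤ g y) (h1 : ∀ y, g y ≤ 1) (ω : Om Y) :
    0 ≤ HK K g ω ∧ HK K g ω ≤ 1 :=
  ⟨Finset.prod_nonneg fun _ _ => Finset.prod_nonneg fun _ _ => h0 _,
    Finset.prod_le_one (fun _ _ => Finset.prod_nonneg fun _ _ => h0 _)
      fun _ _ => Finset.prod_le_one (fun _ _ => h0 _) fun _ _ => h1 _⟩

omit [MeasurableSpace Y] in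
theorem HK_anti {g : Y → ℝ} (h0 : ∀ y, 0 ≤ g y) (h1 : ∀ y, g y ≤ 1) (ω : Om Y) :
    Antitone fun K => HK K g ω := by
  refine antitone_nat_of_succ_le fun K => ?_
  show HK (K + 1) g ω ≤ HK K g ω
  unfold HK
  rw [Finset.prod_range_succ]
  refine mul_le_of_le_one_right (HK_bd K h0 h1 ω).1 ?_
  exact Finset.prod_le_one (fun _ _ => h0 _) fun _ _ => h1 _

theorem int_HK [∀ k, IsFiniteMeasure (ν k)] (K : ℕ) {g : Y → ℝ} (hg : Measurable g)
    (h0 : ∀ y, 0 ≤ g y) (h1 : ∀ y, g y ≤ 1) :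
    ∫ ω, HK K g ω ∂(PP ν y₀) =
      Real.exp (-∑ k ∈ Finset.range K, ∫ y, (1 - g y) ∂(ν k)) := by
  unfold HK PP
  rw [int_prod (fun k => blk ν y₀ k) (Finset.range K) (fun _ => hb g) fun _ => hb_meas hg]
  rw [← Finset.sum_neg_distrib, Real.exp_sum]
  exact Finset.prod_congr rfl fun k _ => int_hb k hg h0 h1

/-- the product of the values at all points -/
def Hi (g : Y → ℝ) (ω : Om Y) : ℝ := ⨅ K, HK K g ω

omit [MeasurableSpace Y] in
theorem Hi_tendsto {g : Y → ℝ} (h0 : ∀ y, 0 ≤ g y) (h1 : ∀ y, g y ≤ 1) (ω : Om Y) :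
    Tendsto (fun K => HK K g ω) atTop (𝓝 (Hi g ω)) :=
  tendsto_atTop_ciInf (HK_anti h0 h1 ω) ⟨0, by
    rintro _ ⟨K, rfl⟩
    exact (HK_bd K h0 h1 ω).1⟩

omit [MeasurableSpace Y] in
theorem Hi_bd {g : Y → ℝ} (h0 : ∀ y, 0 ≤ g y) (h1 : ∀ y, g y ≤ 1) (ω : Om Y) :
    0 ≤ Hi g ω ∧ Hi g ω ≤ 1 :=
  ⟨ge_of_tendsto' (Hi_tendsto h0 h1 ω) fun K => (HK_bd K h0 h1 ω).1,
    le_of_tendsto' (Hi_tendsto h0 h1 ω) fun K => (HK_bd K h0 h1 ω).2⟩

theorem Hi_meas {g : Y → ℝ} (hg : Measurable g) : Measurable (Hi g) := by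
  unfold Hi
  exact Measurable.iInf fun K => HK_meas K hg

end Pool.Agent.TH739.Poi

end

end

/-! ## Marked points -/

section

open Filter Topology MeasureTheory ProbabilityTheory Set
open scoped ENNReal NNReal

noncomputable section

namespace Pool.Agent.TH739.Poi

/-- the law of a mark: every `j < m` has probability `q` -/
def pm (m : ℕ) (q : ℝ) : Measure ℕ :=
  ∑ j : Fin m, ENNReal.ofReal q • Measure.dirac (j : ℕ) +
    ENNReal.ofReal (1 - m * q) • Measure.dirac m

theorem pm_apply (m : ℕ) (q : ℝ) (t : Set ℕ) : pm m q t =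
    ∑ j : Fin m, ENNReal.ofReal q * ENNReal.ofReal (pv ((j : ℕ) ∈ t)) +
      ENNReal.ofReal (1 - m * q) * ENNReal.ofReal (pv (m ∈ t)) := by
  unfold pm
  rw [Measure.add_apply, Measure.finsetSum_apply, Measure.smul_apply, smul_eq_mul]
  have h : ∀ a : ℕ, Measure.dirac a t = ENNReal.ofReal (pv (a ∈ t)) := by
    intro a
    rw [Measure.dirac_apply]
    by_cases ha : a ∈ t
    · rw [indicator_of_mem ha, pv_true ha]
      simp
    · rw [indicator_of_notMem ha, pv_false ha]
      simp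
  rw [h m]
  congr 1
  refine Finset.sum_congr rfl fun j _ => ?_
  rw [Measure.smul_apply, smul_eq_mul, h]

theorem pm_prob {m : ℕ} {q : ℝ} (h0 : 0 ≤ q) (h1 : m * q ≤ 1) : IsProbabilityMeasure (pm m q) := by
  constructor
  rw [pm_apply]
  simp only [mem_univ, pv_true]
  rw [ENNReal.ofReal_one, mul_one, mul_one, Finset.sum_const, Finset.card_univ, Fintype.card_fin,
    nsmul_eq_mul, ← ENNReal.ofReal_natCast, ← ENNReal.ofReal_mul (by positivity),
    ← ENNReal.ofReal_add (by positivity) (by linarith)]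
  simp

variable {Y : Type*} [MeasurableSpace Y] {m : ℕ}

/-- the function of the points belonging to the marks -/
def gU (q : ℝ) (U : Fin m → Set Y) (y : Y) : ℝ := 1 - q * ∑ j, pv (y ∈ U j)

/-- the marks allowed at a point -/
def okm (U : Fin m → Set Y) (y : Y) : Set ℕ := {a | ∀ j : Fin m, (j : ℕ) = a → y ∉ U j}

omit [MeasurableSpace Y] in
theorem sum_pv_le (U : Fin m → Set Y) (y : Y) : ∑ j, pv (y ∈ U j) ≤ m := by
  refine (Finset.sum_le_sum fun j _ => pv_le _).trans ?_
  simp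

omit [MeasurableSpace Y] in
theorem gU_bd {q : ℝ} (h0 : 0 ≤ q) (h1 : m * q ≤ 1) (U : Fin m → Set Y) (y : Y) :
    0 ≤ gU q U y ∧ gU q U y ≤ 1 := by
  unfold gU
  have h2 := sum_pv_le U y
  have h3 : 0 ≤ ∑ j, pv (y ∈ U j) := Finset.sum_nonneg fun j _ => pv_nonneg _
  constructor
  · nlinarith
  · nlinarith

theorem pv_mem_meas {Z : Type*} [MeasurableSpace Z] {s : Set Z} (hs : MeasurableSet s) :
    Measurable fun z => pv (z ∈ s) :=
  measurable_pv.comp (measurableSet_setOfPred.mp hs)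

theorem gU_meas (q : ℝ) {U : Fin m → Set Y} (hU : ∀ j, MeasurableSet (U j)) :
    Measurable (gU q U) := by
  unfold gU
  refine measurable_const.sub (Measurable.const_mul ?_ q)
  exact Finset.measurable_fun_sum _ fun j _ => pv_mem_meas (hU j)

omit [MeasurableSpace Y] in
theorem pm_okm {q : ℝ} (h0 : 0 ≤ q) (h1 : m * q ≤ 1) (U : Fin m → Set Y) (y : Y) :
    pm m q (okm U y) = ENNReal.ofReal (gU q U y) := by
  rw [pm_apply]
  have e1 : ∀ j : Fin m, pv ((j : ℕ) ∈ okm U y) = 1 - pv (y ∈ U j) := by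
    intro j
    by_cases h : y ∈ U j
    · rw [pv_true h, pv_false, sub_self]
      intro h2
      exact h2 j rfl h
    · rw [pv_false h, pv_true, sub_zero]
      intro i hi
      rw [Fin.ext hi]
      exact h
  have e2 : pv (m ∈ okm U y) = 1 := pv_true fun j hj => absurd hj (by have := j.2; omega)
  simp only [e1, e2]
  rw [ENNReal.ofReal_one, mul_one]
  have e3 : ∀ j : Fin m, ENNReal.ofReal q * ENNReal.ofReal (1 - pv (y ∈ U j)) =
      ENNReal.ofReal (q * (1 - pv (y ∈ U j))) := fun j => (ENNReal.ofReal_mul h0).symm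
  simp only [e3]
  rw [← ENNReal.ofReal_sum_of_nonneg fun j _ => mul_nonneg h0 (by linarith [pv_le (y ∈ U j)]),
    ← ENNReal.ofReal_add (Finset.sum_nonneg fun j _ => mul_nonneg h0
      (by linarith [pv_le (y ∈ U j)])) (by linarith)]
  congr 1
  unfold gU
  rw [← Finset.mul_sum, Finset.sum_sub_distrib]
  simp
  ring

/-- the space of marks -/
abbrev Th : Type := (Σ _ : ℕ, ℕ) → ℕ

/-- the law of the marks -/
def TT (m : ℕ) (q : ℝ) [IsProbabilityMeasure (pm m q)] : Measure Th :=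
  Measure.infinitePi fun _ => pm m q

instance {q : ℝ} [IsProbabilityMeasure (pm m q)] : IsProbabilityMeasure (TT m q) := by
  unfold TT
  infer_instance

/-- no point of the first blocks with the mark `j` lies in `U j` -/
def WK (K : ℕ) (U : Fin m → Set Y) : Set (Om Y × Th) :=
  {p | ∀ k < K, ∀ l < (p.1 k).1, p.2 ⟨k, l⟩ ∈ okm U ((p.1 k).2 l)}

/-- no point with the mark `j` lies in `U j` -/
def W (U : Fin m → Set Y) : Set (Om Y × Th) :=
  {p | ∀ k, ∀ l < (p.1 k).1, p.2 ⟨k, l⟩ ∈ okm U ((p.1 k).2 l)}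

theorem okm_meas {U : Fin m → Set Y} (hU : ∀ j, MeasurableSet (U j)) :
    MeasurableSet {p : Y × ℕ | p.2 ∈ okm U p.1} := by
  have : {p : Y × ℕ | p.2 ∈ okm U p.1} = ⋂ j : Fin m, {p : Y × ℕ | (j : ℕ) = p.2 → p.1 ∉ U j} := by
    ext p
    simp [okm]
  rw [this]
  refine MeasurableSet.iInter fun j => ?_
  have : {p : Y × ℕ | (j : ℕ) = p.2 → p.1 ∉ U j} = ((U j) ×ˢ {(j : ℕ)})ᶜ := by
    ext p
    simp only [mem_ofPred_eq, mem_compl_iff, mem_prod, mem_singleton_iff]
    tauto
  rw [this]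
  exact ((hU j).prod (measurableSet_singleton _)).compl

theorem one_meas {U : Fin m → Set Y} (hU : ∀ j, MeasurableSet (U j)) (k l : ℕ) :
    MeasurableSet {p : Om Y × Th | l < (p.1 k).1 → p.2 ⟨k, l⟩ ∈ okm U ((p.1 k).2 l)} := by
  have h1 : MeasurableSet {p : Om Y × Th | l < (p.1 k).1} := by
    have : Measurable fun p : Om Y × Th => (p.1 k).1 :=
      ((measurable_pi_apply k).comp measurable_fst).fst
    exact measurableSet_lt measurable_const this
  have h2 : MeasurableSet {p : Om Y × Th | p.2 ⟨k, l⟩ ∈ okm U ((p.1 k).2 l)} := by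
    have : Measurable fun p : Om Y × Th => (((p.1 k).2 l, p.2 ⟨k, l⟩) : Y × ℕ) :=
      ((measurable_pi_apply l).comp ((measurable_pi_apply k).comp measurable_fst).snd).prodMk
        ((measurable_pi_apply _).comp measurable_snd)
    exact this (okm_meas hU)
  have : {p : Om Y × Th | l < (p.1 k).1 → p.2 ⟨k, l⟩ ∈ okm U ((p.1 k).2 l)} =
      {p : Om Y × Th | l < (p.1 k).1}ᶜ ∪ {p : Om Y × Th | p.2 ⟨k, l⟩ ∈ okm U ((p.1 k).2 l)} := by
    ext p
    simp only [mem_ofPred_eq, mem_union, mem_compl_iff]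
    tauto
  rw [this]
  exact h1.compl.union h2

theorem WK_meas (K : ℕ) {U : Fin m → Set Y} (hU : ∀ j, MeasurableSet (U j)) :
    MeasurableSet (WK K U) := by
  have : WK K U = ⋂ k ∈ Finset.range K, ⋂ l : ℕ,
      {p : Om Y × Th | l < (p.1 k).1 → p.2 ⟨k, l⟩ ∈ okm U ((p.1 k).2 l)} := by
    ext p
    simp [WK]
  rw [this]
  exact Finset.measurableSet_biInter _ fun k _ => MeasurableSet.iInter fun l => one_meas hU k l

omit [MeasurableSpace Y] in
theorem W_eq (U : Fin m → Set Y) : W U = ⋂ K, WK K U := by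
  ext p
  simp only [W, WK, mem_ofPred_eq, mem_iInter]
  constructor
  · intro h K k _
    exact h k
  · intro h k
    exact h (k + 1) k (Nat.lt_succ_self k)

theorem W_meas {U : Fin m → Set Y} (hU : ∀ j, MeasurableSet (U j)) : MeasurableSet (W U) := by
  rw [W_eq]
  exact MeasurableSet.iInter fun K => WK_meas K hU

omit [MeasurableSpace Y] in
theorem WK_anti (U : Fin m → Set Y) : Antitone fun K => WK K U :=
  fun _ _ h _ hp k hk => hp k (lt_of_lt_of_le hk h)

omit [MeasurableSpace Y] in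
/-- conditional probability of `WK` given the points -/
theorem sec_WK {q : ℝ} [IsProbabilityMeasure (pm m q)] (h0 : 0 ≤ q) (h1 : m * q ≤ 1) (K : ℕ)
    (U : Fin m → Set Y) (ω : Om Y) :
    TT m q {θ | (ω, θ) ∈ WK K U} = ENNReal.ofReal (HK K (gU q U) ω) := by
  have e1 : {θ : Th | (ω, θ) ∈ WK K U} = Set.pi
      ((Finset.range K).sigma fun k => Finset.range (ω k).1 : Finset (Σ _ : ℕ, ℕ))
      (fun i : (Σ _ : ℕ, ℕ) => okm U ((ω i.1).2 i.2)) := by
    ext θ
    simp only [WK, mem_ofPred_eq, Set.mem_pi, SetLike.mem_coe, Finset.mem_sigma, Finset.mem_range]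
    constructor
    · rintro h ⟨k, l⟩ ⟨hk, hl⟩
      exact h k hk l hl
    · intro h k hk l hl
      exact h ⟨k, l⟩ ⟨hk, hl⟩
  rw [e1, TT, Measure.infinitePi_pi _ fun i _ => MeasurableSet.of_discrete, Finset.prod_sigma]
  unfold HK hb
  rw [ENNReal.ofReal_prod_of_nonneg fun k _ => Finset.prod_nonneg fun l _ => (gU_bd h0 h1 U _).1]
  refine Finset.prod_congr rfl fun k _ => ?_
  rw [ENNReal.ofReal_prod_of_nonneg fun l _ => (gU_bd h0 h1 U _).1]
  exact Finset.prod_congr rfl fun l _ => pm_okm h0 h1 U _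

/-- conditional probability of `W` given the points -/
theorem sec_W {q : ℝ} [IsProbabilityMeasure (pm m q)] (h0 : 0 ≤ q) (h1 : m * q ≤ 1)
    {U : Fin m → Set Y} (hU : ∀ j, MeasurableSet (U j)) (ω : Om Y) :
    TT m q {θ | (ω, θ) ∈ W U} = ENNReal.ofReal (Hi (gU q U) ω) := by
  have e1 : {θ : Th | (ω, θ) ∈ W U} = ⋂ K, {θ : Th | (ω, θ) ∈ WK K U} := by
    ext θ
    simp only [mem_ofPred_eq, mem_iInter]
    rw [W_eq, mem_iInter]
  have hm : ∀ K, MeasurableSet {θ : Th | (ω, θ) ∈ WK K U} := fun K =>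
    measurable_prodMk_left (WK_meas K hU)
  have h2 := tendsto_measure_iInter_atTop (μ := TT m q) (s := fun K => {θ : Th | (ω, θ) ∈ WK K U})
    (fun K => (hm K).nullMeasurableSet) (fun a b h θ hθ => WK_anti U h hθ)
    ⟨0, measure_ne_top _ _⟩
  rw [← e1] at h2
  have h2 := h2.congr (f₂ := fun K => ENNReal.ofReal (HK K (gU q U) ω))
    fun K => sec_WK h0 h1 K U ω
  exact tendsto_nhds_unique h2 ((ENNReal.continuous_ofReal.tendsto _).comp
    (Hi_tendsto (fun y => (gU_bd h0 h1 U y).1) (fun y => (gU_bd h0 h1 U y).2) ω))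

theorem int_gU {ρ : Measure Y} [IsFiniteMeasure ρ] (q : ℝ) {U : Fin m → Set Y}
    (hU : ∀ j, MeasurableSet (U j)) :
    ∫ y, (1 - gU q U y) ∂ρ = q * ∑ j, (ρ (U j)).toReal := by
  unfold gU
  simp only [sub_sub_cancel]
  rw [integral_const_mul, integral_finsetSum]
  · congr 1
    refine Finset.sum_congr rfl fun j _ => ?_
    have : (fun y => pv (y ∈ U j)) = (U j).indicator 1 := by
      funext y
      by_cases h : y ∈ U j
      · rw [pv_true h, indicator_of_mem h]; rfl
      · rw [pv_false h, indicator_of_notMem h]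
    rw [this, integral_indicator_one (hU j)]
    rfl
  · intro j _
    exact Integrable.of_bound (pv_mem_meas (hU j)).aestronglyMeasurable 1
      (Eventually.of_forall fun y => by
        rw [Real.norm_of_nonneg (pv_nonneg _)]
        exact pv_le _)

theorem sum_toReal {ν : ℕ → Measure Y} {U : Set Y}
    (h : Measure.sum ν U ≠ ⊤) (hU : MeasurableSet U) :
    Tendsto (fun K => ∑ k ∈ Finset.range K, (ν k U).toReal) atTop
      (𝓝 (Measure.sum ν U).toReal) := by
  rw [Measure.sum_apply _ hU] at h ⊢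
  rw [ENNReal.tsum_toReal_eq fun i => ENNReal.ne_top_of_tsum_ne_top h i]
  exact (ENNReal.hasSum_toReal h).tendsto_sum_nat

variable {ν : ℕ → Measure Y} {y₀ : Y}

/-- probability of `W` -/
theorem prob_W [∀ k, IsFiniteMeasure (ν k)] {q : ℝ} [IsProbabilityMeasure (pm m q)] (h0 : 0 ≤ q)
    (h1 : m * q ≤ 1) {U : Fin m → Set Y} (hU : ∀ j, MeasurableSet (U j))
    (hfin : ∀ j, Measure.sum ν (U j) ≠ ⊤) :
    ((PP ν y₀).prod (TT m q)) (W U) =
      ENNReal.ofReal (Real.exp (-(q * ∑ j, (Measure.sum ν (U j)).toReal))) := by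
  have h2 := tendsto_measure_iInter_atTop (μ := (PP ν y₀).prod (TT m q)) (s := fun K => WK K U)
    (fun K => (WK_meas K hU).nullMeasurableSet) (WK_anti U) ⟨0, measure_ne_top _ _⟩
  rw [← W_eq] at h2
  have h3 : ∀ K, ((PP ν y₀).prod (TT m q)) (WK K U) =
      ENNReal.ofReal (Real.exp (-(q * ∑ j, ∑ k ∈ Finset.range K, (ν k (U j)).toReal))) := by
    intro K
    rw [Measure.prod_apply (WK_meas K hU)]
    have e1 : ∀ ω : Om Y, TT m q (Prod.mk ω ⁻¹' WK K U) = ENNReal.ofReal (HK K (gU q U) ω) :=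
      fun ω => sec_WK h0 h1 K U ω
    simp only [e1]
    have hb0 := fun y => (gU_bd h0 h1 U y).1
    have hb1 := fun y => (gU_bd h0 h1 U y).2
    rw [← ofReal_integral_eq_lintegral_ofReal, int_HK K (gU_meas q hU) hb0 hb1]
    · congr 3
      simp only [int_gU q hU]
      rw [← Finset.mul_sum, Finset.sum_comm]
    · exact Integrable.of_bound (HK_meas K (gU_meas q hU)).aestronglyMeasurable 1
        (Eventually.of_forall fun ω => by
          rw [Real.norm_of_nonneg (HK_bd K hb0 hb1 ω).1]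
          exact (HK_bd K hb0 hb1 ω).2)
    · exact Eventually.of_forall fun ω => (HK_bd K hb0 hb1 ω).1
  have h2 := h2.congr (f₂ := fun K => ENNReal.ofReal (Real.exp
    (-(q * ∑ j, ∑ k ∈ Finset.range K, (ν k (U j)).toReal)))) fun K => h3 K
  refine tendsto_nhds_unique h2 ?_
  refine (ENNReal.continuous_ofReal.tendsto _).comp ((Real.continuous_exp.tendsto _).comp ?_)
  refine Tendsto.neg (Tendsto.const_mul q ?_)
  exact tendsto_finsetSum _ fun j _ => sum_toReal (hfin j) (hU j)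

end Pool.Agent.TH739.Poi

end

end

/-! ## Averages of void events of a Poisson process along several times -/

section

open Filter Topology MeasureTheory ProbabilityTheory Set
open scoped ENNReal NNReal

noncomputable section

namespace Pool.Agent.TH739.Poi

variable {Y : Type*} [MeasurableSpace Y] {m : ℕ}

/-! ### averages -/

theorem Av_add (a b : ℕ → ℝ) (N : ℕ) : Av (fun n => a n + b n) N = Av a N + Av b N := by
  unfold Av
  rw [Finset.sum_add_distrib, mul_add]

theorem Av_sub (a b : ℕ → ℝ) (N : ℕ) : Av (fun n => a n - b n) N = Av a N - Av b N := by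
  unfold Av
  rw [Finset.sum_sub_distrib, mul_sub]

theorem Av_mono {a b : ℕ → ℝ} (h : ∀ n, a n ≤ b n) (N : ℕ) : Av a N ≤ Av b N := by
  unfold Av
  exact mul_le_mul_of_nonneg_left (Finset.sum_le_sum fun n _ => h n) (by positivity)

theorem Av_nonneg {a : ℕ → ℝ} (h : ∀ n, 0 ≤ a n) (N : ℕ) : 0 ≤ Av a N := by
  unfold Av
  exact mul_nonneg (by positivity) (Finset.sum_nonneg fun n _ => h n)

theorem Av_abs (a : ℕ → ℝ) (N : ℕ) : |Av a N| ≤ Av (fun n => |a n|) N := by
  unfold Av
  rw [abs_mul, abs_of_nonneg (by positivity : (0 : ℝ) ≤ (N : ℝ)⁻¹)]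
  exact mul_le_mul_of_nonneg_left (Finset.abs_sum_le_sum_abs _ _) (by positivity)

/-- Convergent averages are stable under small changes. -/
theorem CvR_of_close {a b d : ℕ → ℝ} (ha : CvR a) (hd : Tendsto (Av d) atTop (𝓝 0))
    (h : ∀ n, |b n - a n| ≤ d n) : CvR b := by
  obtain ⟨L, hL⟩ := ha
  refine ⟨L, ?_⟩
  have h1 : Tendsto (Av fun n => b n - a n) atTop (𝓝 0) := by
    refine squeeze_zero_norm (fun N => ?_) hd
    rw [Real.norm_eq_abs]
    exact (Av_abs _ N).trans (Av_mono h N)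
  have h2 := h1.add hL
  rw [zero_add] at h2
  refine h2.congr fun N => ?_
  rw [Av_sub]
  ring

/-- Kronecker's lemma. -/
theorem kron {b : ℕ → ℝ} (h0 : ∀ n, 0 ≤ b n) (hs : Summable fun n => b n / (n + 1)) :
    Tendsto (Av b) atTop (𝓝 0) := by
  rw [Metric.tendsto_atTop]
  intro ε hε
  have h1 := hs.hasSum.tendsto_sum_nat
  set c : ℕ → ℝ := fun n => b n / (n + 1) with hc
  obtain ⟨M, hM⟩ := (Metric.tendsto_atTop.mp h1) (ε / 4) (by positivity)
  set R : ℝ := ∑ n ∈ Finset.range M, b n with hR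
  obtain ⟨N₁, hN₁⟩ := exists_nat_gt (4 * R / ε)
  refine ⟨max (max M N₁) 1, fun N hN => ?_⟩
  have hNM : M ≤ N := le_trans (le_trans (le_max_left _ _) (le_max_left _ _)) hN
  have hNN : N₁ ≤ N := le_trans (le_trans (le_max_right _ _) (le_max_left _ _)) hN
  have hN1 : 1 ≤ N := le_trans (le_max_right _ _) hN
  have hN0 : (0 : ℝ) < N := by exact_mod_cast hN1
  rw [Real.dist_eq, sub_zero, abs_of_nonneg (Av_nonneg h0 N)]
  unfold Av
  rw [inv_mul_lt_iff₀ hN0]
  have e1 : ∑ n ∈ Finset.range N, b n = R + ∑ n ∈ Finset.Ico M N, b n :=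
    (Finset.sum_range_add_sum_Ico _ hNM).symm
  have e2 : ∑ n ∈ Finset.Ico M N, b n ≤ N * ∑ n ∈ Finset.Ico M N, c n := by
    rw [Finset.mul_sum]
    refine Finset.sum_le_sum fun n hn => ?_
    rw [Finset.mem_Ico] at hn
    have h3 : (n : ℝ) + 1 ≤ N := by exact_mod_cast hn.2
    have h4 : (0 : ℝ) < (n : ℝ) + 1 := by positivity
    rw [hc]
    simp only
    rw [mul_div_assoc', le_div_iff₀ h4, mul_comm]
    exact mul_le_mul_of_nonneg_right h3 (h0 n)
  have e3 : ∑ n ∈ Finset.Ico M N, c n ≤ ε / 2 := by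
    have h5 := hM M le_rfl
    have h6 := hM N hNM
    have h7 : ∑ n ∈ Finset.range N, c n = ∑ n ∈ Finset.range M, c n + ∑ n ∈ Finset.Ico M N, c n :=
      (Finset.sum_range_add_sum_Ico _ hNM).symm
    rw [Real.dist_eq, abs_lt] at h5 h6
    linarith [h5.1, h5.2, h6.1, h6.2]
  have e4 : R < N * (ε / 4) := by
    have h8 : 4 * R / ε < N := hN₁.trans_le (by exact_mod_cast hNN)
    rw [div_lt_iff₀ hε] at h8
    linarith
  rw [e1]
  nlinarith

/-! ### void events -/

/-- no point of the configuration lies in `B` -/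
def V (B : Set Y) : Set (Om Y) := {ω | ∀ k, ∀ l < (ω k).1, (ω k).2 l ∉ B}

/-- no point of the first blocks lies in `B` -/
def VK (K : ℕ) (B : Set Y) : Set (Om Y) := {ω | ∀ k < K, ∀ l < (ω k).1, (ω k).2 l ∉ B}

omit [MeasurableSpace Y] in
theorem V_eq (B : Set Y) : V B = ⋂ K, VK K B := by
  ext ω
  simp only [V, VK, mem_ofPred_eq, mem_iInter]
  constructor
  · intro h K k _
    exact h k
  · intro h k
    exact h (k + 1) k (Nat.lt_succ_self k)

omit [MeasurableSpace Y] in
theorem V_union {ι : Type*} (I : Finset ι) (B : ι → Set Y) :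
    V (⋃ n ∈ I, B n) = ⋂ n ∈ I, V (B n) := by
  ext ω
  simp only [V, mem_ofPred_eq, mem_iInter, mem_iUnion, not_exists]
  exact ⟨fun h n hn k l hl => h k l hl n hn, fun h k l hl n hn => h n hn k l hl⟩

theorem VK_meas (K : ℕ) {B : Set Y} (hB : MeasurableSet B) : MeasurableSet (VK K B) := by
  have : VK K B = ⋂ k ∈ Finset.range K, ⋂ l : ℕ,
      ({ω : Om Y | l < (ω k).1} ∩ {ω : Om Y | (ω k).2 l ∈ B})ᶜ := by
    ext ω
    simp [VK]
  rw [this]
  refine Finset.measurableSet_biInter _ fun k _ => MeasurableSet.iInter fun l => ?_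
  refine MeasurableSet.compl (MeasurableSet.inter ?_ ?_)
  · have : Measurable fun ω : Om Y => (ω k).1 := (measurable_pi_apply k).fst
    exact measurableSet_lt measurable_const this
  · have : Measurable fun ω : Om Y => (ω k).2 l :=
      (measurable_pi_apply l).comp (measurable_pi_apply k).snd
    exact this hB

theorem V_meas {B : Set Y} (hB : MeasurableSet B) : MeasurableSet (V B) := by
  rw [V_eq]
  exact MeasurableSet.iInter fun K => VK_meas K hB

omit [MeasurableSpace Y] in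
theorem HK_void (K : ℕ) (B : Set Y) (ω : Om Y) :
    HK K (fun y => 1 - pv (y ∈ B)) ω = pv (ω ∈ VK K B) := by
  by_cases h : ω ∈ VK K B
  · rw [pv_true h]
    unfold HK hb
    refine Finset.prod_eq_one fun k hk => Finset.prod_eq_one fun l hl => ?_
    show 1 - pv _ = 1
    rw [pv_false (h k (Finset.mem_range.mp hk) l (Finset.mem_range.mp hl)), sub_zero]
  · rw [pv_false h]
    simp only [VK, mem_ofPred_eq, not_forall, not_not] at h
    obtain ⟨k, hk, l, hl, hy⟩ := h
    unfold HK hb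
    refine Finset.prod_eq_zero (Finset.mem_range.mpr hk) ?_
    refine Finset.prod_eq_zero (Finset.mem_range.mpr hl) ?_
    show 1 - pv _ = 0
    rw [pv_true hy, sub_self]

variable {ν : ℕ → Measure Y} {y₀ : Y}

/-- probability of a void event -/
theorem prob_V [∀ k, IsFiniteMeasure (ν k)] {B : Set Y} (hB : MeasurableSet B)
    (hfin : Measure.sum ν B ≠ ⊤) :
    PP ν y₀ (V B) = ENNReal.ofReal (Real.exp (-(Measure.sum ν B).toReal)) := by
  have h2 := tendsto_measure_iInter_atTop (μ := PP ν y₀) (s := fun K => VK K B)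
    (fun K => (VK_meas K hB).nullMeasurableSet)
    (fun a b h ω hω k hk => hω k (lt_of_lt_of_le hk h)) ⟨0, measure_ne_top _ _⟩
  rw [← V_eq] at h2
  have hg : Measurable fun y => 1 - pv (y ∈ B) := measurable_const.sub (pv_mem_meas hB)
  have hb0 : ∀ y, 0 ≤ 1 - pv (y ∈ B) := fun y => by linarith [pv_le (y ∈ B)]
  have hb1 : ∀ y, 1 - pv (y ∈ B) ≤ 1 := fun y => by linarith [pv_nonneg (y ∈ B)]
  have hint : ∀ {Z : Type _} [MeasurableSpace Z] (ρ : Measure Z) [IsFiniteMeasure ρ] (s : Set Z),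
      MeasurableSet s → ∫ y, pv (y ∈ s) ∂ρ = (ρ s).toReal := by
    intro Z _ ρ _ s hs
    have : (fun y => pv (y ∈ s)) = s.indicator 1 := by
      funext y
      by_cases h : y ∈ s
      · rw [pv_true h, indicator_of_mem h]; rfl
      · rw [pv_false h, indicator_of_notMem h]
    rw [this, integral_indicator_one hs]
    rfl
  have h3 : ∀ K, PP ν y₀ (VK K B) =
      ENNReal.ofReal (Real.exp (-∑ k ∈ Finset.range K, (ν k B).toReal)) := by
    intro K
    have h4 := int_HK (ν := ν) (y₀ := y₀) K hg hb0 hb1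
    simp only [HK_void, sub_sub_cancel] at h4
    rw [hint (PP ν y₀) _ (VK_meas K hB)] at h4
    simp only [hint _ _ hB] at h4
    rw [← h4, ENNReal.ofReal_toReal (measure_ne_top _ _)]
  have h2 := h2.congr (f₂ := fun K => ENNReal.ofReal (Real.exp
    (-∑ k ∈ Finset.range K, (ν k B).toReal))) fun K => h3 K
  refine tendsto_nhds_unique h2 ?_
  refine (ENNReal.continuous_ofReal.tendsto _).comp ((Real.continuous_exp.tendsto _).comp ?_)
  exact (sum_toReal hfin hB).neg

/-! ### the number of points in a set -/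

omit [MeasurableSpace Y] in
/-- The functionals `z ^ (number of points in B)`. -/
theorem exists_kappa (ω : Om Y) (B : Set Y) : ∃ κ : Option ℕ,
    (∀ z : ℝ, 0 ≤ z → z < 1 → Hi (fun y => 1 - (1 - z) * pv (y ∈ B)) ω = val κ z) ∧
      (κ = some 0 ↔ ω ∈ V B) := by
  classical
  let s : ℕ → ℕ := fun K => ∑ k ∈ Finset.range K, ∑ l ∈ Finset.range (ω k).1,
    if (ω k).2 l ∈ B then 1 else 0
  have hs : Monotone s := by
    refine monotone_nat_of_le_succ fun K => ?_
    show _ ≤ ∑ k ∈ Finset.range (K + 1), _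
    rw [Finset.sum_range_succ]
    exact Nat.le_add_right _ _
  have hHK : ∀ (K : ℕ) (z : ℝ), HK K (fun y => 1 - (1 - z) * pv (y ∈ B)) ω = z ^ s K := by
    intro K z
    unfold HK hb
    simp only [s]
    rw [← Finset.prod_pow_eq_pow_sum]
    refine Finset.prod_congr rfl fun k _ => ?_
    rw [← Finset.prod_pow_eq_pow_sum]
    refine Finset.prod_congr rfl fun l _ => ?_
    by_cases h : (ω k).2 l ∈ B
    · rw [pv_true h, if_pos h]
      ring
    · rw [pv_false h, if_neg h]
      ring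
  have hlim : ∀ z : ℝ, 0 ≤ z → z < 1 →
      Tendsto (fun K => z ^ s K) atTop (𝓝 (Hi (fun y => 1 - (1 - z) * pv (y ∈ B)) ω)) := by
    intro z hz0 hz1
    have h1 := Hi_tendsto (g := fun y => 1 - (1 - z) * pv (y ∈ B))
      (fun y => by nlinarith [pv_nonneg (y ∈ B), pv_le (y ∈ B)])
      (fun y => by nlinarith [pv_nonneg (y ∈ B), pv_le (y ∈ B)]) ω
    exact h1.congr fun K => hHK K z
  have hV : (∀ K, s K = 0) ↔ ω ∈ V B := by
    constructor
    · intro h k l hl hy
      have h1 := h (k + 1)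
      simp only [s] at h1
      rw [Finset.sum_eq_zero_iff] at h1
      have h2 := h1 k (Finset.mem_range.mpr (Nat.lt_succ_self k))
      rw [Finset.sum_eq_zero_iff] at h2
      have h3 := h2 l (Finset.mem_range.mpr hl)
      rw [if_pos hy] at h3
      exact one_ne_zero h3
    · intro h K
      simp only [s]
      refine Finset.sum_eq_zero fun k _ => Finset.sum_eq_zero fun l hl => ?_
      rw [if_neg (h k l (Finset.mem_range.mp hl))]
  by_cases hb : BddAbove (Set.range s)
  · obtain ⟨c, hc⟩ : ∃ c, ∀ᶠ K in atTop, s K = c := by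
      have h1 : ∃ M, ∀ K, s K ≤ M := by
        obtain ⟨M, hM⟩ := hb
        exact ⟨M, fun K => hM ⟨K, rfl⟩⟩
      have h2 : ∃ c, (∀ K, s K ≤ c) ∧ ∃ K, s K = c := by
        have h3 := Nat.find_spec h1
        refine ⟨Nat.find h1, h3, ?_⟩
        by_contra hcon
        push Not at hcon
        have h4 : ∀ K, s K < Nat.find h1 := fun K => lt_of_le_of_ne (h3 K) (hcon K)
        have h5 : 0 < Nat.find h1 := lt_of_le_of_lt (Nat.zero_le _) (h4 0)
        exact Nat.find_min h1 (m := Nat.find h1 - 1) (by omega) fun K => by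
          have := h4 K
          omega
      obtain ⟨c, hc1, K, hK⟩ := h2
      refine ⟨c, ?_⟩
      filter_upwards [eventually_ge_atTop K] with K' hK'
      exact le_antisymm (hc1 K') (hK ▸ hs hK')
    refine ⟨some c, fun z hz0 hz1 => ?_, ?_⟩
    · refine tendsto_nhds_unique (hlim z hz0 hz1) ?_
      show Tendsto _ _ (𝓝 (z ^ c))
      refine tendsto_const_nhds.congr' ?_
      filter_upwards [hc] with K hK
      rw [hK]
    · rw [← hV, Option.some_inj]
      constructor
      · rintro rfl K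
        obtain ⟨K', hK'1, hK'2⟩ := (hc.and (eventually_ge_atTop K)).exists
        have := hs hK'2
        omega
      · intro h
        obtain ⟨K', hK'⟩ := hc.exists
        rw [← hK', h]
  · have ht : Tendsto s atTop atTop := by
      rw [tendsto_atTop]
      intro M
      rw [not_bddAbove_iff] at hb
      obtain ⟨_, ⟨K, rfl⟩, hK⟩ := hb M
      filter_upwards [eventually_ge_atTop K] with K' hK'
      exact hK.le.trans (hs hK')
    refine ⟨none, fun z hz0 hz1 => ?_, ?_⟩
    · refine tendsto_nhds_unique (hlim z hz0 hz1) ?_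
      exact (tendsto_pow_atTop_nhds_zero_of_lt_one hz0 hz1).comp ht
    · rw [← hV]
      constructor
      · intro h
        exact absurd h (by simp)
      · intro h
        exfalso
        apply hb
        refine ⟨0, ?_⟩
        rintro _ ⟨K, rfl⟩
        rw [h K]

end Pool.Agent.TH739.Poi

end

end

/-! ## Decoupling -/

section

open Filter Topology MeasureTheory ProbabilityTheory Set
open scoped ENNReal NNReal

noncomputable section

namespace Pool.Agent.TH739.Poi

variable {Y : Type*} [MeasurableSpace Y] {m : ℕ}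

omit [MeasurableSpace Y] in
theorem W_union {ι : Type*} (I : Finset ι) (U : ι → Fin m → Set Y) :
    W (fun j => ⋃ n ∈ I, U n j) = ⋂ n ∈ I, W (U n) := by
  ext p
  simp only [W, okm, mem_ofPred_eq, mem_iInter, mem_iUnion, not_exists]
  exact ⟨fun h n hn k l hl j hj => h k l hl j hj n hn,
    fun h k l hl j hj n hn => h n hn k l hl j hj⟩

/-- the preimages of the sets at the time `n + 1` -/
def Cs (S : Y → Y) (A : Fin m → Set Y) (n : ℕ) (j : Fin m) : Set Y :=
  S^[((j : ℕ) + 1) * (n + 1)] ⁻¹' A j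

theorem Cs_meas {S : Y → Y} (hS : Measurable S) {A : Fin m → Set Y}
    (hA : ∀ j, MeasurableSet (A j)) (n : ℕ) (j : Fin m) : MeasurableSet (Cs S A n j) :=
  (hS.iterate _) (hA j)

omit [MeasurableSpace Y] in
theorem Cs_succ (S : Y → Y) (A : Fin m → Set Y) (n : ℕ) (j : Fin m) :
    Cs S A (n + 1) j = S^[(j : ℕ) + 1] ⁻¹' Cs S A n j := by
  unfold Cs
  rw [← preimage_comp, ← Function.iterate_add]
  congr 2

variable {ν : ℕ → Measure Y} {y₀ : Y}

theorem Cs_fin {S : Y → Y} (hS : MeasurePreserving S (Measure.sum ν) (Measure.sum ν))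
    {A : Fin m → Set Y} (hA : ∀ j, MeasurableSet (A j)) (n : ℕ) (j : Fin m) :
    Measure.sum ν (Cs S A n j) = Measure.sum ν (A j) :=
  (hS.iterate _).measure_preimage (hA j).nullMeasurableSet

/-- Convergence for the decoupled events. -/
theorem conv_W [∀ k, IsFiniteMeasure (ν k)] {q : ℝ} [IsProbabilityMeasure (pm m q)] (h0 : 0 ≤ q)
    (h1 : m * q ≤ 1) {S : Y → Y} (hS : MeasurePreserving S (Measure.sum ν) (Measure.sum ν))
    {A : Fin m → Set Y} (hA : ∀ j, MeasurableSet (A j)) (hfin : ∀ j, Measure.sum ν (A j) ≠ ⊤) :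
    ∀ᵐ p ∂((PP ν y₀).prod (TT m q)), CvR fun n => pv (p ∈ W (Cs S A n)) := by
  refine stat (fun n => W_meas fun j => Cs_meas hS.measurable hA n j) fun I => ?_
  rw [← W_union I fun n => Cs S A (n + 1), ← W_union I fun n => Cs S A n]
  have hm : ∀ (f : ℕ → ℕ) (j : Fin m), MeasurableSet (⋃ n ∈ I, Cs S A (f n) j) := fun f j =>
    Finset.measurableSet_biUnion _ fun n _ => Cs_meas hS.measurable hA _ j
  have hf : ∀ (f : ℕ → ℕ) (j : Fin m), Measure.sum ν (⋃ n ∈ I, Cs S A (f n) j) ≠ ⊤ := by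
    intro f j
    refine ne_top_of_le_ne_top ?_ (measure_biUnion_finset_le I _)
    refine ENNReal.sum_ne_top.mpr fun n _ => ?_
    rw [Cs_fin hS hA]
    exact hfin j
  rw [prob_W h0 h1 (hm (fun n => n + 1)) (hf fun n => n + 1), prob_W h0 h1 (hm fun n => n)
    (hf fun n => n)]
  have e : ∀ j, Measure.sum ν (⋃ n ∈ I, Cs S A (n + 1) j) =
      Measure.sum ν (⋃ n ∈ I, Cs S A n j) := by
    intro j
    rw [← (hS.iterate ((j : ℕ) + 1)).measure_preimage (hm (fun n => n) j).nullMeasurableSet]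
    congr 1
    simp only [preimage_iUnion, Cs_succ]
  simp only [e]

/-- Convergence for the conditional probabilities. -/
theorem conv_Hi [∀ k, IsFiniteMeasure (ν k)] {q : ℝ} (h0 : 0 ≤ q)
    (h1 : m * q ≤ 1) {S : Y → Y} (hS : MeasurePreserving S (Measure.sum ν) (Measure.sum ν))
    {A : Fin m → Set Y} (hA : ∀ j, MeasurableSet (A j)) (hfin : ∀ j, Measure.sum ν (A j) ≠ ⊤) :
    ∀ᵐ ω ∂(PP ν y₀), CvR fun n => Hi (gU q (Cs S A n)) ω := by
  have := pm_prob h0 h1
  have hW : ∀ n, MeasurableSet (W (Cs S A n) : Set (Om Y × Th)) :=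
    fun n => W_meas fun j => Cs_meas hS.measurable hA n j
  have h2 := Measure.ae_ae_of_ae_prod (conv_W (y₀ := y₀) h0 h1 hS hA hfin)
  filter_upwards [h2] with ω hω
  let F : ℕ → Th → ℝ := fun N θ => Av (fun n => pv ((ω, θ) ∈ W (Cs S A n))) N
  have hpm : ∀ n, Measurable fun θ : Th => pv ((ω, θ) ∈ W (Cs S A n)) := fun n =>
    (pv_mem_meas (hW n)).comp measurable_prodMk_left
  have hFm : ∀ N, Measurable (F N) := fun N =>
    (Finset.measurable_fun_sum _ fun n _ => hpm n).const_mul _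
  have hFb : ∀ N θ, F N θ ∈ Icc (0 : ℝ) 1 := fun N θ =>
    Av_le (fun n => pv_nonneg _) (fun n => pv_le _) N
  have hint : ∀ N, ∫ θ, F N θ ∂(TT m q) = Av (fun n => Hi (gU q (Cs S A n)) ω) N := by
    intro N
    show ∫ θ, (N : ℝ)⁻¹ * ∑ n ∈ Finset.range N, pv ((ω, θ) ∈ W (Cs S A n)) ∂(TT m q) = _
    rw [integral_const_mul, integral_finsetSum _ fun n _ =>
      Integrable.of_bound (hpm n).aestronglyMeasurable 1 (Eventually.of_forall fun θ => by
        rw [Real.norm_of_nonneg (pv_nonneg _)]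
        exact pv_le _)]
    unfold Av
    congr 1
    refine Finset.sum_congr rfl fun n _ => ?_
    have e1 : (fun θ : Th => pv ((ω, θ) ∈ W (Cs S A n))) =
        {θ : Th | (ω, θ) ∈ W (Cs S A n)}.indicator 1 := by
      funext θ
      by_cases h : (ω, θ) ∈ W (Cs S A n)
      · rw [pv_true h, indicator_of_mem (show θ ∈ {θ : Th | (ω, θ) ∈ W (Cs S A n)} from h)]
        rfl
      · rw [pv_false h, indicator_of_notMem (show θ ∉ {θ : Th | (ω, θ) ∈ W (Cs S A n)} from h)]
    have hs : MeasurableSet {θ : Th | (ω, θ) ∈ W (Cs S A n)} := measurable_prodMk_left (hW n)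
    rw [e1, integral_indicator_one hs, measureReal_def,
      sec_W h0 h1 (fun j => Cs_meas hS.measurable hA n j) ω, ENNReal.toReal_ofReal]
    exact (Hi_bd (fun y => (gU_bd h0 h1 _ y).1) (fun y => (gU_bd h0 h1 _ y).2) ω).1
  let L : Th → ℝ := fun θ => limUnder atTop fun N => F N θ
  have hL : ∀ᵐ θ ∂(TT m q), Tendsto (fun N => F N θ) atTop (𝓝 (L θ)) := by
    filter_upwards [hω] with θ hθ
    obtain ⟨l, hl⟩ := hθ
    exact (tendsto_nhds_limUnder ⟨l, hl⟩)
  refine ⟨∫ θ, L θ ∂(TT m q), ?_⟩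
  have h3 := tendsto_integral_of_dominated_convergence (μ := TT m q) (F := F) (f := L)
    (fun _ => (1 : ℝ)) (fun N => (hFm N).aestronglyMeasurable) (integrable_const _)
    (fun N => Eventually.of_forall fun θ => by
      rw [Real.norm_of_nonneg (hFb N θ).1]
      exact (hFb N θ).2) hL
  exact h3.congr hint

/-- the points lying in two of the sets -/
def Ov (C : Fin m → Set Y) : Set Y := {y | ∃ i j : Fin m, i < j ∧ y ∈ C i ∧ y ∈ C j}

theorem Ov_meas {C : Fin m → Set Y} (hC : ∀ j, MeasurableSet (C j)) : MeasurableSet (Ov C) := by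
  have : Ov C = ⋃ i : Fin m, ⋃ j : Fin m, ⋃ _ : i < j, (C i ∩ C j) := by
    ext y
    simp only [Ov, mem_ofPred_eq, mem_iUnion, mem_inter_iff, exists_prop]
  rw [this]
  exact MeasurableSet.iUnion fun i => MeasurableSet.iUnion fun j => MeasurableSet.iUnion fun _ =>
    (hC i).inter (hC j)

omit [MeasurableSpace Y] in
/-- Without overlaps the conditional probability depends on the union only. -/
theorem Hi_eq {q : ℝ} {C : Fin m → Set Y} {ω : Om Y} (h : ω ∈ V (Ov C)) :
    Hi (gU q C) ω = Hi (fun y => 1 - q * pv (y ∈ ⋃ j, C j)) ω := by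
  unfold Hi
  congr 1
  funext K
  unfold HK hb
  refine Finset.prod_congr rfl fun k _ => Finset.prod_congr rfl fun l hl => ?_
  have h1 := h k l (Finset.mem_range.mp hl)
  set y := (ω k).2 l
  show 1 - q * ∑ j, pv (y ∈ C j) = 1 - q * pv (y ∈ ⋃ j, C j)
  congr 2
  by_cases h2 : y ∈ ⋃ j, C j
  · rw [pv_true h2]
    obtain ⟨i, hi⟩ := mem_iUnion.mp h2
    rw [Finset.sum_eq_single i]
    · exact pv_true hi
    · intro j _ hj
      refine pv_false fun h3 => h1 ?_
      rcases lt_trichotomy i j with h4 | h4 | h4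
      · exact ⟨i, j, h4, hi, h3⟩
      · exact absurd h4.symm hj
      · exact ⟨j, i, h4, h3, hi⟩
    · intro h3
      exact absurd (Finset.mem_univ i) h3
  · rw [pv_false h2]
    refine Finset.sum_eq_zero fun j _ => pv_false fun h3 => h2 (mem_iUnion.mpr ⟨j, h3⟩)

omit [MeasurableSpace Y] in
/-- From the conditional probabilities to the void events. -/
theorem conv_V_of {C : ℕ → Fin m → Set Y} {ω : Om Y}
    (hQ : Tendsto (Av fun n => pv (ω ∉ V (Ov (C n)))) atTop (𝓝 0))
    (h : ∀ i : ℕ, CvR fun n => Hi (gU ((m + 1 : ℝ)⁻¹ * (1 - 1 / ((i : ℝ) + 2))) (C n)) ω) :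
    CvR fun n => pv (ω ∈ V (⋃ j, C n j)) := by
  choose κ hκ1 hκ2 using fun n => exists_kappa ω (⋃ j, C n j)
  have e : (fun n => pv (ω ∈ V (⋃ j, C n j))) = fun n => pv (κ n = some 0) := by
    funext n
    rw [← hκ2 n]
  rw [e]
  let q : ℕ → ℝ := fun i => (m + 1 : ℝ)⁻¹ * (1 - 1 / ((i : ℝ) + 2))
  have hm : (0 : ℝ) < (m : ℝ) + 1 := by positivity
  have hi2 : ∀ i : ℕ, 0 < 1 / ((i : ℝ) + 2) ∧ 1 / ((i : ℝ) + 2) ≤ 1 / 2 := by
    intro i
    refine ⟨by positivity, ?_⟩
    exact one_div_le_one_div_of_le (by norm_num) (by have : (0 : ℝ) ≤ i := by positivity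
                                                     linarith)
  have hinv : (m + 1 : ℝ)⁻¹ ≤ 1 := inv_le_one_of_one_le₀ (by linarith)
  have hinv0 : 0 < (m + 1 : ℝ)⁻¹ := by positivity
  have hq0 : ∀ i, 0 < q i := fun i => mul_pos hinv0 (by linarith [(hi2 i).2])
  have hq1 : ∀ i, q i ≤ 1 := fun i => by
    show (m + 1 : ℝ)⁻¹ * (1 - 1 / ((i : ℝ) + 2)) ≤ 1
    nlinarith [(hi2 i).1, (hi2 i).2]
  have hqm : ∀ i, m * q i ≤ 1 := fun i => by
    have h3 : (m : ℝ) * q i ≤ (m + 1) * ((m + 1 : ℝ)⁻¹ * 1) := by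
      refine mul_le_mul (by linarith) ?_ (hq0 i).le hm.le
      exact mul_le_mul_of_nonneg_left (by linarith [(hi2 i).1]) hinv0.le
    rw [mul_one, mul_inv_cancel₀ hm.ne'] at h3
    exact h3
  have htend : Tendsto (fun i => 1 - q i) atTop (𝓝 (1 - (m + 1 : ℝ)⁻¹)) := by
    have h4 : Tendsto (fun i : ℕ => 1 / ((i : ℝ) + 2)) atTop (𝓝 0) := by
      have h5 := tendsto_one_div_add_atTop_nhds_zero_nat (𝕜 := ℝ)
      have h6 := h5.comp (tendsto_add_atTop_nat 1)
      refine h6.congr fun i => ?_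
      simp only [Function.comp_apply]
      push_cast
      ring_nf
    have h7 : Tendsto (fun i : ℕ => 1 - (m + 1 : ℝ)⁻¹ * (1 - 1 / ((i : ℝ) + 2))) atTop
        (𝓝 (1 - (m + 1 : ℝ)⁻¹ * (1 - 0))) :=
      ((h4.const_sub 1).const_mul _).const_sub 1
    rw [sub_zero, mul_one] at h7
    exact h7
  refine gf (z := fun i => 1 - q i) (z₀ := 1 - (m + 1 : ℝ)⁻¹) ?_ htend ?_ ?_ ?_ ?_
  · rw [abs_lt]
    constructor <;> linarith
  · intro i h5
    have h6 : q i = (m + 1 : ℝ)⁻¹ := by linarith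
    have h7 : (m + 1 : ℝ)⁻¹ * (1 - 1 / ((i : ℝ) + 2)) = (m + 1 : ℝ)⁻¹ * 1 := by
      rw [mul_one]
      exact h6
    have h8 := mul_left_cancel₀ hinv0.ne' h7
    linarith [(hi2 i).1]
  · intro i
    linarith [hq1 i]
  · intro i
    linarith [hq0 i]
  · intro i
    refine CvR_of_close (h i) hQ fun n => ?_
    have hz := hκ1 n (1 - q i) (by linarith [hq1 i]) (by linarith [hq0 i])
    rw [sub_sub_cancel] at hz
    rw [← hz]
    by_cases hn : ω ∈ V (Ov (C n))
    · rw [← Hi_eq hn]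
      show |Hi (gU (q i) (C n)) ω - Hi (gU (q i) (C n)) ω| ≤ _
      rw [sub_self, abs_zero]
      exact pv_nonneg _
    · rw [pv_true hn]
      have b1 := Hi_bd (g := fun y => 1 - q i * pv (y ∈ ⋃ j, C n j))
        (fun y => by nlinarith [pv_nonneg (y ∈ ⋃ j, C n j), pv_le (y ∈ ⋃ j, C n j), hq0 i, hq1 i])
        (fun y => by nlinarith [pv_nonneg (y ∈ ⋃ j, C n j), pv_le (y ∈ ⋃ j, C n j), hq0 i]) ω
      have b2 := Hi_bd (g := gU (q i) (C n)) (fun y => (gU_bd (hq0 i).le (hqm i) _ y).1)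
        (fun y => (gU_bd (hq0 i).le (hqm i) _ y).2) ω
      show |_ - Hi (gU (q i) (C n)) ω| ≤ 1
      rw [abs_le]
      constructor <;> linarith [b1.1, b1.2, b2.1, b2.2]

end Pool.Agent.TH739.Poi

end

end

/-! ## Void events of unions, if the overlaps are negligible -/

section

open Filter Topology MeasureTheory ProbabilityTheory Set
open scoped ENNReal NNReal

noncomputable section

namespace Pool.Agent.TH739.Poi

variable {Y : Type*} [MeasurableSpace Y] {m : ℕ}

/-- Almost surely the set of times at which some point lies both in `S^{-a(n+1)} A` and in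
`S^{-b(n+1)} B` has density zero. -/
def Neg (ν : ℕ → Measure Y) (y₀ : Y) [∀ k, IsFiniteMeasure (ν k)] (S : Y → Y) (A B : Set Y)
    (a b : ℕ) : Prop :=
  ∀ᵐ ω ∂(PP ν y₀), Tendsto (Av fun n => pv (ω ∉ V (S^[a * (n + 1)] ⁻¹' A ∩
    S^[b * (n + 1)] ⁻¹' B))) atTop (𝓝 0)

theorem Av_sum {ι : Type*} (I : Finset ι) (a : ι → ℕ → ℝ) (N : ℕ) :
    Av (fun n => ∑ i ∈ I, a i n) N = ∑ i ∈ I, Av (a i) N := by
  unfold Av
  rw [Finset.sum_comm, Finset.mul_sum]

theorem Av_zero (N : ℕ) : Av (fun _ => 0) N = 0 := by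
  unfold Av
  simp

variable {ν : ℕ → Measure Y} {y₀ : Y}

theorem q_bd (m i : ℕ) : 0 ≤ (m + 1 : ℝ)⁻¹ * (1 - 1 / ((i : ℝ) + 2)) ∧
    m * ((m + 1 : ℝ)⁻¹ * (1 - 1 / ((i : ℝ) + 2))) ≤ 1 := by
  have h1 : 0 < 1 / ((i : ℝ) + 2) := by positivity
  have h2 : 1 / ((i : ℝ) + 2) ≤ 1 := by
    rw [div_le_one (by positivity)]
    have : (0 : ℝ) ≤ i := by positivity
    linarith
  have h3 : (0 : ℝ) < (m + 1 : ℝ)⁻¹ := by positivity
  refine ⟨mul_nonneg h3.le (by linarith), ?_⟩
  have h4 : (m : ℝ) * (m + 1 : ℝ)⁻¹ ≤ 1 := by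
    rw [← div_eq_mul_inv, div_le_one (by positivity)]
    linarith
  have h5 : (0 : ℝ) ≤ (m : ℝ) * (m + 1 : ℝ)⁻¹ := by positivity
  calc (m : ℝ) * ((m + 1 : ℝ)⁻¹ * (1 - 1 / ((i : ℝ) + 2)))
      = ((m : ℝ) * (m + 1 : ℝ)⁻¹) * (1 - 1 / ((i : ℝ) + 2)) := by ring
    _ ≤ 1 * 1 := mul_le_mul h4 (by linarith) (by linarith) zero_le_one
    _ = 1 := one_mul 1

/-- Convergence for the void events of the unions. -/
theorem conv_V [∀ k, IsFiniteMeasure (ν k)]
    {S : Y → Y} (hS : MeasurePreserving S (Measure.sum ν) (Measure.sum ν))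
    {A : Fin m → Set Y} (hA : ∀ j, MeasurableSet (A j)) (hfin : ∀ j, Measure.sum ν (A j) ≠ ⊤)
    (hov : ∀ i j : Fin m, i < j → Neg ν y₀ S (A i) (A j) ((i : ℕ) + 1) ((j : ℕ) + 1)) :
    ∀ᵐ ω ∂(PP ν y₀), CvR fun n => pv (ω ∈ V (⋃ j, Cs S A n j)) := by
  have h1 : ∀ᵐ ω ∂(PP ν y₀), ∀ i j : Fin m, i < j →
      Tendsto (Av fun n => pv (ω ∉ V (Cs S A n i ∩ Cs S A n j))) atTop (𝓝 0) := by
    rw [ae_all_iff]
    intro i
    rw [ae_all_iff]
    intro j
    by_cases hij : i < j
    · filter_upwards [hov i j hij] with ω hω _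
      exact hω
    · exact Eventually.of_forall fun ω h => absurd h hij
  have h2 : ∀ᵐ ω ∂(PP ν y₀), ∀ i : ℕ,
      CvR fun n => Hi (gU ((m + 1 : ℝ)⁻¹ * (1 - 1 / ((i : ℝ) + 2))) (Cs S A n)) ω := by
    rw [ae_all_iff]
    intro i
    exact conv_Hi (q_bd m i).1 (q_bd m i).2 hS hA hfin
  filter_upwards [h1, h2] with ω hω1 hω2
  refine conv_V_of ?_ hω2
  let c : Fin m × Fin m → ℕ → ℝ := fun p n =>
    if p.1 < p.2 then pv (ω ∉ V (Cs S A n p.1 ∩ Cs S A n p.2)) else 0
  have hc0 : ∀ p n, 0 ≤ c p n := by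
    intro p n
    show 0 ≤ if p.1 < p.2 then _ else _
    split_ifs
    · exact pv_nonneg _
    · exact le_rfl
  have hc : Tendsto (Av fun n => ∑ p ∈ (Finset.univ : Finset (Fin m × Fin m)), c p n) atTop
      (𝓝 0) := by
    have h3 : Tendsto (fun N => ∑ p ∈ (Finset.univ : Finset (Fin m × Fin m)), Av (c p) N) atTop
        (𝓝 (∑ p ∈ (Finset.univ : Finset (Fin m × Fin m)), 0)) := by
      refine tendsto_finsetSum _ fun p _ => ?_
      by_cases hp : p.1 < p.2
      · have : c p = fun n => pv (ω ∉ V (Cs S A n p.1 ∩ Cs S A n p.2)) := by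
          funext n
          exact if_pos hp
        rw [this]
        exact hω1 p.1 p.2 hp
      · have : c p = fun _ => 0 := by
          funext n
          exact if_neg hp
        rw [this]
        exact tendsto_const_nhds.congr fun N => (Av_zero N).symm
    rw [Finset.sum_const_zero] at h3
    exact h3.congr fun N => (Av_sum _ c N).symm
  refine squeeze_zero (fun N => Av_nonneg (fun n => pv_nonneg _) N) (fun N => Av_mono ?_ N) hc
  intro n
  by_cases h : ω ∉ V (Ov (Cs S A n))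
  · rw [pv_true h]
    simp only [V, mem_ofPred_eq, not_forall, not_not] at h
    obtain ⟨k, l, hl, i, j, hij, hi, hj⟩ := h
    have h4 : c (i, j) n = 1 := by
      show (if i < j then pv (ω ∉ V (Cs S A n i ∩ Cs S A n j)) else 0) = 1
      rw [if_pos hij]
      refine pv_true fun h5 => ?_
      exact h5 k l hl ⟨hi, hj⟩
    rw [← h4]
    exact Finset.single_le_sum (f := fun p => c p n) (fun p _ => hc0 p n) (Finset.mem_univ (i, j))
  · rw [pv_false h]
    exact Finset.sum_nonneg fun p _ => hc0 p n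

/-- The bound for a single time. -/
theorem prob_not_V [∀ k, IsFiniteMeasure (ν k)] {B : Set Y} (hB : MeasurableSet B) :
    PP ν y₀ (V B)ᶜ ≤ Measure.sum ν B := by
  by_cases hfin : Measure.sum ν B = ⊤
  · rw [hfin]
    exact le_top
  rw [prob_compl_eq_one_sub (V_meas hB), prob_V hB hfin]
  have h1 : (Measure.sum ν B) = ENNReal.ofReal (Measure.sum ν B).toReal :=
    (ENNReal.ofReal_toReal hfin).symm
  conv_rhs => rw [h1]
  rw [← ENNReal.ofReal_one, ← ENNReal.ofReal_sub _ (Real.exp_pos _).le]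
  refine ENNReal.ofReal_le_ofReal ?_
  have := Real.add_one_le_exp (-(Measure.sum ν B).toReal)
  linarith

end Pool.Agent.TH739.Poi

end

end
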