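import Mathlib
import Pool.Agent.TH739.Pois.Model

/-!
# Double visits of the points of a Poisson process are negligible
-/

set_option autoImplicit false

/-! ## Negligible overlaps from the convergence of double averages -/

section

open Filter Topology MeasureTheory ProbabilityTheory Set
open scoped ENNReal NNReal

noncomputable section

namespace Pool.Agent.TH739.Poi

section gen

variable {Ω : Type*} [MeasurableSpace Ω] {P : Measure Ω} [IsProbabilityMeasure P]

/-- The limit of bounded averages and its integral. -/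
theorem lim_int {F : ℕ → Ω → ℝ} (hF : ∀ n, Measurable (F n)) (h0 : ∀ n ω, 0 ≤ F n ω)
    (h1 : ∀ n ω, F n ω ≤ 1) (hc : ∀ᵐ ω ∂P, CvR fun n => F n ω) :
    ∃ L : Ω → ℝ, Integrable L P ∧ (0 ≤ᵐ[P] L) ∧
      (∀ᵐ ω ∂P, Tendsto (Av fun n => F n ω) atTop (𝓝 (L ω))) ∧
      Tendsto (Av fun n => ∫ ω, F n ω ∂P) atTop (𝓝 (∫ ω, L ω ∂P)) := by
  let G : ℕ → Ω → ℝ := fun N ω => Av (fun n => F n ω) N
  have hG : ∀ N, Measurable (G N) := fun N =>
    (Finset.measurable_fun_sum _ fun n _ => hF n).const_mul _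
  have hb : ∀ N ω, G N ω ∈ Icc (0 : ℝ) 1 := fun N ω => Av_le (fun n => h0 n ω) (fun n => h1 n ω) N
  let L : Ω → ℝ := fun ω => limUnder atTop fun N => G N ω
  have hL : ∀ᵐ ω ∂P, Tendsto (fun N => G N ω) atTop (𝓝 (L ω)) := by
    filter_upwards [hc] with ω hω
    obtain ⟨l, hl⟩ := hω
    exact tendsto_nhds_limUnder ⟨l, hl⟩
  have hLm : AEStronglyMeasurable L P :=
    aestronglyMeasurable_of_tendsto_ae atTop (fun N => (hG N).aestronglyMeasurable) hL
  have hLb : ∀ᵐ ω ∂P, L ω ∈ Icc (0 : ℝ) 1 := by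
    filter_upwards [hL] with ω hω
    exact isClosed_Icc.mem_of_tendsto hω (Eventually.of_forall fun N => hb N ω)
  refine ⟨L, ?_, ?_, hL, ?_⟩
  · refine Integrable.of_bound hLm 1 ?_
    filter_upwards [hLb] with ω hω
    rw [Real.norm_of_nonneg hω.1]
    exact hω.2
  · filter_upwards [hLb] with ω hω
    exact hω.1
  · have h3 := tendsto_integral_of_dominated_convergence (μ := P) (F := G) (f := L)
      (fun _ => (1 : ℝ)) (fun N => (hG N).aestronglyMeasurable) (integrable_const _)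
      (fun N => Eventually.of_forall fun θ => by
        rw [Real.norm_of_nonneg (hb N θ).1]
        exact (hb N θ).2) hL
    refine h3.congr fun N => ?_
    show ∫ ω, (N : ℝ)⁻¹ * ∑ n ∈ Finset.range N, F n ω ∂P = _
    rw [integral_const_mul, integral_finsetSum _ fun n _ =>
      Integrable.of_bound (hF n).aestronglyMeasurable 1 (Eventually.of_forall fun θ => by
        rw [Real.norm_of_nonneg (h0 n θ)]
        exact h1 n θ)]
    rfl

end gen

variable {Y : Type*} [MeasurableSpace Y] {m : ℕ} {ν : ℕ → Measure Y} {y₀ : Y}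

/-- From the marked events to the conditional probabilities. -/
theorem Hi_of_W [∀ k, IsFiniteMeasure (ν k)] {q : ℝ} [IsProbabilityMeasure (pm m q)] (h0 : 0 ≤ q)
    (h1 : m * q ≤ 1) {U : ℕ → Fin m → Set Y} (hU : ∀ n j, MeasurableSet (U n j))
    (h : ∀ᵐ p ∂((PP ν y₀).prod (TT m q)), CvR fun n => pv (p ∈ W (U n))) :
    ∀ᵐ ω ∂(PP ν y₀), CvR fun n => Hi (gU q (U n)) ω := by
  have hW : ∀ n, MeasurableSet (W (U n) : Set (Om Y × Th)) := fun n => W_meas (hU n)
  have h2 := Measure.ae_ae_of_ae_prod h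
  filter_upwards [h2] with ω hω
  have hpm : ∀ n, Measurable fun θ : Th => pv ((ω, θ) ∈ W (U n)) := fun n =>
    (pv_mem_meas (hW n)).comp measurable_prodMk_left
  obtain ⟨L, _, _, _, hL⟩ := lim_int (P := TT m q) (F := fun n θ => pv ((ω, θ) ∈ W (U n))) hpm
    (fun n θ => pv_nonneg _) (fun n θ => pv_le _) hω
  refine ⟨_, hL.congr fun N => ?_⟩
  congr 1
  funext n
  have e1 : (fun θ : Th => pv ((ω, θ) ∈ W (U n))) =
      {θ : Th | (ω, θ) ∈ W (U n)}.indicator 1 := by
    funext θ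
    by_cases h : (ω, θ) ∈ W (U n)
    · rw [pv_true h, indicator_of_mem (show θ ∈ {θ : Th | (ω, θ) ∈ W (U n)} from h)]
      rfl
    · rw [pv_false h, indicator_of_notMem (show θ ∉ {θ : Th | (ω, θ) ∈ W (U n)} from h)]
  have hs : MeasurableSet {θ : Th | (ω, θ) ∈ W (U n)} := measurable_prodMk_left (hW n)
  rw [e1, integral_indicator_one hs, measureReal_def, sec_W h0 h1 (hU n) ω, ENNReal.toReal_ofReal]
  exact (Hi_bd (fun y => (gU_bd h0 h1 _ y).1) (fun y => (gU_bd h0 h1 _ y).2) ω).1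

/-- The integral of the conditional probability. -/
theorem int_Hi [∀ k, IsFiniteMeasure (ν k)] {q : ℝ} (h0 : 0 ≤ q)
    (h1 : m * q ≤ 1) {U : Fin m → Set Y} (hU : ∀ j, MeasurableSet (U j))
    (hfin : ∀ j, Measure.sum ν (U j) ≠ ⊤) :
    ∫ ω, Hi (gU q U) ω ∂(PP ν y₀) = Real.exp (-(q * ∑ j, (Measure.sum ν (U j)).toReal)) := by
  have := pm_prob h0 h1
  have h2 := prob_W (y₀ := y₀) h0 h1 hU hfin
  have hb := Hi_bd (fun y => (gU_bd h0 h1 U y).1) (fun y => (gU_bd h0 h1 U y).2)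
  rw [Measure.prod_apply (W_meas hU)] at h2
  have e1 : ∀ ω : Om Y, TT m q (Prod.mk ω ⁻¹' W U) = ENNReal.ofReal (Hi (gU q U) ω) :=
    fun ω => sec_W h0 h1 hU ω
  simp only [e1] at h2
  rw [← ofReal_integral_eq_lintegral_ofReal] at h2
  · exact (ENNReal.ofReal_eq_ofReal_iff (integral_nonneg fun ω => (hb ω).1)
      (Real.exp_pos _).le).mp h2
  · exact Integrable.of_bound (Hi_meas (gU_meas q hU)).aestronglyMeasurable 1
      (Eventually.of_forall fun ω => by
        rw [Real.norm_of_nonneg (hb ω).1]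
        exact (hb ω).2)
  · exact Eventually.of_forall fun ω => (hb ω).1

omit [MeasurableSpace Y] in
/-- The effect of one point with a smaller value. -/
theorem Hi_gap {g g' : Y → ℝ} (hg0 : ∀ y, 0 ≤ g y) (hg1 : ∀ y, g y ≤ 1) (hg'0 : ∀ y, 0 ≤ g' y)
    (hgg : ∀ y, g' y ≤ g y) {D : Set Y} {s t : ℝ} (ht : 0 ≤ t)
    (hD : ∀ y ∈ D, s * g' y ≤ t * g y) {ω : Om Y} (hω : ω ∉ V D) :
    s * Hi g' ω ≤ t * Hi g ω := by
  have hg'1 : ∀ y, g' y ≤ 1 := fun y => (hgg y).trans (hg1 y)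
  simp only [V, mem_ofPred_eq, not_forall, not_not] at hω
  obtain ⟨k, l, hl, hy⟩ := hω
  refine le_of_tendsto_of_tendsto ((Hi_tendsto hg'0 hg'1 ω).const_mul s)
    ((Hi_tendsto hg0 hg1 ω).const_mul t) ?_
  filter_upwards [eventually_gt_atTop k] with K hK
  have e : ∀ g : Y → ℝ, HK K g ω = g ((ω k).2 l) * ((∏ l' ∈ (Finset.range (ω k).1).erase l,
      g ((ω k).2 l')) * ∏ k' ∈ (Finset.range K).erase k, hb g (ω k')) := by
    intro g
    unfold HK
    rw [← Finset.mul_prod_erase _ _ (Finset.mem_range.mpr hK), ← mul_assoc]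
    congr 1
    unfold hb
    rw [← Finset.mul_prod_erase _ _ (Finset.mem_range.mpr hl)]
  rw [e g, e g']
  have p0 : ∀ {g : Y → ℝ}, (∀ y, 0 ≤ g y) → 0 ≤ (∏ l' ∈ (Finset.range (ω k).1).erase l,
      g ((ω k).2 l')) * ∏ k' ∈ (Finset.range K).erase k, hb g (ω k') := fun hg =>
    mul_nonneg (Finset.prod_nonneg fun _ _ => hg _)
      (Finset.prod_nonneg fun _ _ => Finset.prod_nonneg fun _ _ => hg _)
  have p1 : (∏ l' ∈ (Finset.range (ω k).1).erase l, g' ((ω k).2 l')) *
      ∏ k' ∈ (Finset.range K).erase k, hb g' (ω k') ≤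
      (∏ l' ∈ (Finset.range (ω k).1).erase l, g ((ω k).2 l')) *
      ∏ k' ∈ (Finset.range K).erase k, hb g (ω k') := by
    refine mul_le_mul (Finset.prod_le_prod (fun _ _ => hg'0 _) fun _ _ => hgg _) ?_
      (Finset.prod_nonneg fun _ _ => Finset.prod_nonneg fun _ _ => hg'0 _)
      (Finset.prod_nonneg fun _ _ => hg0 _)
    exact Finset.prod_le_prod (fun _ _ => Finset.prod_nonneg fun _ _ => hg'0 _) fun _ _ =>
      Finset.prod_le_prod (fun _ _ => hg'0 _) fun _ _ => hgg _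
  have p2 := mul_le_mul (hD _ hy) p1 (p0 hg'0) (mul_nonneg ht (hg0 _))
  rw [mul_assoc, mul_assoc] at p2
  exact p2

omit [MeasurableSpace Y] in
theorem Hi_mono {g g' : Y → ℝ} (hg1 : ∀ y, g y ≤ 1) (hg'0 : ∀ y, 0 ≤ g' y)
    (hgg : ∀ y, g' y ≤ g y) (ω : Om Y) : Hi g' ω ≤ Hi g ω := by
  have hg'1 : ∀ y, g' y ≤ 1 := fun y => (hgg y).trans (hg1 y)
  have hg0 : ∀ y, 0 ≤ g y := fun y => (hg'0 y).trans (hgg y)
  refine le_of_tendsto_of_tendsto' (Hi_tendsto hg'0 hg'1 ω) (Hi_tendsto hg0 hg1 ω) fun K => ?_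
  exact Finset.prod_le_prod (fun _ _ => Finset.prod_nonneg fun _ _ => hg'0 _) fun _ _ =>
    Finset.prod_le_prod (fun _ _ => hg'0 _) fun _ _ => hgg _

/-- **Bourgain's theorem** on double averages, for indicator functions. -/
def BourgainTheorem : Prop :=
  ∀ (Ω : Type) (_ : MeasurableSpace Ω) (P : Measure Ω) (R : Ω → Ω), IsProbabilityMeasure P →
    MeasurePreserving R P P → ∀ (a b : ℕ) (F G : Set Ω), MeasurableSet F → MeasurableSet G →
      ∀ᵐ ω ∂P, ∃ L : ℝ, Tendsto (fun N : ℕ => (N : ℝ)⁻¹ * ∑ n ∈ Finset.Icc 1 N,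
        F.indicator 1 (R^[a * n] ω) * G.indicator 1 (R^[b * n] ω)) atTop (𝓝 L)

/-- The action of `S` on the marked configurations. -/
def act (S : Y → Y) (p : Om Y × Th) : Om Y × Th :=
  (fun k => ((p.1 k).1, fun l => S ((p.1 k).2 l)), p.2)

omit [MeasurableSpace Y] in
theorem act_W (S : Y → Y) (U : Fin m → Set Y) : act S ⁻¹' (W U) = W (fun j => S ⁻¹' U j) := rfl

omit [MeasurableSpace Y] in
theorem act_iter (S : Y → Y) (k : ℕ) (U : Fin m → Set Y) :
    (act S)^[k] ⁻¹' W U = W (fun j => S^[k] ⁻¹' U j) := by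
  induction k with
  | zero => rfl
  | succ k ih =>
    rw [Function.iterate_succ, preimage_comp, ih, act_W]
    rfl

/-- the void events of the marked points -/
def Wg (ρ : Measure Y) : Set (Set (Om Y × Th)) :=
  {D | ∃ B, MeasurableSet B ∧ ρ B ≠ ∞ ∧ D = W (fun _ : Fin 1 => B)}

theorem Wg_le (ρ : Measure Y) : MeasurableSpace.generateFrom (Wg ρ) ≤
    (inferInstance : MeasurableSpace (Om Y × Th)) := by
  refine MeasurableSpace.generateFrom_le ?_
  rintro _ ⟨B, hB, _, rfl⟩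
  exact W_meas fun _ => hB

omit [MeasurableSpace Y] in
theorem W_inter (U U' : Fin m → Set Y) : W U ∩ W U' = W (fun j => U j ∪ U' j) := by
  ext p
  simp only [W, okm, mem_inter_iff, mem_ofPred_eq, mem_union, not_or]
  exact ⟨fun h k l hl j hj => ⟨h.1 k l hl j hj, h.2 k l hl j hj⟩,
    fun h => ⟨fun k l hl j hj => (h k l hl j hj).1, fun k l hl j hj => (h k l hl j hj).2⟩⟩

/-- The system of the marked configurations is measure preserving, for the σ-algebra generated by
the void events. -/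
theorem act_mp [∀ k, IsFiniteMeasure (ν k)] {q : ℝ} [IsProbabilityMeasure (pm 1 q)] (h0 : 0 ≤ q)
    (h1 : q ≤ 1) {S : Y → Y} (hS : MeasurePreserving S (Measure.sum ν) (Measure.sum ν)) :
    @MeasurePreserving _ _ (MeasurableSpace.generateFrom (Wg (Measure.sum ν)))
      (MeasurableSpace.generateFrom (Wg (Measure.sum ν))) (act S)
      (((PP ν y₀).prod (TT 1 q)).trim (Wg_le _)) (((PP ν y₀).prod (TT 1 q)).trim (Wg_le _)) := by
  set P := (PP ν y₀).prod (TT 1 q) with hP
  set m₀ := MeasurableSpace.generateFrom (Wg (Measure.sum ν)) with hm₀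
  have hq : ((1 : ℕ) : ℝ) * q ≤ 1 := by
    rw [Nat.cast_one, one_mul]
    exact h1
  have hact : Measurable[m₀, m₀] (act S) := by
    refine @measurable_generateFrom _ _ m₀ _ _ ?_
    rintro _ ⟨B, hB, hBf, rfl⟩
    rw [act_W]
    exact MeasurableSpace.measurableSet_generateFrom ⟨S ⁻¹' B, hS.measurable hB, by
      rw [hS.measure_preimage hB.nullMeasurableSet]
      exact hBf, rfl⟩
  refine @MeasurePreserving.mk _ _ m₀ m₀ (act S) _ _ hact ?_
  have hpt : IsProbabilityMeasure (P.trim (Wg_le (Measure.sum ν))) :=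
    ⟨by rw [trim_measurableSet_eq _ (@MeasurableSet.univ _ m₀), measure_univ]⟩
  have hpm : @IsProbabilityMeasure _ m₀ (@Measure.map _ _ m₀ m₀ (act S)
      (P.trim (Wg_le (Measure.sum ν)))) :=
    @Measure.isProbabilityMeasure_map _ _ m₀ m₀ _ hpt _ (@Measurable.aemeasurable _ _ m₀ m₀ _ _ hact)
  refine @ext_of_generate_finite _ m₀ _ _ (Wg (Measure.sum ν)) rfl ?_
    (by have := hpm; infer_instance) ?_ ?_
  · rintro _ ⟨B, hB, hBf, rfl⟩ _ ⟨B', hB', hBf', rfl⟩ _
    rw [W_inter]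
    exact ⟨B ∪ B', hB.union hB', (measure_union_lt_top hBf.lt_top hBf'.lt_top).ne, rfl⟩
  · rintro _ ⟨B, hB, hBf, rfl⟩
    have hBf2 : Measure.sum ν (S ⁻¹' B) ≠ ∞ := by
      rw [hS.measure_preimage hB.nullMeasurableSet]
      exact hBf
    have hm1 : MeasurableSet[m₀] (W (fun _ : Fin 1 => B)) :=
      MeasurableSpace.measurableSet_generateFrom ⟨B, hB, hBf, rfl⟩
    have hm2 : MeasurableSet[m₀] (W (fun _ : Fin 1 => S ⁻¹' B)) :=
      MeasurableSpace.measurableSet_generateFrom ⟨S ⁻¹' B, hS.measurable hB, hBf2, rfl⟩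
    rw [@Measure.map_apply _ _ m₀ m₀ _ _ hact _ hm1, act_W, trim_measurableSet_eq _ hm2,
      trim_measurableSet_eq _ hm1, prob_W h0 hq (fun _ => hS.measurable hB) (fun _ => hBf2),
      prob_W h0 hq (fun _ => hB) (fun _ => hBf)]
    simp only [hS.measure_preimage hB.nullMeasurableSet]
  · rw [hpm.measure_univ, hpt.measure_univ]

/-- Convergence of the conditional probabilities for the unions, from Bourgain's theorem. -/
theorem conv_bou (hBou : BourgainTheorem) {Y : Type} [MeasurableSpace Y] {ν : ℕ → Measure Y}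
    {y₀ : Y} [∀ k, IsFiniteMeasure (ν k)] {q : ℝ} (h0 : 0 ≤ q) (h1 : q ≤ 1) {S : Y → Y}
    (hS : MeasurePreserving S (Measure.sum ν) (Measure.sum ν)) {A B : Set Y}
    (hA : MeasurableSet A) (hB : MeasurableSet B) (hAf : Measure.sum ν A ≠ ∞)
    (hBf : Measure.sum ν B ≠ ∞) (a b : ℕ) :
    ∀ᵐ ω ∂(PP ν y₀), CvR fun n => Hi (gU q (fun _ : Fin 1 =>
      S^[a * (n + 1)] ⁻¹' A ∪ S^[b * (n + 1)] ⁻¹' B)) ω := by
  have hq : ((1 : ℕ) : ℝ) * q ≤ 1 := by
    rw [Nat.cast_one, one_mul]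
    exact h1
  have := pm_prob h0 hq
  refine Hi_of_W (U := fun n (_ : Fin 1) => S^[a * (n + 1)] ⁻¹' A ∪ S^[b * (n + 1)] ⁻¹' B) h0 hq
    (fun n _ => ((hS.measurable.iterate _) hA).union ((hS.measurable.iterate _) hB)) ?_
  set P := (PP ν y₀).prod (TT 1 q) with hP
  set m₀ := MeasurableSpace.generateFrom (Wg (Measure.sum ν)) with hm₀
  have hpt : @IsProbabilityMeasure _ m₀ (P.trim (Wg_le (Measure.sum ν))) :=
    ⟨by rw [trim_measurableSet_eq _ (@MeasurableSet.univ _ m₀), measure_univ]⟩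
  have hb := hBou (Om Y × Th) m₀ (P.trim (Wg_le (Measure.sum ν))) (act S) hpt
    (act_mp h0 h1 hS) a b (W fun _ : Fin 1 => A) (W fun _ : Fin 1 => B)
    (MeasurableSpace.measurableSet_generateFrom ⟨A, hA, hAf, rfl⟩)
    (MeasurableSpace.measurableSet_generateFrom ⟨B, hB, hBf, rfl⟩)
  have hb2 := ae_of_ae_trim (Wg_le (Measure.sum ν)) hb
  filter_upwards [hb2] with p hp
  obtain ⟨L, hL⟩ := hp
  refine ⟨L, hL.congr fun N => ?_⟩
  unfold Av
  congr 1
  have h5 := Finset.sum_Ico_add' (fun n => (W fun _ : Fin 1 => A).indicator (1 : Om Y × Th → ℝ)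
    ((act S)^[a * n] p) * (W fun _ : Fin 1 => B).indicator (1 : Om Y × Th → ℝ)
    ((act S)^[b * n] p)) 0 N 1
  rw [Finset.range_eq_Ico]
  refine Eq.trans ?_ (h5.symm.trans ?_)
  · rfl
  refine Finset.sum_congr rfl fun n _ => ?_
  show _ = pv (p ∈ W fun _ : Fin 1 => S^[a * (n + 1)] ⁻¹' A ∪ S^[b * (n + 1)] ⁻¹' B)
  rw [← W_inter (fun _ : Fin 1 => S^[a * (n + 1)] ⁻¹' A) (fun _ : Fin 1 => S^[b * (n + 1)] ⁻¹' B),
    ← act_iter S (a * (n + 1)) fun _ : Fin 1 => A, ← act_iter S (b * (n + 1)) fun _ : Fin 1 => B]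
  by_cases h3 : (act S)^[a * (n + 1)] p ∈ W fun _ : Fin 1 => A
  · by_cases h4 : (act S)^[b * (n + 1)] p ∈ W fun _ : Fin 1 => B
    · rw [indicator_of_mem h3, indicator_of_mem h4, pv_true ⟨h3, h4⟩]
      simp
    · rw [indicator_of_notMem h4, pv_false fun h => h4 h.2, mul_zero]
  · rw [indicator_of_notMem h3, pv_false fun h => h3 h.1, zero_mul]

/-- the sets `A`, `B` at the places `a`, `b` -/
def Aab (A B : Set Y) (a b : ℕ) (j : Fin b) : Set Y :=
  if (j : ℕ) + 1 = a then A else if (j : ℕ) + 1 = b then B else ∅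

omit [MeasurableSpace Y] in
theorem sum_ab (φ : Set Y → ℝ) (hφ : φ ∅ = 0) (S : Y → Y) (A B : Set Y) {a b : ℕ} (ha : 0 < a)
    (hab : a < b) (n : ℕ) : ∑ j, φ (Cs S (Aab A B a b) n j) =
      φ (S^[a * (n + 1)] ⁻¹' A) + φ (S^[b * (n + 1)] ⁻¹' B) := by
  have hb : 0 < b := lt_trans ha hab
  let ja : Fin b := ⟨a - 1, by omega⟩
  let jb : Fin b := ⟨b - 1, by omega⟩
  have e : ∀ j : Fin b, φ (Cs S (Aab A B a b) n j) =
      (if j = ja then φ (S^[a * (n + 1)] ⁻¹' A) else 0) +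
        (if j = jb then φ (S^[b * (n + 1)] ⁻¹' B) else 0) := by
    intro j
    unfold Cs Aab
    by_cases h1 : (j : ℕ) + 1 = a
    · have h2 : j = ja := Fin.ext (by show (j : ℕ) = a - 1; omega)
      have h3 : j ≠ jb := fun h => by
        have : (j : ℕ) = b - 1 := congrArg Fin.val h
        omega
      rw [if_pos h1, if_pos h2, if_neg h3, add_zero, h1]
    · have h2 : j ≠ ja := fun h => h1 (by
        have : (j : ℕ) = a - 1 := congrArg Fin.val h
        omega)
      rw [if_neg h1, if_neg h2, zero_add]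
      by_cases h3 : (j : ℕ) + 1 = b
      · have h4 : j = jb := Fin.ext (by show (j : ℕ) = b - 1; omega)
        rw [if_pos h3, if_pos h4, h3]
      · have h4 : j ≠ jb := fun h => h3 (by
          have : (j : ℕ) = b - 1 := congrArg Fin.val h
          omega)
        rw [if_neg h3, if_neg h4, preimage_empty, hφ]
  simp only [e]
  rw [Finset.sum_add_distrib, Finset.sum_ite_eq' Finset.univ ja, Finset.sum_ite_eq' Finset.univ jb,
    if_pos (Finset.mem_univ _), if_pos (Finset.mem_univ _)]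

theorem exp_diff {x y : ℝ} (hx : 0 ≤ x) (hxy : x ≤ y) : Real.exp (-x) - Real.exp (-y) ≤ y - x := by
  have h1 := Real.add_one_le_exp (-(y - x))
  have h2 : Real.exp (-y) = Real.exp (-x) * Real.exp (-(y - x)) := by
    rw [← Real.exp_add]
    congr 1
    ring
  have h3 : Real.exp (-x) ≤ 1 := Real.exp_le_one_iff.mpr (by linarith)
  have h4 := Real.exp_pos (-x)
  rw [h2]
  nlinarith

/-- **Negligible overlaps from Bourgain's theorem.** -/
theorem neg_of_bou (hBou : BourgainTheorem) {Y : Type} [MeasurableSpace Y] {ν : ℕ → Measure Y}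
    {y₀ : Y} [∀ k, IsFiniteMeasure (ν k)] {S : Y → Y}
    (hS : MeasurePreserving S (Measure.sum ν) (Measure.sum ν)) {A B : Set Y}
    (hA : MeasurableSet A) (hB : MeasurableSet B) (hAf : Measure.sum ν A ≠ ∞)
    (hBf : Measure.sum ν B ≠ ∞) {a b : ℕ} (ha : 0 < a) (hab : a < b)
    (hnull : Tendsto (Av fun n => (Measure.sum ν (S^[a * (n + 1)] ⁻¹' A ∩
      S^[b * (n + 1)] ⁻¹' B)).toReal) atTop (𝓝 0)) : Neg ν y₀ S A B a b := by
  set ρ := Measure.sum ν with hρ
  let C₁ : ℕ → Set Y := fun n => S^[a * (n + 1)] ⁻¹' A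
  let C₂ : ℕ → Set Y := fun n => S^[b * (n + 1)] ⁻¹' B
  have hC₁ : ∀ n, MeasurableSet (C₁ n) := fun n => (hS.measurable.iterate _) hA
  have hC₂ : ∀ n, MeasurableSet (C₂ n) := fun n => (hS.measurable.iterate _) hB
  have m₁ : ∀ n, ρ (C₁ n) = ρ A := fun n => (hS.iterate _).measure_preimage hA.nullMeasurableSet
  have m₂ : ∀ n, ρ (C₂ n) = ρ B := fun n => (hS.iterate _).measure_preimage hB.nullMeasurableSet
  let s : ℝ := (ρ A).toReal + (ρ B).toReal
  have hs : 0 ≤ s := add_nonneg ENNReal.toReal_nonneg ENNReal.toReal_nonneg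
  let c : ℕ → ℝ := fun n => (ρ (C₁ n ∩ C₂ n)).toReal
  have hc0 : ∀ n, 0 ≤ c n := fun n => ENNReal.toReal_nonneg
  let u : ℕ → ℝ := fun n => (ρ (C₁ n ∪ C₂ n)).toReal
  have hu0 : ∀ n, 0 ≤ u n := fun n => ENNReal.toReal_nonneg
  have huf : ∀ n, ρ (C₁ n ∪ C₂ n) ≠ ∞ := fun n =>
    (measure_union_lt_top (by rw [m₁]; exact hAf.lt_top) (by rw [m₂]; exact hBf.lt_top)).ne
  have hu : ∀ n, u n + c n = s := by
    intro n
    have h1 := measure_union_add_inter (μ := ρ) (C₁ n) (hC₂ n)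
    have h2 : ρ (C₁ n ∩ C₂ n) ≠ ∞ :=
      ne_top_of_le_ne_top (huf n) (measure_mono (inter_subset_left.trans subset_union_left))
    show (ρ (C₁ n ∪ C₂ n)).toReal + (ρ (C₁ n ∩ C₂ n)).toReal = (ρ A).toReal + (ρ B).toReal
    rw [← ENNReal.toReal_add (huf n) h2, h1, m₁, m₂, ENNReal.toReal_add hAf hBf]
  have hb2 : 2 ≤ b := by omega
  have hbr : (2 : ℝ) ≤ b := by exact_mod_cast hb2
  let q : ℕ → ℝ := fun i => ((b : ℝ) * ((i : ℝ) + 2))⁻¹
  have hq0 : ∀ i, 0 < q i := fun i => by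
    show 0 < ((b : ℝ) * ((i : ℝ) + 2))⁻¹
    positivity
  have hqb : ∀ i, (b : ℝ) * q i ≤ 1 := by
    intro i
    show (b : ℝ) * ((b : ℝ) * ((i : ℝ) + 2))⁻¹ ≤ 1
    rw [mul_inv, ← mul_assoc, mul_inv_cancel₀ (by positivity), one_mul]
    exact inv_le_one_of_one_le₀ (by have : (0 : ℝ) ≤ i := by positivity
                                    linarith)
  have hq2 : ∀ i, 2 * q i ≤ 1 := fun i =>
    (mul_le_mul_of_nonneg_right hbr (hq0 i).le).trans (hqb i)
  have hq1 : ∀ i, q i ≤ 1 := fun i => by linarith [hq2 i, hq0 i]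
  have hqt : Tendsto q atTop (𝓝 0) := by
    have h5 := tendsto_one_div_add_atTop_nhds_zero_nat (𝕜 := ℝ)
    refine squeeze_zero (fun i => (hq0 i).le) (fun i => ?_) h5
    show ((b : ℝ) * ((i : ℝ) + 2))⁻¹ ≤ 1 / ((i : ℝ) + 1)
    rw [one_div]
    refine inv_anti₀ (by positivity) ?_
    have : (0 : ℝ) ≤ i := by positivity
    nlinarith
  let G₁ : ℕ → ℕ → Om Y → ℝ := fun i n ω => Hi (gU (q i) fun _ : Fin 1 => C₁ n ∪ C₂ n) ω
  let G₂ : ℕ → ℕ → Om Y → ℝ := fun i n ω => Hi (gU (q i) (Cs S (Aab A B a b) n)) ω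
  have hq1' : ∀ i, ((1 : ℕ) : ℝ) * q i ≤ 1 := fun i => by
    rw [Nat.cast_one, one_mul]
    exact hq1 i
  have hAab : ∀ j, MeasurableSet (Aab A B a b j) := by
    intro j
    unfold Aab
    split_ifs
    · exact hA
    · exact hB
    · exact MeasurableSet.empty
  have hAabf : ∀ j, ρ (Aab A B a b j) ≠ ∞ := by
    intro j
    unfold Aab
    split_ifs
    · exact hAf
    · exact hBf
    · simp
  have b1 : ∀ i n ω, 0 ≤ G₁ i n ω ∧ G₁ i n ω ≤ 1 := fun i n ω =>
    Hi_bd (fun y => (gU_bd (hq0 i).le (hq1' i) _ y).1)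
      (fun y => (gU_bd (hq0 i).le (hq1' i) _ y).2) ω
  have b2 : ∀ i n ω, 0 ≤ G₂ i n ω ∧ G₂ i n ω ≤ 1 := fun i n ω =>
    Hi_bd (fun y => (gU_bd (hq0 i).le (hqb i) _ y).1)
      (fun y => (gU_bd (hq0 i).le (hqb i) _ y).2) ω
  have M1 : ∀ i n, Measurable (G₁ i n) := fun i n =>
    Hi_meas (gU_meas _ fun _ => (hC₁ n).union (hC₂ n))
  have M2 : ∀ i n, Measurable (G₂ i n) := fun i n =>
    Hi_meas (gU_meas _ fun j => Cs_meas hS.measurable hAab n j)
  -- values of the two functions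
  have e1 : ∀ i n y, gU (q i) (fun _ : Fin 1 => C₁ n ∪ C₂ n) y =
      1 - q i * pv (y ∈ C₁ n ∪ C₂ n) := by
    intro i n y
    unfold gU
    rw [Finset.univ_unique, Finset.sum_singleton]
  have e2 : ∀ i n y, gU (q i) (Cs S (Aab A B a b) n) y =
      1 - q i * (pv (y ∈ C₁ n) + pv (y ∈ C₂ n)) := by
    intro i n y
    unfold gU
    rw [sum_ab (fun D => pv (y ∈ D)) (pv_false (notMem_empty y)) S A B ha hab n]
  have hle : ∀ n y, pv (y ∈ C₁ n ∪ C₂ n) ≤ pv (y ∈ C₁ n) + pv (y ∈ C₂ n) := by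
    intro n y
    by_cases h1 : y ∈ C₁ n
    · rw [pv_true h1]
      linarith [pv_le (y ∈ C₁ n ∪ C₂ n), pv_nonneg (y ∈ C₂ n)]
    · by_cases h2 : y ∈ C₂ n
      · rw [pv_true h2]
        linarith [pv_le (y ∈ C₁ n ∪ C₂ n), pv_nonneg (y ∈ C₁ n)]
      · rw [pv_false fun h => h.elim h1 h2]
        linarith [pv_nonneg (y ∈ C₁ n), pv_nonneg (y ∈ C₂ n)]
  have hgg : ∀ i n y, gU (q i) (Cs S (Aab A B a b) n) y ≤
      gU (q i) (fun _ : Fin 1 => C₁ n ∪ C₂ n) y := by
    intro i n y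
    rw [e1, e2]
    have := mul_le_mul_of_nonneg_left (hle n y) (hq0 i).le
    linarith
  have hD0 : ∀ i n ω, G₂ i n ω ≤ G₁ i n ω := fun i n ω =>
    Hi_mono (fun y => (gU_bd (hq0 i).le (hq1' i) _ y).2)
      (fun y => (gU_bd (hq0 i).le (hqb i) _ y).1) (hgg i n) ω
  have hgap : ∀ i n ω, q i * (pv (ω ∉ V (C₁ n ∩ C₂ n)) * G₁ i n ω) ≤ G₁ i n ω - G₂ i n ω := by
    intro i n ω
    by_cases h : ω ∉ V (C₁ n ∩ C₂ n)
    · rw [pv_true h, one_mul]
      have h1 : (1 - q i) * G₂ i n ω ≤ (1 - 2 * q i) * G₁ i n ω := by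
        refine Hi_gap (fun y => (gU_bd (hq0 i).le (hq1' i) _ y).1)
          (fun y => (gU_bd (hq0 i).le (hq1' i) _ y).2)
          (fun y => (gU_bd (hq0 i).le (hqb i) _ y).1) (hgg i n) (by linarith [hq2 i])
          (D := C₁ n ∩ C₂ n) (fun y hy => ?_) h
        rw [e1, e2, pv_true hy.1, pv_true hy.2, 
          pv_true (show y ∈ C₁ n ∪ C₂ n from Or.inl hy.1)]
        apply le_of_eq
        ring
      have h2 := hD0 i n ω
      have h3 := hq0 i
      nlinarith
    · rw [pv_false h, zero_mul, mul_zero]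
      linarith [hD0 i n ω]
  -- almost sure convergence
  have c1 : ∀ i, ∀ᵐ ω ∂(PP ν y₀), CvR fun n => G₁ i n ω := fun i =>
    conv_bou hBou (hq0 i).le (hq1 i) hS hA hB hAf hBf a b
  have c2 : ∀ i, ∀ᵐ ω ∂(PP ν y₀), CvR fun n => G₂ i n ω := fun i =>
    conv_Hi (hq0 i).le (hqb i) hS hAab hAabf
  have i1 : ∀ i n, ∫ ω, G₁ i n ω ∂(PP ν y₀) = Real.exp (-(q i * u n)) := by
    intro i n
    have := int_Hi (y₀ := y₀) (m := 1) (hq0 i).le (hq1' i) (U := fun _ => C₁ n ∪ C₂ n)
      (fun _ => (hC₁ n).union (hC₂ n)) (fun _ => huf n)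
    rw [Finset.univ_unique, Finset.sum_singleton] at this
    exact this
  have i2 : ∀ i n, ∫ ω, G₂ i n ω ∂(PP ν y₀) = Real.exp (-(q i * s)) := by
    intro i n
    have := int_Hi (y₀ := y₀) (m := b) (hq0 i).le (hqb i) (U := Cs S (Aab A B a b) n)
      (fun j => Cs_meas hS.measurable hAab n j) (fun j => by
        rw [Cs_fin hS hAab]
        exact hAabf j)
    rw [sum_ab (fun D => (ρ D).toReal) (by simp) S A B ha hab n] at this
    rw [this]
    congr 3
    show (ρ (C₁ n)).toReal + (ρ (C₂ n)).toReal = _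
    rw [m₁, m₂]
  have I1 : ∀ i n, Integrable (G₁ i n) (PP ν y₀) := fun i n =>
    Integrable.of_bound (M1 i n).aestronglyMeasurable 1 (Eventually.of_forall fun ω => by
      rw [Real.norm_of_nonneg (b1 i n ω).1]
      exact (b1 i n ω).2)
  have I2 : ∀ i n, Integrable (G₂ i n) (PP ν y₀) := fun i n =>
    Integrable.of_bound (M2 i n).aestronglyMeasurable 1 (Eventually.of_forall fun ω => by
      rw [Real.norm_of_nonneg (b2 i n ω).1]
      exact (b2 i n ω).2)
  have d0 : ∀ i, ∀ᵐ ω ∂(PP ν y₀), Tendsto (Av fun n => G₁ i n ω - G₂ i n ω) atTop (𝓝 0) := by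
    intro i
    obtain ⟨L, hLi, hL0, hL, hLint⟩ := lim_int (P := PP ν y₀)
      (F := fun n ω => G₁ i n ω - G₂ i n ω) (fun n => (M1 i n).sub (M2 i n))
      (fun n ω => by linarith [hD0 i n ω]) (fun n ω => by linarith [(b1 i n ω).2, (b2 i n ω).1]) (by
        filter_upwards [c1 i, c2 i] with ω h1 h2
        obtain ⟨l1, h1⟩ := h1
        obtain ⟨l2, h2⟩ := h2
        exact ⟨l1 - l2, (h1.sub h2).congr fun N => (Av_sub _ _ N).symm⟩)
    have h3 : Tendsto (Av fun n => ∫ ω, (G₁ i n ω - G₂ i n ω) ∂(PP ν y₀)) atTop (𝓝 0) := by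
      refine squeeze_zero (fun N => Av_nonneg (fun n => integral_nonneg fun ω => ?_) N)
        (fun N => Av_mono (fun n => ?_) N) hnull
      · show 0 ≤ G₁ i n ω - G₂ i n ω
        linarith [hD0 i n ω]
      · rw [integral_sub (I1 i n) (I2 i n), i1, i2]
        refine (exp_diff (mul_nonneg (hq0 i).le (hu0 n)) ?_).trans ?_
        · exact mul_le_mul_of_nonneg_left (by linarith [hu n, hc0 n]) (hq0 i).le
        · show q i * s - q i * u n ≤ c n
          have h4 := hu n
          have h5 : q i * s - q i * u n = q i * c n := by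
            rw [← h4]
            ring
          rw [h5]
          exact mul_le_of_le_one_left (hc0 n) (hq1 i)
    have h4 := tendsto_nhds_unique hLint h3
    have h5 := (integral_eq_zero_iff_of_nonneg_ae hL0 hLi).mp h4
    filter_upwards [hL, h5] with ω h6 h7
    rw [h7] at h6
    exact h6
  have t0 : ∀ i, ∃ L : Om Y → ℝ, Integrable L (PP ν y₀) ∧ (0 ≤ᵐ[PP ν y₀] L) ∧
      (∀ᵐ ω ∂(PP ν y₀), Tendsto (Av fun n => 1 - G₁ i n ω) atTop (𝓝 (L ω))) ∧
      ∫ ω, L ω ∂(PP ν y₀) ≤ q i * s := by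
    intro i
    obtain ⟨L, hLi, hL0, hL, hLint⟩ := lim_int (P := PP ν y₀)
      (F := fun n ω => 1 - G₁ i n ω) (fun n => measurable_const.sub (M1 i n))
      (fun n ω => by linarith [(b1 i n ω).2]) (fun n ω => by linarith [(b1 i n ω).1]) (by
        filter_upwards [c1 i] with ω h1
        obtain ⟨l1, h1⟩ := h1
        have h2 : Tendsto (Av fun _ => (1 : ℝ)) atTop (𝓝 1) := by
          refine tendsto_const_nhds.congr' ?_
          filter_upwards [eventually_ge_atTop 1] with N hN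
          unfold Av
          have : (N : ℝ) ≠ 0 := by
            have : N ≠ 0 := by omega
            exact_mod_cast this
          simp [this]
        exact ⟨1 - l1, (h2.sub h1).congr fun N => (Av_sub _ _ N).symm⟩)
    refine ⟨L, hLi, hL0, hL, le_of_tendsto' hLint fun N => ?_⟩
    have h3 : ∀ n, ∫ ω, (1 - G₁ i n ω) ∂(PP ν y₀) ≤ q i * s := by
      intro n
      rw [integral_sub (integrable_const _) (I1 i n), i1]
      have h4 := Real.add_one_le_exp (-(q i * u n))
      have h5 : q i * u n ≤ q i * s :=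
        mul_le_mul_of_nonneg_left (by linarith [hu n, hc0 n]) (hq0 i).le
      rw [integral_const, probReal_univ, one_smul]
      linarith
    unfold Av
    rcases Nat.eq_zero_or_pos N with h | h
    · subst h
      simp only [Nat.cast_zero, inv_zero, zero_mul]
      exact mul_nonneg (hq0 i).le hs
    · rw [inv_mul_le_iff₀ (by exact_mod_cast h)]
      refine (Finset.sum_le_sum fun n _ => h3 n).trans ?_
      rw [Finset.sum_const, Finset.card_range, nsmul_eq_mul]
  choose L hLi hL0 hL hLs using t0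
  have hbad : ∀ k : ℕ, ∀ᵐ ω ∂(PP ν y₀), ∃ i, L i ω < 1 / ((k : ℝ) + 1) := by
    intro k
    have hε : (0 : ℝ) < 1 / ((k : ℝ) + 1) := by positivity
    rw [ae_iff]
    simp only [not_exists, not_lt]
    have h1 : ∀ i, 1 / ((k : ℝ) + 1) * (PP ν y₀).real {ω | ∀ i, 1 / ((k : ℝ) + 1) ≤ L i ω} ≤
        q i * s := by
      intro i
      refine le_trans ?_ ((mul_meas_ge_le_integral_of_nonneg (hL0 i) (hLi i)
        (1 / ((k : ℝ) + 1))).trans (hLs i))
      refine mul_le_mul_of_nonneg_left ?_ hε.le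
      exact measureReal_mono fun ω hω => hω i
    have h2 : 1 / ((k : ℝ) + 1) * (PP ν y₀).real {ω | ∀ i, 1 / ((k : ℝ) + 1) ≤ L i ω} ≤ 0 := by
      refine ge_of_tendsto' (x := atTop) ?_ h1
      have := hqt.mul_const s
      rwa [zero_mul] at this
    have h3 : (PP ν y₀).real {ω | ∀ i, 1 / ((k : ℝ) + 1) ≤ L i ω} = 0 := by
      refine le_antisymm ?_ measureReal_nonneg
      by_contra h4
      rw [not_le] at h4
      exact absurd h2 (not_le.mpr (mul_pos hε h4))
    exact (measureReal_eq_zero_iff).mp h3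
  filter_upwards [ae_all_iff.mpr d0, ae_all_iff.mpr hL, ae_all_iff.mpr hbad] with ω hd hl hk
  rw [Metric.tendsto_atTop]
  intro ε hε
  obtain ⟨k, hk'⟩ := exists_nat_one_div_lt hε
  obtain ⟨i, hi⟩ := hk k
  have h1 : Tendsto (fun N => (q i)⁻¹ * Av (fun n => G₁ i n ω - G₂ i n ω) N +
      Av (fun n => 1 - G₁ i n ω) N) atTop (𝓝 ((q i)⁻¹ * 0 + L i ω)) :=
    ((hd i).const_mul _).add (hl i)
  rw [mul_zero, zero_add] at h1
  obtain ⟨N₀, hN₀⟩ := eventually_atTop.mp ((tendsto_order.mp h1).2 ε (hi.trans hk'))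
  refine ⟨N₀, fun N hN => ?_⟩
  rw [Real.dist_eq, sub_zero, abs_of_nonneg (Av_nonneg (fun n => pv_nonneg _) N)]
  refine lt_of_le_of_lt ?_ (hN₀ N hN)
  have h2 : ∀ n, pv (ω ∉ V (C₁ n ∩ C₂ n)) ≤ (q i)⁻¹ * (G₁ i n ω - G₂ i n ω) + (1 - G₁ i n ω) := by
    intro n
    have h3 := hgap i n ω
    have h4 : pv (ω ∉ V (C₁ n ∩ C₂ n)) * G₁ i n ω ≤ (q i)⁻¹ * (G₁ i n ω - G₂ i n ω) := by
      rw [le_inv_mul_iff₀ (hq0 i)]
      exact h3
    have h5 := pv_le (ω ∉ V (C₁ n ∩ C₂ n))
    have h6 := (b1 i n ω).2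
    have h7 := (b1 i n ω).1
    have h8 := pv_nonneg (ω ∉ V (C₁ n ∩ C₂ n))
    nlinarith
  refine (Av_mono h2 N).trans (le_of_eq ?_)
  rw [Av_add]
  congr 1
  unfold Av
  rw [← Finset.mul_sum]
  ring

end Pool.Agent.TH739.Poi

end

end

/-! ## An upper tail bound for sums over the points of a Poisson process -/

section

open Filter Topology MeasureTheory ProbabilityTheory Set
open scoped ENNReal NNReal

noncomputable section

namespace Pool.Agent.TH739.Poi

/-- integral of a finite product over an infinite product space -/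
theorem lint_prod {ι : Type*} {X : ι → Type*} [∀ i, MeasurableSpace (X i)]
    (μ : ∀ i, Measure (X i)) [∀ i, IsProbabilityMeasure (μ i)] (s : Finset ι)
    (f : ∀ i, X i → ℝ≥0∞) (hf : ∀ i, Measurable (f i)) :
    ∫⁻ x, ∏ i ∈ s, f i (x i) ∂(Measure.infinitePi μ) = ∏ i ∈ s, ∫⁻ y, f i y ∂(μ i) := by
  have h1 : iIndepFun (fun i (x : ∀ i, X i) => f i (x i)) (Measure.infinitePi μ) :=
    iIndepFun_infinitePi (X := fun i => f i) hf
  rw [lintegral_prod_eq_prod_lintegral_of_indepFun s _ h1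
    fun i => (hf i).comp (measurable_pi_apply i)]
  refine Finset.prod_congr rfl fun i _ => ?_
  exact (measurePreserving_eval_infinitePi μ i).lintegral_comp (hf i)

variable {Y : Type*} [MeasurableSpace Y] {ν : ℕ → Measure Y} {y₀ : Y}

theorem lam_lpr [∀ k, IsFiniteMeasure (ν k)] (k : ℕ) (f : Y → ℝ≥0∞) :
    (lam ν k : ℝ≥0∞) * ∫⁻ y, f y ∂(pr ν y₀ k) = ∫⁻ y, f y ∂(ν k) := by
  unfold pr lam
  split_ifs with h
  · rw [h]
    simp
  · have h1 : ν k univ ≠ 0 := fun h2 => h (Measure.measure_univ_eq_zero.mp h2)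
    rw [lintegral_smul_measure, smul_eq_mul, ← mul_assoc, ENNReal.coe_toNNReal (measure_ne_top _ _),
      ENNReal.mul_inv_cancel h1 (measure_ne_top _ _), one_mul]

/-- the product of the values at the points of a block -/
def hbE (g : Y → ℝ≥0∞) (b : ℕ × (ℕ → Y)) : ℝ≥0∞ := ∏ l ∈ Finset.range b.1, g (b.2 l)

theorem hbE_meas {g : Y → ℝ≥0∞} (hg : Measurable g) : Measurable (hbE g) := by
  unfold hbE
  refine measurable_from_prod_countable_right fun n => ?_
  show Measurable fun y : ℕ → Y => ∏ l ∈ Finset.range n, g (y l)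
  refine Finset.measurable_fun_prod _ fun l _ => ?_
  exact hg.comp (measurable_pi_apply l)

theorem lint_hbE [∀ k, IsFiniteMeasure (ν k)] (k : ℕ) {h : Y → ℝ≥0∞} (hh : Measurable h)
    (hf : ∫⁻ y, h y ∂(ν k) ≠ ∞) :
    ∫⁻ b, hbE (fun y => 1 + h y) b ∂(blk ν y₀ k) =
      ENNReal.ofReal (Real.exp (∫⁻ y, h y ∂(ν k)).toReal) := by
  have hm : Measurable fun y => 1 + h y := measurable_const.add hh
  unfold blk
  rw [lintegral_prod _ (hbE_meas hm).aemeasurable]
  set c : ℝ≥0∞ := ∫⁻ y, (1 + h y) ∂(pr ν y₀ k) with hc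
  have e1 : ∀ n : ℕ, ∫⁻ y, hbE (fun y => 1 + h y) (n, y)
      ∂(Measure.infinitePi fun _ : ℕ => pr ν y₀ k) = c ^ n := by
    intro n
    unfold hbE
    simp only
    rw [lint_prod (fun _ : ℕ => pr ν y₀ k) (Finset.range n) (fun _ y => 1 + h y) fun _ => hm]
    simp [hc]
  simp only [e1]
  rw [poissonMeasure, lintegral_sum_measure]
  set r : ℝ := (lam ν k : ℝ) with hr
  have hr0 : 0 ≤ r := NNReal.coe_nonneg _
  have hlc : (lam ν k : ℝ≥0∞) * c = lam ν k + ∫⁻ y, h y ∂(ν k) := by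
    rw [lam_lpr, lintegral_add_left measurable_const, lintegral_const, one_mul]
    congr 1
    rw [lam, ENNReal.coe_toNNReal (measure_ne_top _ _)]
  set d : ℝ := (∫⁻ y, h y ∂(ν k)).toReal with hd
  have hd0 : 0 ≤ d := ENNReal.toReal_nonneg
  have hlc' : (lam ν k : ℝ≥0∞) * c = ENNReal.ofReal (r + d) := by
    rw [hlc, ENNReal.ofReal_add hr0 hd0, hd, ENNReal.ofReal_toReal hf, hr,
      ENNReal.ofReal_coe_nnreal]
  have e2 : ∀ n : ℕ, ∫⁻ a, c ^ a ∂(ENNReal.ofReal (Real.exp (-r) * r ^ n / (n.factorial : ℝ)) •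
      Measure.dirac n) = ENNReal.ofReal (Real.exp (-r) * ((r + d) ^ n / (n.factorial : ℝ))) := by
    intro n
    rw [lintegral_smul_measure, lintegral_dirac, smul_eq_mul]
    have e3 : Real.exp (-r) * r ^ n / (n.factorial : ℝ) =
        Real.exp (-r) / (n.factorial : ℝ) * r ^ n := by ring
    rw [e3, ENNReal.ofReal_mul (by positivity), mul_assoc, ENNReal.ofReal_pow hr0, hr,
      ENNReal.ofReal_coe_nnreal, ← mul_pow, hlc', ← ENNReal.ofReal_pow (by positivity),
      ← ENNReal.ofReal_mul (by positivity)]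
    congr 1
    ring
  simp only [e2]
  rw [← ENNReal.ofReal_tsum_of_nonneg (fun n => by positivity), tsum_mul_left]
  · have e3 : ∑' n : ℕ, (r + d) ^ n / (n.factorial : ℝ) = Real.exp (r + d) := by
      rw [Real.exp_eq_exp_ℝ, NormedSpace.exp_eq_tsum_div]
    rw [e3, ← Real.exp_add]
    congr 2
    ring
  · exact (Real.summable_pow_div_factorial (r + d)).mul_left _

theorem lint_HKE [∀ k, IsFiniteMeasure (ν k)] (K : ℕ) {h : Y → ℝ≥0∞} (hh : Measurable h)
    (hf : ∫⁻ y, h y ∂(Measure.sum ν) ≤ 1) :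
    ∫⁻ ω, ∏ k ∈ Finset.range K, hbE (fun y => 1 + h y) (ω k) ∂(PP ν y₀) ≤
      ENNReal.ofReal (Real.exp 1) := by
  have hs : ∑' k, ∫⁻ y, h y ∂(ν k) ≤ 1 := by
    rw [← lintegral_sum_measure]
    exact hf
  have hk : ∀ k, ∫⁻ y, h y ∂(ν k) ≠ ∞ := fun k =>
    ne_top_of_le_ne_top ENNReal.one_ne_top ((ENNReal.le_tsum k).trans hs)
  unfold PP
  rw [lint_prod (fun k => blk ν y₀ k) (Finset.range K) (fun _ => hbE fun y => 1 + h y)
    fun _ => hbE_meas (measurable_const.add hh)]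
  simp only [lint_hbE _ hh (hk _)]
  rw [← ENNReal.ofReal_prod_of_nonneg fun _ _ => (Real.exp_pos _).le, ← Real.exp_sum]
  refine ENNReal.ofReal_le_ofReal (Real.exp_le_exp.mpr ?_)
  rw [← ENNReal.toReal_sum fun k _ => hk k]
  exact ENNReal.toReal_le_of_le_ofReal zero_le_one (by
    rw [ENNReal.ofReal_one]
    exact (ENNReal.sum_le_tsum _).trans hs)

/-- the sum over the points of the first blocks -/
def SK (K : ℕ) (φ : Y → ℝ) (ω : Om Y) : ℝ :=
  ∑ k ∈ Finset.range K, ∑ l ∈ Finset.range (ω k).1, φ ((ω k).2 l)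

theorem SK_meas (K : ℕ) {φ : Y → ℝ} (hφ : Measurable φ) : Measurable (SK K φ) := by
  unfold SK
  refine Finset.measurable_fun_sum _ fun k _ => ?_
  have h1 : Measurable fun b : ℕ × (ℕ → Y) => ∑ l ∈ Finset.range b.1, φ (b.2 l) := by
    refine measurable_from_prod_countable_right fun n => ?_
    show Measurable fun y : ℕ → Y => ∑ l ∈ Finset.range n, φ (y l)
    exact Finset.measurable_fun_sum _ fun l _ => hφ.comp (measurable_pi_apply l)
  exact h1.comp (measurable_pi_apply k)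

omit [MeasurableSpace Y] in
theorem SK_mono {φ : Y → ℝ} (h0 : ∀ y, 0 ≤ φ y) (ω : Om Y) : Monotone fun K => SK K φ ω := by
  refine monotone_nat_of_le_succ fun K => ?_
  show SK K φ ω ≤ ∑ k ∈ Finset.range (K + 1), _
  rw [Finset.sum_range_succ]
  exact le_add_of_nonneg_right (Finset.sum_nonneg fun _ _ => h0 _)

/-- **The upper tail.** -/
theorem upper_tail [∀ k, IsFiniteMeasure (ν k)] {φ : Y → ℝ} (hφ : Measurable φ)
    (h0 : ∀ y, 0 ≤ φ y) {ε : ℝ} (hε : 0 < ε) (h1 : ∀ y, φ y ≤ ε) {M : ℝ} (hM : 0 < M)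
    (hint : ∫⁻ y, ENNReal.ofReal (φ y) ∂(Measure.sum ν) ≤ ENNReal.ofReal M) (p : ℕ) :
    PP ν y₀ {ω | ∃ K, p * ε ≤ SK K φ ω} ≤ ENNReal.ofReal (Real.exp 1 * (M / ε) ^ p) := by
  set B : ℝ := 1 + ε / M with hB
  have hB1 : 1 ≤ B := by
    rw [hB]
    have : 0 < ε / M := by positivity
    linarith
  have hB0 : 0 < B := by linarith
  let h : Y → ℝ≥0∞ := fun y => ENNReal.ofReal (B ^ (φ y / ε) - 1)
  have hh : Measurable h := by
    refine ENNReal.measurable_ofReal.comp (Measurable.sub_const ?_ 1)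
    exact measurable_const.pow (hφ.div_const ε)
  have hpow1 : ∀ y, 1 ≤ B ^ (φ y / ε) := fun y =>
    Real.one_le_rpow hB1 (div_nonneg (h0 y) hε.le)
  have hh1 : ∀ y, 1 + h y = ENNReal.ofReal (B ^ (φ y / ε)) := by
    intro y
    show 1 + ENNReal.ofReal _ = _
    rw [← ENNReal.ofReal_one, ← ENNReal.ofReal_add zero_le_one (by linarith [hpow1 y])]
    congr 1
    ring
  have hbern : ∀ y, B ^ (φ y / ε) - 1 ≤ φ y / M := by
    intro y
    have h2 := rpow_one_add_le_one_add_mul_self (s := ε / M) (p := φ y / ε)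
      (by have : 0 < ε / M := by positivity
          linarith) (div_nonneg (h0 y) hε.le) ((div_le_one hε).mpr (h1 y))
    rw [← hB] at h2
    have h3 : φ y / ε * (ε / M) = φ y / M := by
      field_simp
    rw [h3] at h2
    linarith
  have hhi : ∫⁻ y, h y ∂(Measure.sum ν) ≤ 1 := by
    have h2 : ∫⁻ y, h y ∂(Measure.sum ν) ≤
        ∫⁻ y, ENNReal.ofReal (φ y) * ENNReal.ofReal M⁻¹ ∂(Measure.sum ν) := by
      refine lintegral_mono fun y => ?_
      show ENNReal.ofReal _ ≤ _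
      rw [← ENNReal.ofReal_mul (h0 y)]
      exact ENNReal.ofReal_le_ofReal (hbern y)
    refine h2.trans ?_
    have hm : Measurable fun y => ENNReal.ofReal (φ y) := ENNReal.measurable_ofReal.comp hφ
    rw [lintegral_mul_const _ hm]
    refine (mul_le_mul_left hint _).trans ?_
    rw [← ENNReal.ofReal_mul hM.le, mul_inv_cancel₀ hM.ne', ENNReal.ofReal_one]
  have hmA : ∀ K, MeasurableSet {ω : Om Y | p * ε ≤ SK K φ ω} := fun K =>
    measurableSet_le measurable_const (SK_meas K hφ)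
  have hK : ∀ K, PP ν y₀ {ω | p * ε ≤ SK K φ ω} ≤ ENNReal.ofReal (Real.exp 1 * (M / ε) ^ p) := by
    intro K
    have e1 : ∀ ω : Om Y, ∏ k ∈ Finset.range K, hbE (fun y => 1 + h y) (ω k) =
        ENNReal.ofReal (B ^ (SK K φ ω / ε)) := by
      intro ω
      unfold SK hbE
      simp only [hh1]
      rw [Finset.sum_div, Real.rpow_sum_of_pos hB0,
        ENNReal.ofReal_prod_of_nonneg fun _ _ => (Real.rpow_pos_of_pos hB0 _).le]
      refine Finset.prod_congr rfl fun k _ => ?_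
      rw [Finset.sum_div, Real.rpow_sum_of_pos hB0,
        ENNReal.ofReal_prod_of_nonneg fun _ _ => (Real.rpow_pos_of_pos hB0 _).le]
    have h2 := lint_HKE (y₀ := y₀) K hh hhi
    simp only [e1] at h2
    have h3 : ENNReal.ofReal (B ^ p) * PP ν y₀ {ω | p * ε ≤ SK K φ ω} ≤
        ENNReal.ofReal (Real.exp 1) := by
      refine le_trans ?_ h2
      have hsub : {ω : Om Y | p * ε ≤ SK K φ ω} ⊆
          {ω : Om Y | ENNReal.ofReal (B ^ p) ≤ ENNReal.ofReal (B ^ (SK K φ ω / ε))} := by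
        intro ω hω
        refine ENNReal.ofReal_le_ofReal ?_
        rw [← Real.rpow_natCast]
        refine Real.rpow_le_rpow_of_exponent_le hB1 ?_
        rw [le_div_iff₀ hε]
        exact hω
      refine (mul_le_mul_right (measure_mono hsub) _).trans ?_
      refine mul_meas_ge_le_lintegral ?_ _
      refine ENNReal.measurable_ofReal.comp ?_
      exact measurable_const.pow ((SK_meas K hφ).div_const ε)
    have hBp : 0 < B ^ p := by positivity
    have h4 : PP ν y₀ {ω | p * ε ≤ SK K φ ω} ≤ ENNReal.ofReal (Real.exp 1) /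
        ENNReal.ofReal (B ^ p) := by
      rw [ENNReal.le_div_iff_mul_le (Or.inl (by simpa using hBp)) (Or.inl ENNReal.ofReal_ne_top),
        mul_comm]
      exact h3
    refine h4.trans ?_
    rw [← ENNReal.ofReal_div_of_pos hBp]
    refine ENNReal.ofReal_le_ofReal ?_
    rw [div_le_iff₀ hBp, mul_assoc, ← mul_pow]
    have h5 : 1 ≤ M / ε * B := by
      have : M / ε * B = M / ε + 1 := by
        rw [hB]
        field_simp
      rw [this]
      have : 0 < M / ε := by positivity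
      linarith
    exact le_mul_of_one_le_right (Real.exp_pos _).le (one_le_pow₀ h5)
  have h6 : {ω : Om Y | ∃ K, p * ε ≤ SK K φ ω} = ⋃ K, {ω | p * ε ≤ SK K φ ω} := by
    ext ω
    simp
  rw [h6]
  have hmono : Monotone fun K => {ω : Om Y | p * ε ≤ SK K φ ω} :=
    fun K K' h ω hω => le_trans hω (SK_mono h0 ω h)
  rw [hmono.measure_iUnion]
  exact iSup_le hK

end Pool.Agent.TH739.Poi

end

end

/-! ## A maximal inequality for infinite measure preserving maps -/

section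

open Filter Topology MeasureTheory Set
open scoped ENNReal NNReal

noncomputable section

namespace Pool.Agent.TH739.Poi

open Pool.Agent.H165R3.BPE (Mx Mx_nonneg Mx_meas Mx_mono Mx_sum)

variable {Y : Type*} [MeasurableSpace Y] {ρ : Measure Y} {R : Y → Y}

theorem Mx_int (hR : MeasurePreserving R ρ ρ) {φ : Y → ℝ} (hφ : Measurable φ)
    (hi : Integrable φ ρ) (n : ℕ) : Integrable (Mx R φ n) ρ := by
  induction n with
  | zero => exact integrable_zero _ _ _
  | succ n ih =>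
    refine Integrable.mono' (hi.norm.add (hR.integrable_comp_of_integrable ih))
      (Mx_meas hR.measurable hφ (n + 1)).aestronglyMeasurable (Eventually.of_forall fun x => ?_)
    rw [Real.norm_of_nonneg (Mx_nonneg R φ (n + 1) x)]
    show max 0 (φ x + Mx R φ n (R x)) ≤ ‖φ x‖ + Mx R φ n (R x)
    have h1 := Mx_nonneg R φ n (R x)
    have h2 := norm_nonneg (φ x)
    have h3 := Real.le_norm_self (φ x)
    exact max_le (by linarith) (by linarith)

/-- The maximal ergodic theorem. -/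
theorem garsia (hR : MeasurePreserving R ρ ρ) {φ : Y → ℝ} (hφ : Measurable φ)
    (hi : Integrable φ ρ) (n : ℕ) : 0 ≤ ∫ x in {x | 0 < Mx R φ (n + 1) x}, φ x ∂ρ := by
  set E := {x | 0 < Mx R φ (n + 1) x} with hE
  have hEm : MeasurableSet E := measurableSet_lt measurable_const (Mx_meas hR.measurable hφ _)
  have i1 := Mx_int hR hφ hi (n + 1)
  have i0 := Mx_int hR hφ hi n
  have i2 : Integrable (fun x => Mx R φ n (R x)) ρ := hR.integrable_comp_of_integrable i0
  have h1 : ∫ x in E, φ x ∂ρ = ∫ x in E, (Mx R φ (n + 1) x - Mx R φ n (R x)) ∂ρ := by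
    refine setIntegral_congr_fun hEm fun x hx => ?_
    have hx' : 0 < max 0 (φ x + Mx R φ n (R x)) := hx
    show φ x = max 0 (φ x + Mx R φ n (R x)) - Mx R φ n (R x)
    rcases lt_max_iff.mp hx' with h | h
    · exact absurd h (lt_irrefl _)
    · rw [max_eq_right h.le]
      ring
  rw [h1, integral_sub i1.integrableOn i2.integrableOn]
  have h2 : ∫ x in E, Mx R φ (n + 1) x ∂ρ = ∫ x, Mx R φ (n + 1) x ∂ρ := by
    refine setIntegral_eq_integral_of_forall_compl_eq_zero fun x hx => ?_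
    exact le_antisymm (not_lt.mp hx) (Mx_nonneg R φ (n + 1) x)
  have h3 : ∫ x in E, Mx R φ n (R x) ∂ρ ≤ ∫ x, Mx R φ n (R x) ∂ρ :=
    setIntegral_le_integral i2 (Eventually.of_forall fun x => Mx_nonneg R φ n (R x))
  have h4 : ∫ x, Mx R φ n (R x) ∂ρ = ∫ x, Mx R φ n x ∂ρ := by
    have h5 := integral_map (μ := ρ) (φ := R) (f := Mx R φ n) hR.measurable.aemeasurable
      (Mx_meas hR.measurable hφ n).aestronglyMeasurable
    rw [hR.map_eq] at h5
    exact h5.symm
  have h5 : ∫ x, Mx R φ n x ∂ρ ≤ ∫ x, Mx R φ (n + 1) x ∂ρ :=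
    integral_mono i0 i1 fun x => Mx_mono R φ n x
  linarith

/-- The maximal inequality. -/
theorem max_ineq (hR : MeasurePreserving R ρ ρ) {h : Y → ℝ} (hh : Measurable h)
    (hi : Integrable h ρ) (h0 : ∀ y, 0 ≤ h y) {ε : ℝ} (hε : 0 < ε) :
    ρ {y | ∃ k : ℕ, ε * k < ∑ i ∈ Finset.range k, h (R^[i] y)} ≤
      ENNReal.ofReal ((∫ y, h y ∂ρ) / ε) := by
  let G : ℕ → Set Y := fun n => {y | ∃ k : ℕ, k ≤ n ∧ ε * k < ∑ i ∈ Finset.range k, h (R^[i] y)}
  have hSm : ∀ k : ℕ, Measurable fun y => ∑ i ∈ Finset.range k, h (R^[i] y) := fun k =>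
    Finset.measurable_fun_sum _ fun i _ => hh.comp (hR.measurable.iterate i)
  have hSi : ∀ k : ℕ, Integrable (fun y => ∑ i ∈ Finset.range k, h (R^[i] y)) ρ := fun k =>
    integrable_finsetSum _ fun i _ => (hR.iterate i).integrable_comp_of_integrable hi
  have hGm : ∀ n, MeasurableSet (G n) := by
    intro n
    have : G n = ⋃ k ∈ Finset.range (n + 1),
        {y | ε * k < ∑ i ∈ Finset.range k, h (R^[i] y)} := by
      ext y
      simp only [G, mem_ofPred_eq, mem_iUnion, Finset.mem_range, exists_prop, Nat.lt_succ_iff]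
    rw [this]
    exact Finset.measurableSet_biUnion _ fun k _ => measurableSet_lt measurable_const (hSm k)
  have hGf : ∀ n, ρ (G n) < ∞ := by
    intro n
    refine lt_of_le_of_lt (measure_mono ?_) ((hSi n).measure_ge_lt_top hε)
    rintro y ⟨k, hk, hy⟩
    show ε ≤ ∑ i ∈ Finset.range n, h (R^[i] y)
    have hk0 : k ≠ 0 := by
      rintro rfl
      simp at hy
    have hk1 : (1 : ℝ) ≤ k := by
      have : 1 ≤ k := by omega
      exact_mod_cast this
    have h1 : ∑ i ∈ Finset.range k, h (R^[i] y) ≤ ∑ i ∈ Finset.range n, h (R^[i] y) :=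
      Finset.sum_le_sum_of_subset_of_nonneg (Finset.range_subset_range.mpr hk) fun _ _ _ => h0 _
    nlinarith
  have hGb : ∀ n, ρ (G n) ≤ ENNReal.ofReal ((∫ y, h y ∂ρ) / ε) := by
    intro n
    let φ : Y → ℝ := fun y => h y - ε * (G n).indicator 1 y
    have hind : Measurable ((G n).indicator (1 : Y → ℝ)) := measurable_one.indicator (hGm n)
    have hindi : Integrable ((G n).indicator (1 : Y → ℝ)) ρ :=
      (integrable_indicator_iff (hGm n)).mpr (integrableOn_const (hGf n).ne)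
    have hφ : Measurable φ := hh.sub (hind.const_mul ε)
    have hφi : Integrable φ ρ := hi.sub (hindi.const_mul ε)
    have hga := garsia hR hφ hφi n
    set E := {x | 0 < Mx R φ (n + 1) x} with hE
    have hEm : MeasurableSet E := measurableSet_lt measurable_const (Mx_meas hR.measurable hφ _)
    have hGE : G n ⊆ E := by
      rintro y ⟨k, hk, hy⟩
      show 0 < Mx R φ (n + 1) y
      have hmono : Monotone fun n => Mx R φ n y := monotone_nat_of_le_succ fun n => Mx_mono R φ n y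
      refine lt_of_lt_of_le ?_ (hmono (show k ≤ n + 1 by omega))
      refine lt_of_lt_of_le ?_ (Mx_sum R φ k y)
      have h1 : ∑ i ∈ Finset.range k, φ (R^[i] y) = ∑ i ∈ Finset.range k, h (R^[i] y) -
          ε * ∑ i ∈ Finset.range k, (G n).indicator (1 : Y → ℝ) (R^[i] y) := by
        rw [Finset.mul_sum, ← Finset.sum_sub_distrib]
      have h2 : ∑ i ∈ Finset.range k, (G n).indicator (1 : Y → ℝ) (R^[i] y) ≤ k := by
        refine (Finset.sum_le_sum (g := fun _ => (1 : ℝ)) fun i _ => ?_).trans (by simp)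
        by_cases h3 : R^[i] y ∈ G n
        · rw [indicator_of_mem h3]
          simp
        · rw [indicator_of_notMem h3]
          exact zero_le_one
      rw [h1]
      have h3 := mul_le_mul_of_nonneg_left h2 hε.le
      linarith
    have h1 : ∫ x in E, φ x ∂ρ = ∫ x in E, h x ∂ρ - ε * ρ.real (G n) := by
      have e1 : ∫ x in E, φ x ∂ρ = ∫ x in E, h x ∂ρ -
          ∫ x in E, ε * (G n).indicator (1 : Y → ℝ) x ∂ρ :=
        integral_sub hi.integrableOn (hindi.const_mul ε).integrableOn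
      rw [e1, integral_const_mul, integral_indicator_one (hGm n), measureReal_restrict_apply (hGm n),
        inter_eq_left.mpr hGE]
    have h2 : ∫ x in E, h x ∂ρ ≤ ∫ x, h x ∂ρ :=
      setIntegral_le_integral hi (Eventually.of_forall h0)
    rw [← ofReal_measureReal (hGf n).ne]
    refine ENNReal.ofReal_le_ofReal ?_
    rw [le_div_iff₀ hε]
    linarith
  have hU : {y | ∃ k : ℕ, ε * k < ∑ i ∈ Finset.range k, h (R^[i] y)} = ⋃ n, G n := by
    ext y
    simp only [G, mem_ofPred_eq, mem_iUnion]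
    constructor
    · rintro ⟨k, hk⟩
      exact ⟨k, k, le_rfl, hk⟩
    · rintro ⟨n, k, _, hk⟩
      exact ⟨k, hk⟩
  have hmono : Monotone G := fun n n' hn y ⟨k, hk, hy⟩ => ⟨k, hk.trans hn, hy⟩
  rw [hU, hmono.measure_iUnion]
  exact iSup_le hGb

/-- The square of a sum. -/
theorem sq_sum_le {a : ℕ → ℝ} (h0 : ∀ n, 0 ≤ a n) (N : ℕ) :
    (∑ i ∈ Finset.range N, a i) ^ 2 ≤
      2 * ∑ i ∈ Finset.range N, ∑ d ∈ Finset.range N, a i * a (i + d) := by
  have h1 : (∑ i ∈ Finset.range N, a i) ^ 2 ≤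
      2 * ∑ i ∈ Finset.range N, ∑ d ∈ Finset.range (N - i), a i * a (i + d) := by
    induction N with
    | zero => simp
    | succ N ih =>
      have e1 : ∑ i ∈ Finset.range (N + 1), ∑ d ∈ Finset.range (N + 1 - i), a i * a (i + d) =
          ∑ i ∈ Finset.range N, (∑ d ∈ Finset.range (N - i), a i * a (i + d) + a i * a N) +
            a N * a N := by
        rw [Finset.sum_range_succ]
        congr 1
        · refine Finset.sum_congr rfl fun i hi => ?_
          rw [Finset.mem_range] at hi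
          have e2 : N + 1 - i = (N - i) + 1 := by omega
          have e3 : i + (N - i) = N := by omega
          rw [e2, Finset.sum_range_succ, e3]
        · have e2 : N + 1 - N = 1 := by omega
          rw [e2, Finset.sum_range_one, add_zero]
      rw [e1, Finset.sum_add_distrib, ← Finset.sum_mul, Finset.sum_range_succ]
      have h2 := h0 N
      nlinarith [mul_nonneg h2 h2]
  refine h1.trans ?_
  refine mul_le_mul_of_nonneg_left (Finset.sum_le_sum fun i _ => ?_) (by norm_num)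
  exact Finset.sum_le_sum_of_subset_of_nonneg
    (Finset.range_subset_range.mpr (Nat.sub_le N i)) fun _ _ _ => mul_nonneg (h0 _) (h0 _)

theorem pv_int {D : Set Y} (hD : MeasurableSet D) (hf : ρ D ≠ ∞) :
    Integrable (fun y => pv (y ∈ D)) ρ ∧ ∫ y, pv (y ∈ D) ∂ρ = (ρ D).toReal := by
  have e : (fun y => pv (y ∈ D)) = D.indicator 1 := by
    funext y
    by_cases h : y ∈ D
    · rw [pv_true h, indicator_of_mem h]; rfl
    · rw [pv_false h, indicator_of_notMem h]
  rw [e]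
  refine ⟨(integrable_indicator_iff hD).mpr (integrableOn_const hf), ?_⟩
  rw [integral_indicator_one hD]
  rfl

theorem pv_mul (p q : Prop) : pv p * pv q = pv (p ∧ q) := by
  by_cases hp : p
  · by_cases hq : q
    · rw [pv_true hp, pv_true hq, pv_true ⟨hp, hq⟩, one_mul]
    · rw [pv_false hq, pv_false (p := p ∧ q) fun h => hq h.2, mul_zero]
  · rw [pv_false hp, pv_false (p := p ∧ q) fun h => hp h.1, zero_mul]

/-- A shift changes the sums only a little. -/
theorem shift_le {a : ℕ → ℝ} (h0 : ∀ n, 0 ≤ a n) (h1 : ∀ n, a n ≤ 1) (j N : ℕ) :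
    ∑ i ∈ Finset.range N, a i - j ≤ ∑ i ∈ Finset.range N, a (j + i) := by
  have e1 := Finset.sum_range_add a j N
  have e2 : ∑ i ∈ Finset.range N, a i ≤ ∑ i ∈ Finset.range (j + N), a i :=
    Finset.sum_le_sum_of_subset_of_nonneg (Finset.range_subset_range.mpr (Nat.le_add_left N j))
      fun _ _ _ => h0 _
  have e3 : ∑ i ∈ Finset.range j, a i ≤ j :=
    (Finset.sum_le_sum (g := fun _ => (1 : ℝ)) fun i _ => h1 i).trans (by simp)
  linarith

/-- Long frequent visits to a set of finite measure are rare. -/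
theorem max_set (hR : MeasurePreserving R ρ ρ) {F : Set Y} (hF : MeasurableSet F)
    (hFf : ρ F ≠ ∞) (hnull : Tendsto (Av fun d => (ρ (F ∩ R^[d] ⁻¹' F)).toReal) atTop (𝓝 0))
    {ε : ℝ} (hε : 0 < ε) :
    Tendsto (fun N₀ : ℕ => ρ {y | ∃ N, N₀ ≤ N ∧ ε * N < ∑ i ∈ Finset.range N,
      pv (R^[i] y ∈ F)}) atTop (𝓝 0) := by
  rw [ENNReal.tendsto_atTop_zero]
  intro δ hδ
  obtain ⟨δ', hδ0, hδ'⟩ : ∃ δ' : ℝ, 0 < δ' ∧ ENNReal.ofReal δ' ≤ δ := by
    by_cases h : δ = ∞
    · exact ⟨1, one_pos, by rw [h]; exact le_top⟩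
    · exact ⟨δ.toReal, ENNReal.toReal_pos hδ.ne' h, by rw [ENNReal.ofReal_toReal h]⟩
  obtain ⟨N₁, hN₁, hN₁1⟩ := (((tendsto_order.mp hnull).2 (δ' * ε ^ 2 / 32)
    (by positivity)).and (eventually_ge_atTop 1)).exists
  have hN0 : (0 : ℝ) < N₁ := by exact_mod_cast hN₁1
  let a : ℕ → Y → ℝ := fun i y => pv (R^[i] y ∈ F)
  have ha0 : ∀ i y, 0 ≤ a i y := fun i y => pv_nonneg _
  have ha1 : ∀ i y, a i y ≤ 1 := fun i y => pv_le _
  have ham : ∀ i, Measurable (a i) := fun i => pv_mem_meas ((hR.measurable.iterate i) hF)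
  have hFi : ∀ i, ρ (R^[i] ⁻¹' F) = ρ F := fun i =>
    (hR.iterate i).measure_preimage hF.nullMeasurableSet
  have hai : ∀ i, Integrable (a i) ρ := fun i =>
    (pv_int ((hR.measurable.iterate i) hF) (by rw [hFi]; exact hFf)).1
  have haa : ∀ i d, Integrable (fun y => a i y * a (i + d) y) ρ ∧
      ∫ y, a i y * a (i + d) y ∂ρ = (ρ (F ∩ R^[d] ⁻¹' F)).toReal := by
    intro i d
    have hD : MeasurableSet (F ∩ R^[d] ⁻¹' F) := hF.inter ((hR.measurable.iterate d) hF)
    have e1 : (fun y => a i y * a (i + d) y) = fun y => pv (y ∈ R^[i] ⁻¹' (F ∩ R^[d] ⁻¹' F)) := by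
      funext y
      show pv _ * pv _ = _
      rw [pv_mul]
      congr 1
      rw [eq_iff_iff, mem_preimage, mem_inter_iff, mem_preimage, ← Function.iterate_add_apply,
        add_comm d i]
    have e2 : ρ (R^[i] ⁻¹' (F ∩ R^[d] ⁻¹' F)) = ρ (F ∩ R^[d] ⁻¹' F) :=
      (hR.iterate i).measure_preimage hD.nullMeasurableSet
    rw [e1, ← e2]
    exact pv_int ((hR.measurable.iterate i) hD) (by
      rw [e2]
      exact ne_top_of_le_ne_top hFf (measure_mono inter_subset_left))
  let s : Y → ℝ := fun y => ∑ j ∈ Finset.range N₁, a j y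
  have hs0 : ∀ y, 0 ≤ s y := fun y => Finset.sum_nonneg fun j _ => ha0 j y
  have hsm : Measurable s := Finset.measurable_fun_sum _ fun j _ => ham j
  have hsi : Integrable s ρ := integrable_finsetSum _ fun j _ => hai j
  let g : Y → ℝ := fun y => (N₁ : ℝ)⁻¹ * s y
  have hg0 : ∀ y, 0 ≤ g y := fun y => mul_nonneg (inv_nonneg.mpr hN0.le) (hs0 y)
  have hgm : Measurable g := hsm.const_mul _
  have hgi : Integrable g ρ := hsi.const_mul _
  let c : ℕ → ℝ := fun d => (ρ (F ∩ R^[d] ⁻¹' F)).toReal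
  have hbi : Integrable (fun y => 2 * ∑ i ∈ Finset.range N₁, ∑ d ∈ Finset.range N₁,
      a i y * a (i + d) y) ρ :=
    (integrable_finsetSum _ fun i _ => integrable_finsetSum _ fun d _ => (haa i d).1).const_mul 2
  have hss : ∀ y, s y ^ 2 ≤ 2 * ∑ i ∈ Finset.range N₁, ∑ d ∈ Finset.range N₁,
      a i y * a (i + d) y := fun y => sq_sum_le (a := fun i => a i y) (fun i => ha0 i y) N₁
  have hs2i : Integrable (fun y => s y ^ 2) ρ := by
    refine hbi.mono' (hsm.pow_const 2).aestronglyMeasurable (Eventually.of_forall fun y => ?_)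
    rw [Real.norm_of_nonneg (sq_nonneg _)]
    exact hss y
  have hs2 : ∫ y, s y ^ 2 ∂ρ ≤ 2 * (N₁ * ∑ d ∈ Finset.range N₁, c d) := by
    refine (integral_mono hs2i hbi hss).trans (le_of_eq ?_)
    rw [integral_const_mul, integral_finsetSum _ fun i _ =>
      integrable_finsetSum _ fun d _ => (haa i d).1]
    congr 1
    have : ∀ i ∈ Finset.range N₁, ∫ y, ∑ d ∈ Finset.range N₁, a i y * a (i + d) y ∂ρ =
        ∑ d ∈ Finset.range N₁, c d := by
      intro i _
      rw [integral_finsetSum _ fun d _ => (haa i d).1]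
      exact Finset.sum_congr rfl fun d _ => (haa i d).2
    rw [Finset.sum_congr rfl this, Finset.sum_const, Finset.card_range, nsmul_eq_mul]
  have hg2i : Integrable (fun y => g y ^ 2) ρ := by
    have : (fun y => g y ^ 2) = fun y => ((N₁ : ℝ)⁻¹) ^ 2 * s y ^ 2 := by
      funext y
      exact mul_pow _ _ _
    rw [this]
    exact hs2i.const_mul _
  have hg2 : ∫ y, g y ^ 2 ∂ρ ≤ 2 * Av c N₁ := by
    have : (fun y => g y ^ 2) = fun y => ((N₁ : ℝ)⁻¹) ^ 2 * s y ^ 2 := by
      funext y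
      exact mul_pow _ _ _
    rw [this, integral_const_mul]
    have h1 := mul_le_mul_of_nonneg_left hs2 (sq_nonneg (N₁ : ℝ)⁻¹)
    refine h1.trans (le_of_eq ?_)
    unfold Av
    field_simp
  let h : Y → ℝ := fun y => if ε / 4 < g y then g y else 0
  have hhm : Measurable h := Measurable.ite (measurableSet_lt measurable_const hgm) hgm
    measurable_const
  have hh0 : ∀ y, 0 ≤ h y := by
    intro y
    show 0 ≤ if ε / 4 < g y then g y else 0
    split_ifs
    · exact hg0 y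
    · exact le_rfl
  have hhg : ∀ y, h y ≤ 4 / ε * g y ^ 2 := by
    intro y
    show (if ε / 4 < g y then g y else 0) ≤ _
    split_ifs with h1
    · have h2 : 1 ≤ 4 / ε * g y := by
        rw [div_mul_eq_mul_div, le_div_iff₀ hε]
        linarith
      have h3 := mul_le_mul_of_nonneg_right h2 (hg0 y)
      rw [one_mul] at h3
      refine h3.trans (le_of_eq ?_)
      ring
    · positivity
  have hgh : ∀ y, g y ≤ h y + ε / 4 := by
    intro y
    show g y ≤ (if ε / 4 < g y then g y else 0) + ε / 4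
    split_ifs with h1
    · linarith
    · linarith [not_lt.mp h1]
  have hhi : Integrable h ρ := by
    refine (hg2i.const_mul (4 / ε)).mono' hhm.aestronglyMeasurable
      (Eventually.of_forall fun y => ?_)
    rw [Real.norm_of_nonneg (hh0 y)]
    exact hhg y
  have hhint : ∫ y, h y ∂ρ ≤ 4 / ε * (2 * Av c N₁) := by
    refine (integral_mono hhi (hg2i.const_mul (4 / ε)) hhg).trans ?_
    rw [integral_const_mul]
    exact mul_le_mul_of_nonneg_left hg2 (by positivity)
  have hmax := max_ineq hR hhm hhi hh0 (ε := ε / 4) (by positivity)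
  obtain ⟨N₀, hN₀⟩ := exists_nat_ge (2 * N₁ / ε)
  refine ⟨N₀, fun M hM => ?_⟩
  refine le_trans (measure_mono ?_) (hmax.trans (le_trans (ENNReal.ofReal_le_ofReal ?_) hδ'))
  · rintro y ⟨N, hMN, hN⟩
    refine ⟨N, ?_⟩
    have hN2 : 2 * (N₁ : ℝ) ≤ ε * N := by
      have h1 : 2 * N₁ / ε ≤ N := hN₀.trans (by exact_mod_cast hM.trans hMN)
      rw [div_le_iff₀ hε] at h1
      linarith
    have h1 : ∑ i ∈ Finset.range N, a i y - N₁ ≤ ∑ i ∈ Finset.range N, g (R^[i] y) := by
      have e1 : ∑ i ∈ Finset.range N, g (R^[i] y) =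
          (N₁ : ℝ)⁻¹ * ∑ j ∈ Finset.range N₁, ∑ i ∈ Finset.range N, a (j + i) y := by
        rw [Finset.sum_comm, Finset.mul_sum]
        refine Finset.sum_congr rfl fun i _ => ?_
        show (N₁ : ℝ)⁻¹ * ∑ j ∈ Finset.range N₁, pv (R^[j] (R^[i] y) ∈ F) = _
        congr 1
        refine Finset.sum_congr rfl fun j _ => ?_
        show _ = pv (R^[j + i] y ∈ F)
        rw [Function.iterate_add_apply]
      rw [e1]
      have e2 : ∀ j ∈ Finset.range N₁, ∑ i ∈ Finset.range N, a i y - N₁ ≤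
          ∑ i ∈ Finset.range N, a (j + i) y := by
        intro j hj
        have h2 := shift_le (a := fun i => a i y) (fun i => ha0 i y) (fun i => ha1 i y) j N
        have h3 : (j : ℝ) ≤ N₁ := by exact_mod_cast (Finset.mem_range.mp hj).le
        linarith
      have e3 := Finset.sum_le_sum e2
      rw [Finset.sum_const, Finset.card_range, nsmul_eq_mul] at e3
      rw [le_inv_mul_iff₀ hN0]
      exact e3
    have h2 : ∑ i ∈ Finset.range N, g (R^[i] y) ≤
        ∑ i ∈ Finset.range N, h (R^[i] y) + N * (ε / 4) := by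
      refine (Finset.sum_le_sum fun i _ => hgh (R^[i] y)).trans ?_
      rw [Finset.sum_add_distrib, Finset.sum_const, Finset.card_range, nsmul_eq_mul]
    have h3 : ε * N < ∑ i ∈ Finset.range N, a i y := hN
    show ε / 4 * N < ∑ i ∈ Finset.range N, h (R^[i] y)
    nlinarith
  · rw [div_le_iff₀ (by positivity)]
    refine hhint.trans ?_
    have h4 : 4 / ε * (2 * (δ' * ε ^ 2 / 32)) = δ' * (ε / 4) := by
      field_simp
      norm_num
    rw [← h4]
    exact mul_le_mul_of_nonneg_left (by linarith) (by positivity)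

end Pool.Agent.TH739.Poi

end

end

/-! ## Negligible overlaps from a logarithmic rate -/

section

open Filter Topology MeasureTheory ProbabilityTheory Set
open scoped ENNReal NNReal

noncomputable section

namespace Pool.Agent.TH739.Poi

/-- Sums along an injective sequence. -/
theorem sum_inj_le {c : ℕ → ℝ} (h0 : ∀ n, 0 ≤ c n) {e : ℕ → ℕ} (he : Function.Injective e)
    {N K : ℕ} (hK : ∀ n < N, e n < K) :
    ∑ n ∈ Finset.range N, c (e n) ≤ ∑ n ∈ Finset.range K, c n := by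
  rw [← Finset.sum_image (f := c) (g := e) fun _ _ _ _ h => he h]
  refine Finset.sum_le_sum_of_subset_of_nonneg ?_ fun _ _ _ => h0 _
  intro x hx
  obtain ⟨n, hn, rfl⟩ := Finset.mem_image.mp hx
  exact Finset.mem_range.mpr (hK n (Finset.mem_range.mp hn))

/-- Averages along multiples. -/
theorem Av_mult {c : ℕ → ℝ} (h0 : ∀ n, 0 ≤ c n) (hc : Tendsto (Av c) atTop (𝓝 0)) {r : ℕ}
    (hr : 0 < r) (t : ℕ) (ht : t ≤ 1) : Tendsto (Av fun n => c (r * (n + t))) atTop (𝓝 0) := by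
  have h1 : Tendsto (fun N : ℕ => ((r : ℝ) + 1) * Av c (r * N + 1)) atTop (𝓝 (((r : ℝ) + 1) * 0)) := by
    refine Tendsto.const_mul _ (hc.comp ?_)
    refine tendsto_atTop_mono (fun N => ?_) tendsto_id
    show N ≤ r * N + 1
    nlinarith
  rw [mul_zero] at h1
  refine squeeze_zero' (Eventually.of_forall fun N => Av_nonneg (fun n => h0 _) N) ?_ h1
  filter_upwards [eventually_ge_atTop 1] with N hN
  have hN0 : (0 : ℝ) < N := by exact_mod_cast hN
  have h2 : ∑ n ∈ Finset.range N, c (r * (n + t)) ≤ ∑ n ∈ Finset.range (r * N + 1), c n := by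
    refine sum_inj_le h0 (e := fun n => r * (n + t)) (fun x y h => ?_) fun n hn => ?_
    · have h3 : r * (x + t) = r * (y + t) := h
      have := Nat.eq_of_mul_eq_mul_left hr h3
      omega
    · show r * (n + t) < r * N + 1
      have : r * (n + t) ≤ r * N := Nat.mul_le_mul_left _ (by omega)
      omega
  have h3 : 0 ≤ ∑ n ∈ Finset.range (r * N + 1), c n := Finset.sum_nonneg fun n _ => h0 n
  unfold Av
  push_cast
  rw [← mul_assoc]
  refine mul_le_mul ?_ h2 (Finset.sum_nonneg fun n _ => h0 _) (by positivity)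
  rw [inv_eq_one_div, inv_eq_one_div, mul_one_div, div_le_div_iff₀ hN0 (by positivity)]
  nlinarith [(by exact_mod_cast hN : (1 : ℝ) ≤ N)]

/-- From dyadic averages outside a set of density zero to all averages. -/
theorem dyadic {b z : ℕ → ℝ} (hb0 : ∀ n, 0 ≤ b n) (hb1 : ∀ n, b n ≤ 1) (hz0 : ∀ n, 0 ≤ z n)
    (hz1 : ∀ n, z n ≤ 1) (hz : Tendsto (Av z) atTop (𝓝 0))
    (h : ∀ δ : ℝ, 0 < δ → ∀ᶠ k : ℕ in atTop,
      (2 ^ k : ℝ)⁻¹ * ∑ n ∈ Finset.range (2 ^ k), (1 - z n) * b n ≤ δ) :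
    Tendsto (Av b) atTop (𝓝 0) := by
  rw [Metric.tendsto_atTop]
  intro ε hε
  obtain ⟨k₀, hk₀⟩ := eventually_atTop.mp (h (ε / 4) (by positivity))
  obtain ⟨N₀, hN₀⟩ := eventually_atTop.mp ((tendsto_order.mp hz).2 (ε / 2) (by positivity))
  refine ⟨max (2 ^ k₀) N₀, fun N hN => ?_⟩
  have hN1 : 2 ^ k₀ ≤ N := le_trans (le_max_left _ _) hN
  have hNpos : 0 < N := lt_of_lt_of_le (pow_pos two_pos k₀) hN1
  have hN0 : (0 : ℝ) < N := by exact_mod_cast hNpos
  rw [Real.dist_eq, sub_zero, abs_of_nonneg (Av_nonneg hb0 N)]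
  set k := Nat.log 2 N with hk
  have hk1 : 2 ^ k ≤ N := Nat.pow_log_le_self 2 hNpos.ne'
  have hk2 : N < 2 ^ (k + 1) := Nat.lt_pow_succ_log_self one_lt_two N
  have hkk : k₀ ≤ k := Nat.le_log_of_pow_le one_lt_two hN1
  have h1 := hk₀ (k + 1) (by omega)
  rw [inv_mul_le_iff₀ (by positivity)] at h1
  have h2 : ∑ n ∈ Finset.range N, b n ≤ ∑ n ∈ Finset.range N, z n +
      ∑ n ∈ Finset.range (2 ^ (k + 1)), (1 - z n) * b n := by
    have h3 : ∑ n ∈ Finset.range N, b n ≤ ∑ n ∈ Finset.range N, (z n + (1 - z n) * b n) := by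
      refine Finset.sum_le_sum fun n _ => ?_
      nlinarith [hb0 n, hb1 n, hz0 n, hz1 n]
    rw [Finset.sum_add_distrib] at h3
    have h4 : ∑ n ∈ Finset.range N, (1 - z n) * b n ≤
        ∑ n ∈ Finset.range (2 ^ (k + 1)), (1 - z n) * b n :=
      Finset.sum_le_sum_of_subset_of_nonneg (Finset.range_subset_range.mpr hk2.le)
        fun n _ _ => mul_nonneg (by linarith [hz1 n]) (hb0 n)
    linarith
  have h5 : (2 : ℝ) ^ (k + 1) ≤ 2 * N := by
    have : (2 : ℝ) ^ k ≤ N := by exact_mod_cast hk1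
    rw [pow_succ]
    linarith
  have h6 := hN₀ N (le_trans (le_max_right _ _) hN)
  unfold Av at h6 ⊢
  rw [inv_mul_lt_iff₀ hN0] at h6 ⊢
  have h7 : (2 : ℝ) ^ (k + 1) * (ε / 4) ≤ 2 * N * (ε / 4) :=
    mul_le_mul_of_nonneg_right h5 (by positivity)
  linarith

variable {Y : Type*} [MeasurableSpace Y] {ν : ℕ → Measure Y} {y₀ : Y}

omit [MeasurableSpace Y] in
/-- The number of times at which a set contains a point is at most the sum over the points. -/
theorem count_le {ω : Om Y} {O : ℕ → Set Y} {w : ℕ → ℝ} (hw : ∀ n, 0 ≤ w n) (M : ℕ) :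
    ∃ K, ∑ n ∈ Finset.range M, w n * pv (ω ∉ V (O n)) ≤
      SK K (fun y => ∑ n ∈ Finset.range M, w n * pv (y ∈ O n)) ω := by
  have h1 : ∀ n, ∃ K, pv (ω ∉ V (O n)) ≤ SK K (fun y => pv (y ∈ O n)) ω := by
    intro n
    by_cases h : ω ∉ V (O n)
    · rw [pv_true h]
      simp only [V, mem_ofPred_eq, not_forall, not_not] at h
      obtain ⟨k, l, hl, hy⟩ := h
      refine ⟨k + 1, ?_⟩
      unfold SK
      have h2 : (1 : ℝ) ≤ ∑ l ∈ Finset.range (ω k).1, pv ((ω k).2 l ∈ O n) := by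
        rw [← pv_true hy]
        exact Finset.single_le_sum (f := fun l => pv ((ω k).2 l ∈ O n)) (fun _ _ => pv_nonneg _)
          (Finset.mem_range.mpr hl)
      refine h2.trans ?_
      exact Finset.single_le_sum (f := fun k => ∑ l ∈ Finset.range (ω k).1, pv ((ω k).2 l ∈ O n))
        (fun _ _ => Finset.sum_nonneg fun _ _ => pv_nonneg _) (Finset.self_mem_range_succ k)
    · refine ⟨0, ?_⟩
      rw [pv_false h]
      simp [SK]
  choose K hK using h1
  refine ⟨∑ n ∈ Finset.range M, K n, ?_⟩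
  have h2 : ∀ n ∈ Finset.range M, w n * pv (ω ∉ V (O n)) ≤
      w n * SK (∑ n ∈ Finset.range M, K n) (fun y => pv (y ∈ O n)) ω := by
    intro n hn
    refine mul_le_mul_of_nonneg_left ((hK n).trans ?_) (hw n)
    exact SK_mono (fun _ => pv_nonneg _) ω (Finset.single_le_sum (f := K)
      (fun _ _ => Nat.zero_le _) hn)
  refine (Finset.sum_le_sum h2).trans (le_of_eq ?_)
  unfold SK
  simp only [Finset.mul_sum]
  rw [Finset.sum_comm]
  refine Finset.sum_congr rfl fun k _ => ?_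
  rw [Finset.sum_comm]

/-- **Negligible overlaps from a rate.** -/
theorem neg_of_rate [∀ k, IsFiniteMeasure (ν k)] {S : Y → Y}
    (hS : MeasurePreserving S (Measure.sum ν) (Measure.sum ν)) {A B : Set Y}
    (hA : MeasurableSet A) (hB : MeasurableSet B) (hAf : Measure.sum ν A ≠ ∞)
    {a b : ℕ} (ha : 0 < a)
    (hnull : Tendsto (Av fun n => (Measure.sum ν (A ∩ S^[n] ⁻¹' A)).toReal) atTop (𝓝 0))
    {Z : Set ℕ} (hZ : Tendsto (Av fun n => pv (n ∈ Z)) atTop (𝓝 0)) {p : ℕ} (hp : 0 < p)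
    (hsum : Summable fun k : ℕ => ((2 ^ k : ℝ)⁻¹ * ∑ n ∈ Finset.range (2 ^ k),
      (1 - pv (n ∈ Z)) * (Measure.sum ν (S^[a * (n + 1)] ⁻¹' A ∩
        S^[b * (n + 1)] ⁻¹' B)).toReal) ^ p) : Neg ν y₀ S A B a b := by
  set ρ := Measure.sum ν with hρ
  let C₁ : ℕ → Set Y := fun n => S^[a * (n + 1)] ⁻¹' A
  let C₂ : ℕ → Set Y := fun n => S^[b * (n + 1)] ⁻¹' B
  let O : ℕ → Set Y := fun n => C₁ n ∩ C₂ n
  have hC₁ : ∀ n, MeasurableSet (C₁ n) := fun n => (hS.measurable.iterate _) hA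
  have hC₂ : ∀ n, MeasurableSet (C₂ n) := fun n => (hS.measurable.iterate _) hB
  have hO : ∀ n, MeasurableSet (O n) := fun n => (hC₁ n).inter (hC₂ n)
  have hOf : ∀ n, ρ (O n) ≠ ∞ := by
    intro n
    refine ne_top_of_le_ne_top ?_ (measure_mono (inter_subset_left : O n ⊆ C₁ n))
    have : ρ (C₁ n) = ρ A := (hS.iterate _).measure_preimage hA.nullMeasurableSet
    rw [this]
    exact hAf
  let w : ℕ → ℝ := fun n => 1 - pv (n ∈ Z)
  have hw0 : ∀ n, 0 ≤ w n := fun n => by
    show 0 ≤ 1 - pv (n ∈ Z)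
    linarith [pv_le (n ∈ Z)]
  have hw1 : ∀ n, w n ≤ 1 := fun n => by
    show 1 - pv (n ∈ Z) ≤ 1
    linarith [pv_nonneg (n ∈ Z)]
  let mm : ℕ → ℝ := fun k => (2 ^ k : ℝ)⁻¹ * ∑ n ∈ Finset.range (2 ^ k), w n * (ρ (O n)).toReal
  have hmm0 : ∀ k, 0 ≤ mm k := fun k => mul_nonneg (by positivity)
    (Finset.sum_nonneg fun n _ => mul_nonneg (hw0 n) ENNReal.toReal_nonneg)
  let FF : ℕ → Y → ℝ := fun k y => (2 ^ k : ℝ)⁻¹ * ∑ n ∈ Finset.range (2 ^ k), w n * pv (y ∈ O n)
  have hFF0 : ∀ k y, 0 ≤ FF k y := fun k y => mul_nonneg (by positivity)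
    (Finset.sum_nonneg fun n _ => mul_nonneg (hw0 n) (pv_nonneg _))
  have hFFm : ∀ k, Measurable (FF k) := fun k =>
    (Finset.measurable_fun_sum _ fun n _ => (pv_mem_meas (hO n)).const_mul _).const_mul _
  have hFFi : ∀ k, Integrable (FF k) ρ := fun k =>
    (integrable_finsetSum _ fun n _ => (pv_int (hO n) (hOf n)).1.const_mul _).const_mul _
  have hFFint : ∀ k, ∫ y, FF k y ∂ρ = mm k := by
    intro k
    show ∫ y, (2 ^ k : ℝ)⁻¹ * ∑ n ∈ Finset.range (2 ^ k), w n * pv (y ∈ O n) ∂ρ = _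
    rw [integral_const_mul, integral_finsetSum _ fun n _ =>
      (pv_int (hO n) (hOf n)).1.const_mul _]
    show _ = (2 ^ k : ℝ)⁻¹ * ∑ n ∈ Finset.range (2 ^ k), w n * (ρ (O n)).toReal
    congr 1
    refine Finset.sum_congr rfl fun n _ => ?_
    rw [integral_const_mul, (pv_int (hO n) (hOf n)).2]
  -- the visits to `A`
  let R : Y → Y := S^[a]
  have hR : MeasurePreserving R ρ ρ := hS.iterate a
  let F : Set Y := R ⁻¹' A
  have hF : MeasurableSet F := hR.measurable hA
  have hFf : ρ F ≠ ∞ := by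
    rw [hR.measure_preimage hA.nullMeasurableSet]
    exact hAf
  have hRi : ∀ i y, (R^[i] y ∈ F) = (y ∈ C₁ i) := by
    intro i y
    show (R (R^[i] y) ∈ A) = (S^[a * (i + 1)] y ∈ A)
    rw [← Function.iterate_succ_apply' R i y, ← Function.iterate_mul]
  have hnullR : Tendsto (Av fun d => (ρ (F ∩ R^[d] ⁻¹' F)).toReal) atTop (𝓝 0) := by
    have h1 := Av_mult (fun n => ENNReal.toReal_nonneg) hnull ha 0 zero_le_one
    refine h1.congr fun N => ?_
    congr 1
    funext d
    have e1 : F ∩ R^[d] ⁻¹' F = R ⁻¹' (A ∩ S^[a * d] ⁻¹' A) := by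
      ext y
      simp only [F, mem_inter_iff, mem_preimage]
      rw [← Function.iterate_succ_apply' R d y, Function.iterate_succ_apply R d y,
        show R^[d] = S^[a * d] from (Function.iterate_mul S a d).symm]
    rw [e1, hR.measure_preimage (hA.inter ((hS.measurable.iterate _) hA)).nullMeasurableSet,
      add_zero]
  -- one level
  have key : ∀ δ : ℝ, 0 < δ → ∀ᵐ ω ∂(PP ν y₀), ∀ᶠ k : ℕ in atTop,
      (2 ^ k : ℝ)⁻¹ * ∑ n ∈ Finset.range (2 ^ k), w n * pv (ω ∉ V (O n)) ≤ δ := by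
    intro δ hδ
    have hp0 : (0 : ℝ) < p := by exact_mod_cast hp
    set ε : ℝ := δ / p with hε'
    have hε : 0 < ε := by positivity
    have hpe : p * ε = δ := by
      rw [hε']
      field_simp
    let G : ℕ → Set Y := fun N₀ => {y | ∃ N, N₀ ≤ N ∧ ε * N < ∑ i ∈ Finset.range N,
      pv (R^[i] y ∈ F)}
    have hGm : ∀ N₀, MeasurableSet (G N₀) := by
      intro N₀
      have : G N₀ = ⋃ N : ℕ, ⋃ _ : N₀ ≤ N, {y | ε * N < ∑ i ∈ Finset.range N,
          pv (R^[i] y ∈ F)} := by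
        ext y
        simp only [G, mem_ofPred_eq, mem_iUnion, exists_prop]
      rw [this]
      refine MeasurableSet.iUnion fun N => MeasurableSet.iUnion fun _ => ?_
      refine measurableSet_lt measurable_const (Finset.measurable_fun_sum _ fun i _ => ?_)
      exact pv_mem_meas ((hR.measurable.iterate i) hF)
    have hG := max_set hR hF hFf hnullR hε
    have hgood : ∀ᵐ ω ∂(PP ν y₀), ∃ N₀, ω ∈ V (G N₀) := by
      rw [ae_iff]
      simp only [not_exists]
      refine le_antisymm ?_ zero_le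
      refine ge_of_tendsto' hG fun N₀ => ?_
      refine le_trans (measure_mono ?_) (prob_not_V (y₀ := y₀) (hGm N₀))
      exact fun ω hω => hω N₀
    let φ : ℕ → Y → ℝ := fun k y => if FF k y ≤ ε then FF k y else 0
    have hφm : ∀ k, Measurable (φ k) := fun k =>
      Measurable.ite (measurableSet_le (hFFm k) measurable_const) (hFFm k) measurable_const
    have hφ0 : ∀ k y, 0 ≤ φ k y := by
      intro k y
      show 0 ≤ if FF k y ≤ ε then FF k y else 0
      split_ifs
      · exact hFF0 k y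
      · exact le_rfl
    have hφ1 : ∀ k y, φ k y ≤ ε := by
      intro k y
      show (if FF k y ≤ ε then FF k y else 0) ≤ ε
      split_ifs with h
      · exact h
      · exact hε.le
    have hφF : ∀ k y, φ k y ≤ FF k y := by
      intro k y
      show (if FF k y ≤ ε then FF k y else 0) ≤ FF k y
      split_ifs with h
      · exact le_rfl
      · exact hFF0 k y
    let M : ℕ → ℝ := fun k => mm k + (2 ^ k : ℝ)⁻¹
    have hM : ∀ k, 0 < M k := fun k => add_pos_of_nonneg_of_pos (hmm0 k) (by positivity)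
    have hint : ∀ k, ∫⁻ y, ENNReal.ofReal (φ k y) ∂ρ ≤ ENNReal.ofReal (M k) := by
      intro k
      refine (lintegral_mono fun y => ENNReal.ofReal_le_ofReal (hφF k y)).trans ?_
      rw [← ofReal_integral_eq_lintegral_ofReal (hFFi k) (Eventually.of_forall (hFF0 k)), hFFint]
      refine ENNReal.ofReal_le_ofReal ?_
      show mm k ≤ mm k + (2 ^ k : ℝ)⁻¹
      have : 0 < (2 ^ k : ℝ)⁻¹ := by positivity
      linarith
    have hut := fun k => upper_tail (y₀ := y₀) (hφm k) (hφ0 k) hε (hφ1 k) (hM k) (hint k) p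
    have hsumM : Summable fun k => Real.exp 1 * (M k / ε) ^ p := by
      refine Summable.mul_left _ ?_
      simp only [div_pow]
      refine Summable.div_const ?_ _
      have hg : Summable fun k : ℕ => ((2 ^ k : ℝ)⁻¹) ^ p := by
        refine Summable.of_nonneg_of_le (fun k => by positivity) (fun k => ?_)
          (summable_geometric_two)
        have h1 : (2 ^ k : ℝ)⁻¹ ≤ 1 := inv_le_one_of_one_le₀ (one_le_pow₀ one_le_two)
        have h2 : ((2 ^ k : ℝ)⁻¹) ^ p ≤ ((2 ^ k : ℝ)⁻¹) ^ 1 :=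
          pow_le_pow_of_le_one (by positivity) h1 hp
        refine h2.trans (le_of_eq ?_)
        rw [pow_one, one_div, inv_pow]
      refine Summable.of_nonneg_of_le (fun k => pow_nonneg (hM k).le p) (fun k => ?_)
        ((hsum.add hg).mul_left (2 ^ (p - 1)))
      exact add_pow_le (hmm0 k) (by positivity) p
    have hbc := ae_eventually_notMem (μ := PP ν y₀)
      (s := fun k => {ω | ∃ K, p * ε ≤ SK K (φ k) ω}) (by
        refine ne_top_of_le_ne_top ?_ (ENNReal.tsum_le_tsum hut)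
        exact hsumM.tsum_ofReal_ne_top)
    filter_upwards [hgood, hbc] with ω h1 h2
    obtain ⟨N₀, hN₀⟩ := h1
    filter_upwards [h2, eventually_ge_atTop N₀] with k hk hkN
    have hk2 : N₀ ≤ 2 ^ k := hkN.trans (Nat.lt_pow_self one_lt_two).le
    obtain ⟨K, hK⟩ := count_le (ω := ω) (O := O) hw0 (2 ^ k)
    have hpt : ∀ k' l, l < (ω k').1 → FF k ((ω k').2 l) = φ k ((ω k').2 l) := by
      intro k' l hl
      have h3 := hN₀ k' l hl
      set y := (ω k').2 l
      have h4 : FF k y ≤ ε := by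
        by_contra h5
        rw [not_le] at h5
        apply h3
        refine ⟨2 ^ k, hk2, ?_⟩
        have h6 : ∑ n ∈ Finset.range (2 ^ k), w n * pv (y ∈ O n) ≤
            ∑ i ∈ Finset.range (2 ^ k), pv (R^[i] y ∈ F) := by
          refine Finset.sum_le_sum fun n _ => ?_
          rw [hRi]
          have h7 : pv (y ∈ O n) ≤ pv (y ∈ C₁ n) := by
            by_cases h8 : y ∈ O n
            · rw [pv_true h8, pv_true h8.1]
            · rw [pv_false h8]
              exact pv_nonneg _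
          exact (mul_le_of_le_one_left (pv_nonneg _) (hw1 n)).trans h7
        have h9 : ε < (2 ^ k : ℝ)⁻¹ * ∑ n ∈ Finset.range (2 ^ k), w n * pv (y ∈ O n) := h5
        rw [lt_inv_mul_iff₀ (by positivity)] at h9
        push_cast
        linarith
      show FF k y = if FF k y ≤ ε then FF k y else 0
      rw [if_pos h4]
    have hSK : SK K (fun y => ∑ n ∈ Finset.range (2 ^ k), w n * pv (y ∈ O n)) ω =
        2 ^ k * SK K (φ k) ω := by
      unfold SK
      rw [Finset.mul_sum]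
      refine Finset.sum_congr rfl fun k' _ => ?_
      rw [Finset.mul_sum]
      refine Finset.sum_congr rfl fun l hl => ?_
      rw [← hpt k' l (Finset.mem_range.mp hl)]
      show _ = 2 ^ k * ((2 ^ k : ℝ)⁻¹ * _)
      rw [← mul_assoc, mul_inv_cancel₀ (by positivity), one_mul]
    rw [hSK] at hK
    have hlt : SK K (φ k) ω < p * ε := by
      by_contra h5
      exact hk ⟨K, not_lt.mp h5⟩
    rw [hpe] at hlt
    rw [inv_mul_le_iff₀ (by positivity)]
    refine hK.trans ?_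
    exact mul_le_mul_of_nonneg_left hlt.le (by positivity)
  have hall := ae_all_iff.mpr fun i : ℕ => key (1 / ((i : ℝ) + 1)) (by positivity)
  filter_upwards [hall] with ω hω
  refine dyadic (z := fun n => pv (n ∈ Z)) (fun n => pv_nonneg _) (fun n => pv_le _)
    (fun n => pv_nonneg _) (fun n => pv_le _) hZ fun δ hδ => ?_
  obtain ⟨i, hi⟩ := exists_nat_one_div_lt hδ
  filter_upwards [hω i] with k hk
  exact hk.trans hi.le

end Pool.Agent.TH739.Poi

end

end
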