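import Mathlib
import Pool.Agent.TH739.Pois.Overlap
import Pool.Agent.W761.Tail.Main

/-!
# Poisson suspensions as measure preserving systems
-/

set_option autoImplicit false

/-! ## From a π-system to all bounded functions -/

section

open Filter Topology MeasureTheory Set
open scoped ENNReal NNReal

noncomputable section

namespace Pool.Agent.TH739.Poi

open Pool.Agent.W761.Gauss (BM)
open Pool.Agent.W761.Tail (Cvg term A A_mul Cvg_add Cvg_congr Cvg_closed term_update)

variable {X : Type} [mX : MeasurableSpace X] {μ : Measure X} {m : ℕ} {T : X → X}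

theorem Cvg_smul {f : Fin m → X → ℂ} {j : Fin m} {g : X → ℂ} (c : ℂ)
    (hg : Cvg μ T (Function.update f j g)) :
    Cvg μ T (Function.update f j (fun x => c * g x)) := by
  filter_upwards [hg] with x hx
  obtain ⟨L, hL⟩ := hx
  refine ⟨c * L, (hL.const_mul c).congr fun N => ?_⟩
  rw [← A_mul]
  congr 1
  funext n
  rw [term_update, term_update, mul_assoc]

theorem BM_update {f : Fin m → X → ℂ} (hf : ∀ j, BM (f j)) (k : Fin m) {h : X → ℂ} (hh : BM h)
    (l : Fin m) : BM (Function.update f k h l) := by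
  by_cases hl : l = k
  · subst hl
    rw [Function.update_self]
    exact hh
  · rw [Function.update_of_ne hl]
    exact hf l

/-- Closure under bounded pointwise limits in one coordinate. -/
theorem Cvg_lim [IsProbabilityMeasure μ] (hT : MeasurePreserving T μ μ) {f : Fin m → X → ℂ}
    (hf : ∀ j, BM (f j)) (k : Fin m) {h : X → ℂ} (hh : Measurable h) {C : ℝ}
    (hC : ∀ x, ‖h x‖ ≤ C) {s : ℕ → X → ℂ} (hs : ∀ n, Measurable (s n))
    (hsC : ∀ n x, ‖s n x‖ ≤ C) (hlim : ∀ x, Tendsto (fun n => s n x) atTop (𝓝 (h x)))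
    (hQ : ∀ n, Cvg μ T (Function.update f k (s n))) : Cvg μ T (Function.update f k h) := by
  choose hfm CF hCF using hf
  set D : ℝ := |C| + ∑ l, |CF l| with hD
  have hS : 0 ≤ ∑ l, |CF l| := Finset.sum_nonneg fun _ _ => abs_nonneg _
  have hup : ∀ {g : X → ℂ}, (∀ x, ‖g x‖ ≤ C) → ∀ l x, ‖Function.update f k g l x‖ ≤ D := by
    intro g hg l x
    by_cases hl : l = k
    · subst hl
      rw [Function.update_self]
      have := (hg x).trans (le_abs_self C)
      linarith
    · rw [Function.update_of_ne hl]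
      have h3 : |CF l| ≤ ∑ l, |CF l| :=
        Finset.single_le_sum (f := fun l => |CF l|) (fun _ _ => abs_nonneg _) (Finset.mem_univ l)
      have h4 := (hCF l x).trans (le_abs_self (CF l))
      have h5 := abs_nonneg C
      linarith
  have hupm : ∀ {g : X → ℂ}, Measurable g → ∀ l, Measurable (Function.update f k g l) := by
    intro g hg l
    by_cases hl : l = k
    · subst hl
      rw [Function.update_self]
      exact hg
    · rw [Function.update_of_ne hl]
      exact hfm l
  have hint : Tendsto (fun n => ∫ x, ‖h x - s n x‖ ∂μ) atTop (𝓝 0) := by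
    have h1 := tendsto_integral_of_dominated_convergence (μ := μ)
      (F := fun n x => ‖h x - s n x‖) (f := fun _ => (0 : ℝ)) (fun _ => C + C)
      (fun n => (hh.sub (hs n)).norm.aestronglyMeasurable) (integrable_const _)
      (fun n => Eventually.of_forall fun x => by
        rw [Real.norm_of_nonneg (norm_nonneg _)]
        exact (norm_sub_le _ _).trans (add_le_add (hC x) (hsC n x)))
      (Eventually.of_forall fun x => by
        have h2 := ((hlim x).const_sub (h x)).norm
        rwa [sub_self, norm_zero] at h2)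
    rwa [integral_zero] at h1
  refine Cvg_closed hT (C := D) (hupm hh) (hup hC) fun ε hε => ?_
  obtain ⟨n, hn⟩ := ((tendsto_order.mp hint).2 ε hε).exists
  refine ⟨0, Function.update f k (s n), hupm (hs n), hup (hsC n), fun l => ?_, hQ n⟩
  by_cases hl : l = k
  · subst hl
    rw [Function.update_self, Function.update_self]
    exact hn.le
  · rw [Function.update_of_ne hl, Function.update_of_ne hl]
    simp only [Function.iterate_zero, id_eq, sub_self, norm_zero, integral_zero]
    exact hε.le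

theorem ind_BM {D : Set X} (hD : MeasurableSet D) (c : ℂ) : BM (D.indicator fun _ => c) :=
  ⟨measurable_const.indicator hD, ‖c‖, fun _ => norm_indicator_le_norm_self _ _⟩

/-- Extension in one coordinate. -/
theorem step [IsProbabilityMeasure μ] (hT : MeasurePreserving T μ μ) {𝒬 : Set (Set X)}
    (h𝒬m : ∀ D ∈ 𝒬, MeasurableSet D) (hπ : IsPiSystem 𝒬) (huniv : univ ∈ 𝒬)
    (hgen : ∀ C, MeasurableSet C → ∃ D, MeasurableSet[MeasurableSpace.generateFrom 𝒬] D ∧
      C =ᵐ[μ] D)
    {f : Fin m → X → ℂ} (hf : ∀ j, BM (f j)) (k : Fin m)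
    (hP : ∀ D ∈ 𝒬, Cvg μ T (Function.update f k (D.indicator fun _ => 1))) {h : X → ℂ}
    (hh : BM h) : Cvg μ T (Function.update f k h) := by
  have hle : MeasurableSpace.generateFrom 𝒬 ≤ mX := MeasurableSpace.generateFrom_le h𝒬m
  have h0 : Cvg μ T (Function.update f k (fun _ => 0)) := by
    have h1 := Cvg_smul 0 (hP univ huniv)
    have h2 : (fun x => (0 : ℂ) * (univ : Set X).indicator (fun _ => (1 : ℂ)) x) = fun _ => 0 := by
      funext x
      rw [zero_mul]
    rwa [h2] at h1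
  have h1 : ∀ D, MeasurableSet[MeasurableSpace.generateFrom 𝒬] D →
      Cvg μ T (Function.update f k (D.indicator fun _ => 1)) := by
    refine MeasurableSpace.induction_on_inter (m := MeasurableSpace.generateFrom 𝒬) rfl hπ
      ?_ hP ?_ ?_
    · have : ((∅ : Set X).indicator fun _ => (1 : ℂ)) = fun _ => 0 := by
        funext x
        exact indicator_of_notMem (notMem_empty x) _
      rw [this]
      exact h0
    · intro D _ hD
      have e : (Dᶜ.indicator fun _ => (1 : ℂ)) = (univ.indicator fun _ => (1 : ℂ)) +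
          fun x => (-1) * (D.indicator (fun _ => (1 : ℂ)) x) := by
        funext x
        rw [Pi.add_apply, indicator_of_mem (mem_univ x)]
        by_cases hx : x ∈ D
        · rw [indicator_of_notMem (by simpa using hx), indicator_of_mem hx]
          ring
        · rw [indicator_of_mem (by simpa using hx), indicator_of_notMem hx]
          ring
      rw [e]
      exact Cvg_add (hP univ huniv) (Cvg_smul (-1) hD)
    · intro D hdis hD hQ
      let s : ℕ → X → ℂ := fun n => (⋃ i ∈ Finset.range n, D i).indicator fun _ => 1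
      refine Cvg_lim (C := 1) hT hf k (s := s)
        (measurable_const.indicator (MeasurableSet.iUnion fun i => hle _ (hD i))) ?_ ?_ ?_ ?_ ?_
      · intro x
        refine (norm_indicator_le_norm_self _ _).trans ?_
        simp
      · intro n
        exact measurable_const.indicator (Finset.measurableSet_biUnion _ fun i _ => hle _ (hD i))
      · intro n x
        refine (norm_indicator_le_norm_self _ _).trans ?_
        simp
      · intro x
        by_cases hx : x ∈ ⋃ i, D i
        · rw [indicator_of_mem hx]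
          obtain ⟨i, hi⟩ := mem_iUnion.mp hx
          refine tendsto_const_nhds.congr' ?_
          filter_upwards [eventually_gt_atTop i] with n hn
          have h2 : x ∈ ⋃ i ∈ Finset.range n, D i :=
            mem_iUnion₂.mpr ⟨i, Finset.mem_range.mpr hn, hi⟩
          exact (indicator_of_mem h2 fun _ => (1 : ℂ)).symm
        · rw [indicator_of_notMem hx]
          refine tendsto_const_nhds.congr fun n => ?_
          have h2 : x ∉ ⋃ i ∈ Finset.range n, D i := by
            intro h2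
            obtain ⟨i, _, hi⟩ := mem_iUnion₂.mp h2
            exact hx (mem_iUnion.mpr ⟨i, hi⟩)
          exact (indicator_of_notMem h2 fun _ => (1 : ℂ)).symm
      · intro n
        induction n with
        | zero =>
          have : s 0 = fun _ => 0 := by
            funext x
            refine indicator_of_notMem (fun h2 => ?_) _
            obtain ⟨i, hi, _⟩ := mem_iUnion₂.mp h2
            exact absurd hi (by simp)
          rw [this]
          exact h0
        | succ n ih =>
          have : s (n + 1) = s n + (D n).indicator fun _ => 1 := by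
            funext x
            rw [Pi.add_apply]
            show (⋃ i ∈ Finset.range (n + 1), D i).indicator (fun _ => (1 : ℂ)) x =
              (⋃ i ∈ Finset.range n, D i).indicator (fun _ => (1 : ℂ)) x +
                (D n).indicator (fun _ => 1) x
            by_cases h3 : x ∈ D n
            · have h4 : x ∉ ⋃ i ∈ Finset.range n, D i := by
                intro h5
                obtain ⟨i, hi, hi'⟩ := mem_iUnion₂.mp h5
                have hne : i ≠ n := (Finset.mem_range.mp hi).ne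
                exact (Set.disjoint_left.mp (hdis hne)) hi' h3
              have h6 : x ∈ ⋃ i ∈ Finset.range (n + 1), D i :=
                mem_iUnion₂.mpr ⟨n, Finset.self_mem_range_succ n, h3⟩
              rw [indicator_of_mem h6, indicator_of_notMem h4, indicator_of_mem h3, zero_add]
            · rw [indicator_of_notMem h3, add_zero]
              by_cases h4 : x ∈ ⋃ i ∈ Finset.range n, D i
              · have h6 : x ∈ ⋃ i ∈ Finset.range (n + 1), D i := by
                  obtain ⟨i, hi, hi'⟩ := mem_iUnion₂.mp h4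
                  exact mem_iUnion₂.mpr ⟨i, Finset.mem_range.mpr (by
                    have := Finset.mem_range.mp hi
                    omega), hi'⟩
                rw [indicator_of_mem h6, indicator_of_mem h4]
              · have h6 : x ∉ ⋃ i ∈ Finset.range (n + 1), D i := by
                  intro h5
                  obtain ⟨i, hi, hi'⟩ := mem_iUnion₂.mp h5
                  rcases Nat.lt_succ_iff_lt_or_eq.mp (Finset.mem_range.mp hi) with h7 | h7
                  · exact h4 (mem_iUnion₂.mpr ⟨i, Finset.mem_range.mpr h7, hi'⟩)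
                  · subst h7
                    exact h3 hi'
                rw [indicator_of_notMem h6, indicator_of_notMem h4]
          rw [this]
          exact Cvg_add ih (hQ n)
  have h2 : ∀ (c : ℂ) (D : Set X), MeasurableSet D →
      Cvg μ T (Function.update f k (D.indicator fun _ => c)) := by
    intro c D hD
    obtain ⟨D', hD', e⟩ := hgen D hD
    have h3 := Cvg_smul c (h1 D' hD')
    refine Cvg_congr hT (fun l => ?_) h3
    by_cases hl : l = k
    · subst hl
      rw [Function.update_self, Function.update_self]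
      refine EventuallyEq.trans ?_ (indicator_ae_eq_of_ae_eq_set e).symm
      refine Eventually.of_forall fun x => ?_
      by_cases hx : x ∈ D'
      · simp [hx]
      · simp [hx]
    · rw [Function.update_of_ne hl, Function.update_of_ne hl]
  obtain ⟨hhm, C, hC⟩ := hh
  have hC0 : 0 ≤ C := by
    obtain ⟨x⟩ : Nonempty X := by
      by_contra h
      rw [not_nonempty_iff] at h
      have h1 : μ Set.univ = 0 := by
        rw [Set.univ_eq_empty_iff.mpr h, measure_empty]
      rw [measure_univ] at h1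
      exact one_ne_zero h1
    exact (norm_nonneg _).trans (hC x)
  refine Cvg_lim hT hf k hhm hC
    (s := fun n => (hhm.stronglyMeasurable.approxBounded C n : X → ℂ))
    (fun n => (hhm.stronglyMeasurable.approxBounded C n).measurable)
    (fun n x => hhm.stronglyMeasurable.norm_approxBounded_le hC0 n x)
    (fun x => hhm.stronglyMeasurable.tendsto_approxBounded_of_norm_le (hC x)) fun n => ?_
  induction (hhm.stronglyMeasurable.approxBounded C n) using SimpleFunc.induction with
  | const c hs =>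
    rename_i D
    have : (SimpleFunc.piecewise D hs (SimpleFunc.const X c) (SimpleFunc.const X 0) : X → ℂ) =
        D.indicator fun _ => c := by
      funext x
      by_cases hx : x ∈ D
      · simp [hx]
      · simp [hx]
    rw [this]
    exact h2 c D hs
  | add hdis ih1 ih2 =>
    rw [SimpleFunc.coe_add]
    exact Cvg_add ih1 ih2

/-- Extension from a π-system to all bounded measurable functions. -/
theorem ext_pi [IsProbabilityMeasure μ] (hT : MeasurePreserving T μ μ) {𝒬 : Set (Set X)}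
    (h𝒬m : ∀ D ∈ 𝒬, MeasurableSet D) (hπ : IsPiSystem 𝒬) (huniv : univ ∈ 𝒬)
    (hgen : ∀ C, MeasurableSet C → ∃ D, MeasurableSet[MeasurableSpace.generateFrom 𝒬] D ∧
      C =ᵐ[μ] D)
    (hbase : ∀ D : Fin m → Set X, (∀ j, D j ∈ 𝒬) →
      Cvg μ T (fun j => (D j).indicator fun _ => 1)) {f : Fin m → X → ℂ} (hf : ∀ j, BM (f j)) :
    Cvg μ T f := by
  have key : ∀ k : ℕ, ∀ f : Fin m → X → ℂ, (∀ j : Fin m, (j : ℕ) < k → BM (f j)) →
      (∀ j : Fin m, k ≤ (j : ℕ) → ∃ D ∈ 𝒬, f j = D.indicator fun _ => 1) → Cvg μ T f := by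
    intro k
    induction k with
    | zero =>
      intro f _ h2
      choose D hD hfD using fun j => h2 j (Nat.zero_le _)
      have : f = fun j => (D j).indicator fun _ => 1 := by
        funext j
        rw [hfD]
      rw [this]
      exact hbase D hD
    | succ k ih =>
      intro f h1 h2
      by_cases hk : k < m
      · let K : Fin m := ⟨k, hk⟩
        have hBM : ∀ j, BM (f j) := by
          intro j
          by_cases hj : (j : ℕ) < k + 1
          · exact h1 j hj
          · obtain ⟨D, hD, e⟩ := h2 j (not_lt.mp hj)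
            rw [e]
            exact ind_BM (h𝒬m D hD) 1
        rw [← Function.update_eq_self K f]
        refine step hT h𝒬m hπ huniv hgen hBM K (fun D hD => ?_) (hBM K)
        refine ih _ (fun j hj => ?_) fun j hj => ?_
        · have hne : j ≠ K := fun h => by
            rw [h] at hj
            exact lt_irrefl _ hj
          rw [Function.update_of_ne hne]
          exact hBM j
        · by_cases hne : j = K
          · subst hne
            rw [Function.update_self]
            exact ⟨D, hD, rfl⟩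
          · rw [Function.update_of_ne hne]
            refine h2 j ?_
            have : (j : ℕ) ≠ k := fun h => hne (Fin.ext h)
            omega
      · refine ih f (fun j hj => h1 j (by omega)) fun j hj => ?_
        exact absurd j.2 (by omega)
  exact key m f (fun j _ => hf j) fun j hj => absurd j.2 (by omega)

end Pool.Agent.TH739.Poi

end

end

/-! ## Poisson suspensions -/

section

open Filter Topology MeasureTheory Set
open scoped ENNReal NNReal symmDiff

noncomputable section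

namespace Pool.Agent.TH739.Poi

open Pool.Agent.W761.Gauss (BM)
open Pool.Agent.W761.Tail (Cvg term A Cvg_congr Cvg_closed)

/-- `E A` plays the role of the event that the set `A` (of finite measure) contains no point of
the Poisson process with intensity `ν`: its probability is `exp (-ν A)`, the event of a union is
the intersection of the events, and `T` acts on the events as `S` acts on the sets. The events
generate the σ-algebra modulo null sets. -/
structure IsVoid {Y X : Type} [MeasurableSpace Y] [MeasurableSpace X] (ν : Measure Y) (S : Y → Y)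
    (μ : Measure X) (T : X → X) (E : Set Y → Set X) : Prop where
  meas : ∀ A, MeasurableSet A → ν A ≠ ∞ → MeasurableSet (E A)
  prob : ∀ A, MeasurableSet A → ν A ≠ ∞ → μ (E A) = ENNReal.ofReal (Real.exp (-(ν A).toReal))
  union : ∀ A B, MeasurableSet A → MeasurableSet B → ν A ≠ ∞ → ν B ≠ ∞ →
    E (A ∪ B) =ᵐ[μ] (E A ∩ E B : Set X)
  equiv : ∀ A, MeasurableSet A → ν A ≠ ∞ → (T ⁻¹' E A : Set X) =ᵐ[μ] E (S ⁻¹' A)
  gen : ∀ C, MeasurableSet C → ∃ D, MeasurableSet[MeasurableSpace.generateFrom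
    {D | ∃ A, MeasurableSet A ∧ ν A ≠ ∞ ∧ D = E A}] D ∧ C =ᵐ[μ] D

/-- The measure preserving system `(X, μ, T)` is a Poisson suspension of the measure preserving
system `(Y, ν, S)` with an infinite or finite measure `ν`. -/
structure IsPoisson {Y X : Type} [MeasurableSpace Y] [MeasurableSpace X] (ν : Measure Y)
    (S : Y → Y) (μ : Measure X) (T : X → X) : Prop where
  base : MeasurePreserving S ν ν
  mp : MeasurePreserving T μ μ
  void : ∃ E : Set Y → Set X, IsVoid ν S μ T E

variable {Y X : Type} [MeasurableSpace Y] [MeasurableSpace X] {ν : Measure Y} {S : Y → Y}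
  {μ : Measure X} {T : X → X} {E : Set Y → Set X}

theorem IsVoid.empty [IsProbabilityMeasure μ] (h : IsVoid ν S μ T E) :
    E ∅ =ᵐ[μ] (univ : Set X) := by
  have h1 := h.prob ∅ MeasurableSet.empty (by simp)
  rw [measure_empty, ENNReal.toReal_zero, neg_zero, Real.exp_zero, ENNReal.ofReal_one] at h1
  rw [ae_eq_univ]
  exact (prob_compl_eq_zero_iff (h.meas ∅ MeasurableSet.empty (by simp))).mpr h1

theorem fin_biUnion {ι : Type*} (I : Finset ι) {B : ι → Set Y} (hf : ∀ i, ν (B i) ≠ ∞) :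
    ν (⋃ i ∈ I, B i) ≠ ∞ := by
  refine ne_top_of_le_ne_top ?_ (measure_biUnion_finset_le I _)
  exact ENNReal.sum_ne_top.mpr fun n _ => hf n

theorem IsVoid.biUnion [IsProbabilityMeasure μ] (h : IsVoid ν S μ T E) {ι : Type*} (I : Finset ι)
    {B : ι → Set Y} (hB : ∀ i, MeasurableSet (B i)) (hf : ∀ i, ν (B i) ≠ ∞) :
    E (⋃ i ∈ I, B i) =ᵐ[μ] (⋂ i ∈ I, E (B i) : Set X) := by
  classical
  induction I using Finset.induction_on with
  | empty => simpa using h.empty
  | insert i I _ ih =>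
    rw [Finset.set_biUnion_insert, Finset.set_biInter_insert]
    exact (h.union _ _ (hB i) (Finset.measurableSet_biUnion _ fun j _ => hB j) (hf i)
      (fin_biUnion I hf)).trans ((ae_eq_refl _).inter ih)

theorem IsVoid.iter (h : IsVoid ν S μ T E) (hS : MeasurePreserving S ν ν)
    (hT : MeasurePreserving T μ μ) (k : ℕ) : ∀ A, MeasurableSet A → ν A ≠ ∞ →
      (T^[k] ⁻¹' E A : Set X) =ᵐ[μ] E (S^[k] ⁻¹' A) := by
  induction k with
  | zero => exact fun A _ _ => ae_eq_refl _
  | succ k ih =>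
    intro A hA hf
    have h1 : (T^[k + 1] ⁻¹' E A : Set X) = T^[k] ⁻¹' (T ⁻¹' E A) := by
      rw [Function.iterate_succ', preimage_comp]
    have h2 : (S^[k + 1] ⁻¹' A : Set Y) = S^[k] ⁻¹' (S ⁻¹' A) := by
      rw [Function.iterate_succ', preimage_comp]
    rw [h1, h2]
    have h3 : (T^[k] ⁻¹' (T ⁻¹' E A) : Set X) =ᵐ[μ] T^[k] ⁻¹' (E (S ⁻¹' A)) :=
      (hT.iterate k).quasiMeasurePreserving.preimage_ae_eq (h.equiv A hA hf)
    refine h3.trans (ih _ (hS.measurable hA) ?_)
    rw [hS.measure_preimage hA.nullMeasurableSet]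
    exact hf

/-- Convergence for void events of the suspension. -/
theorem IsVoid.conv [IsProbabilityMeasure μ] (h : IsVoid ν S μ T E)
    (hS : MeasurePreserving S ν ν) (hT : MeasurePreserving T μ μ) {ν' : ℕ → Measure Y}
    [∀ k, IsFiniteMeasure (ν' k)] (hν : Measure.sum ν' = ν) {y₀ : Y} {m : ℕ} {A : Fin m → Set Y}
    (hA : ∀ j, MeasurableSet (A j)) (hfin : ∀ j, ν (A j) ≠ ∞)
    (hov : ∀ i j : Fin m, i < j → Neg ν' y₀ S (A i) (A j) ((i : ℕ) + 1) ((j : ℕ) + 1)) :
    ∀ᵐ x ∂μ, CvR fun n => ∏ j : Fin m, pv (T^[((j : ℕ) + 1) * (n + 1)] x ∈ E (A j)) := by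
  subst hν
  set ν := Measure.sum ν' with hν
  have hC : ∀ n j, MeasurableSet (Cs S A n j) := fun n j => Cs_meas hS.measurable hA n j
  have hCf : ∀ n j, ν (Cs S A n j) ≠ ∞ := fun n j => by
    rw [hν, Cs_fin hS hA]
    exact hfin j
  let B : ℕ → Set Y := fun n => ⋃ j ∈ (Finset.univ : Finset (Fin m)), Cs S A n j
  have hB : ∀ n, MeasurableSet (B n) := fun n =>
    Finset.measurableSet_biUnion _ fun j _ => hC n j
  have hBf : ∀ n, ν (B n) ≠ ∞ := fun n => fin_biUnion _ (hCf n)
  have h1 := conv_V (y₀ := y₀) hS hA hfin hov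
  have eB : ∀ n, (⋃ j, Cs S A n j) = B n := fun n => by simp [B]
  simp only [eB] at h1
  have h2 : ∀ᵐ x ∂μ, CvR fun n => pv (x ∈ E (B n)) := by
    refine transfer (P := PP ν' y₀) (fun n => V_meas (hB n)) (fun n => h.meas _ (hB n) (hBf n))
      (fun I => ?_) h1
    rw [← V_union, prob_V (Finset.measurableSet_biUnion _ fun n _ => hB n) (fin_biUnion I hBf),
      ← measure_congr (h.biUnion I hB hBf), h.prob _ (Finset.measurableSet_biUnion _ fun n _ => hB n)
      (fin_biUnion I hBf)]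
  have h3 : ∀ᵐ x ∂μ, ∀ n, (x ∈ E (B n)) ↔ ∀ j : Fin m, T^[((j : ℕ) + 1) * (n + 1)] x ∈ E (A j) := by
    rw [ae_all_iff]
    intro n
    have h4 := h.biUnion (Finset.univ : Finset (Fin m)) (hC n) (hCf n)
    have h5 : ∀ᵐ x ∂μ, ∀ j : Fin m, (x ∈ E (Cs S A n j)) ↔
        T^[((j : ℕ) + 1) * (n + 1)] x ∈ E (A j) := by
      rw [ae_all_iff]
      intro j
      have h6 := h.iter hS hT (((j : ℕ) + 1) * (n + 1)) (A j) (hA j) (hfin j)
      filter_upwards [h6] with x hx
      exact (Iff.of_eq hx).symm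
    filter_upwards [h4, h5] with x hx hx'
    have hx2 : (x ∈ E (B n)) ↔ x ∈ ⋂ i ∈ (Finset.univ : Finset (Fin m)), E (Cs S A n i) :=
      Iff.of_eq hx
    rw [hx2]
    simp only [Finset.mem_univ, iInter_true, mem_iInter]
    exact forall_congr' hx'
  filter_upwards [h2, h3] with x hx hx'
  have e : (fun n => ∏ j : Fin m, pv (T^[((j : ℕ) + 1) * (n + 1)] x ∈ E (A j))) =
      fun n => pv (x ∈ E (B n)) := by
    funext n
    rw [hx' n]
    by_cases h7 : ∀ j : Fin m, T^[((j : ℕ) + 1) * (n + 1)] x ∈ E (A j)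
    · rw [pv_true h7]
      exact Finset.prod_eq_one fun j _ => pv_true (h7 j)
    · rw [pv_false h7]
      rw [not_forall] at h7
      obtain ⟨j, hj⟩ := h7
      exact Finset.prod_eq_zero (Finset.mem_univ j) (pv_false hj)
  rw [e]
  exact hx

theorem CvR_complex {a : ℕ → ℝ} (h : CvR a) :
    ∃ L : ℂ, Tendsto (A fun n => (a n : ℂ)) atTop (𝓝 L) := by
  obtain ⟨L, hL⟩ := h
  refine ⟨L, ((Complex.continuous_ofReal.tendsto L).comp hL).congr fun N => ?_⟩
  simp only [Function.comp_apply, Av, A]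
  push_cast
  rfl

theorem IsVoid.Cvg [IsProbabilityMeasure μ] (h : IsVoid ν S μ T E)
    (hS : MeasurePreserving S ν ν) (hT : MeasurePreserving T μ μ) {ν' : ℕ → Measure Y}
    [∀ k, IsFiniteMeasure (ν' k)] (hν : Measure.sum ν' = ν) {y₀ : Y} {m : ℕ} {A : Fin m → Set Y}
    (hA : ∀ j, MeasurableSet (A j)) (hfin : ∀ j, ν (A j) ≠ ∞)
    (hov : ∀ i j : Fin m, i < j → Neg ν' y₀ S (A i) (A j) ((i : ℕ) + 1) ((j : ℕ) + 1)) :
    Cvg μ T fun j => (E (A j)).indicator fun _ => 1 := by
  filter_upwards [h.conv hS hT hν hA hfin hov] with x hx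
  obtain ⟨L, hL⟩ := CvR_complex hx
  refine ⟨L, hL.congr fun N => ?_⟩
  congr 1
  funext n
  rw [term]
  push_cast
  refine Finset.prod_congr rfl fun j _ => ?_
  by_cases h1 : T^[((j : ℕ) + 1) * (n + 1)] x ∈ E (A j)
  · rw [pv_true h1, indicator_of_mem h1]
    simp
  · rw [pv_false h1, indicator_of_notMem h1]
    simp

/-- The distance of void events. -/
theorem IsVoid.dist [IsProbabilityMeasure μ] (h : IsVoid ν S μ T E) {A B : Set Y}
    (hA : MeasurableSet A) (hB : MeasurableSet B) (hAf : ν A ≠ ∞) (hBf : ν B ≠ ∞) :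
    ∫ x, ‖(E A).indicator (fun _ => (1 : ℂ)) x - (E B).indicator (fun _ => (1 : ℂ)) x‖ ∂μ ≤
      (ν (A ∆ B)).toReal := by
  have hmA := h.meas A hA hAf
  have hmB := h.meas B hB hBf
  have hU : ν (A ∪ B) ≠ ∞ := (measure_union_lt_top hAf.lt_top hBf.lt_top).ne
  have hr : ∀ C, MeasurableSet C → ν C ≠ ∞ → μ.real (E C) = Real.exp (-(ν C).toReal) := by
    intro C hC hCf
    rw [measureReal_def, h.prob C hC hCf, ENNReal.toReal_ofReal (Real.exp_pos _).le]
  have e1 : ∀ x, ‖(E A).indicator (fun _ => (1 : ℂ)) x - (E B).indicator (fun _ => (1 : ℂ)) x‖ =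
      (E A ∆ E B).indicator 1 x := by
    intro x
    by_cases h1 : x ∈ E A <;> by_cases h2 : x ∈ E B <;>
      simp [h1, h2, Set.mem_symmDiff, Set.indicator]
  simp only [e1]
  rw [integral_indicator_one (hmA.symmDiff hmB)]
  have e2 : μ.real (E A ∆ E B) = μ.real (E A \ E B) + μ.real (E B \ E A) := by
    rw [Set.symmDiff_def, measureReal_union (disjoint_sdiff_sdiff) (hmB.diff hmA)]
  have e3 : ∀ C D, MeasurableSet C → MeasurableSet D → ν C ≠ ∞ → ν D ≠ ∞ →
      μ.real (E C \ E D) ≤ (ν (D \ C)).toReal := by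
    intro C D hC hD hCf hDf
    have hCD : ν (C ∪ D) ≠ ∞ := (measure_union_lt_top hCf.lt_top hDf.lt_top).ne
    have e4 : μ.real (E C \ E D) = μ.real (E C) - μ.real (E C ∩ E D) := by
      have := measureReal_inter_add_sdiff (μ := μ) (s := E C) (h.meas D hD hDf)
      linarith
    have e5 : μ.real (E C ∩ E D) = Real.exp (-(ν (C ∪ D)).toReal) := by
      rw [← hr _ (hC.union hD) hCD, measureReal_congr (h.union C D hC hD hCf hDf)]
    have e6 : (ν (C ∪ D)).toReal = (ν C).toReal + (ν (D \ C)).toReal := by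
      rw [← union_sdiff_self, measure_union disjoint_sdiff_right (hD.diff hC),
        ENNReal.toReal_add hCf (ne_top_of_le_ne_top hDf (measure_mono sdiff_subset))]
    rw [e4, e5, hr C hC hCf, e6, neg_add, Real.exp_add]
    set c := (ν C).toReal
    set d := (ν (D \ C)).toReal
    have hc : 0 ≤ c := ENNReal.toReal_nonneg
    have hd : 0 ≤ d := ENNReal.toReal_nonneg
    have h7 := Real.add_one_le_exp (-d)
    have h8 : Real.exp (-c) ≤ 1 := Real.exp_le_one_iff.mpr (by linarith)
    have h9 := Real.exp_pos (-c)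
    have h10 : Real.exp (-d) ≤ 1 := Real.exp_le_one_iff.mpr (by linarith)
    nlinarith
  have e7 : (ν (A ∆ B)).toReal = (ν (B \ A)).toReal + (ν (A \ B)).toReal := by
    rw [Set.symmDiff_def, measure_union disjoint_sdiff_sdiff (hB.diff hA),
      ENNReal.toReal_add (ne_top_of_le_ne_top hAf (measure_mono sdiff_subset))
        (ne_top_of_le_ne_top hBf (measure_mono sdiff_subset)), add_comm]
  rw [e2, e7]
  exact add_le_add (e3 A B hA hB hAf hBf) (e3 B A hB hA hBf hAf)

/-- Convergence for all bounded functions, if the overlaps are negligible for a dense family of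
sets. -/
theorem IsPoisson.conv [IsProbabilityMeasure μ] (h : IsPoisson ν S μ T) {ν' : ℕ → Measure Y}
    [∀ k, IsFiniteMeasure (ν' k)] (hν : Measure.sum ν' = ν) {y₀ : Y} {ℛ : Set (Set Y)}
    (hℛ : ∀ A ∈ ℛ, MeasurableSet A ∧ ν A ≠ ∞)
    (hd : ∀ A, MeasurableSet A → ν A ≠ ∞ → ∀ ε : ℝ, 0 < ε → ∃ B ∈ ℛ, (ν (A ∆ B)).toReal ≤ ε)
    (hov : ∀ A ∈ ℛ, ∀ B ∈ ℛ, ∀ a b : ℕ, 0 < a → a < b → Neg ν' y₀ S A B a b)
    {m : ℕ} {f : Fin m → X → ℂ} (hf : ∀ j, BM (f j)) : Cvg μ T f := by
  obtain ⟨E, hE⟩ := h.void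
  have hS := h.base
  have hT := h.mp
  have h1 : ∀ A : Fin m → Set Y, (∀ j, MeasurableSet (A j)) → (∀ j, ν (A j) ≠ ∞) →
      Cvg μ T fun j => (E (A j)).indicator fun _ => 1 := by
    intro A hA hAf
    refine Cvg_closed (C := 1) hT (fun j => measurable_const.indicator (hE.meas _ (hA j) (hAf j)))
      (fun j x => (norm_indicator_le_norm_self _ _).trans (by simp)) fun ε hε => ?_
    choose B hB hAB using fun j => hd (A j) (hA j) (hAf j) ε hε
    refine ⟨0, fun j => (E (B j)).indicator fun _ => 1, fun j => measurable_const.indicator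
      (hE.meas _ (hℛ _ (hB j)).1 (hℛ _ (hB j)).2), fun j x =>
      (norm_indicator_le_norm_self _ _).trans (by simp), fun j => ?_, ?_⟩
    · exact (hE.dist (hA j) (hℛ _ (hB j)).1 (hAf j) (hℛ _ (hB j)).2).trans (hAB j)
    · refine hE.Cvg (y₀ := y₀) hS hT hν (fun j => (hℛ _ (hB j)).1) (fun j => (hℛ _ (hB j)).2)
        fun i j hij => ?_
      exact hov _ (hB i) _ (hB j) _ _ (Nat.succ_pos _) (Nat.succ_lt_succ hij)
  let 𝒬 : Set (Set X) := {D | MeasurableSet D ∧ ∃ A, MeasurableSet A ∧ ν A ≠ ∞ ∧ D =ᵐ[μ] E A}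
  refine ext_pi hT (𝒬 := 𝒬) (fun D hD => hD.1) ?_ ?_ ?_ ?_ hf
  · rintro D ⟨hD, A, hA, hAf, eA⟩ D' ⟨hD', A', hA', hAf', eA'⟩ _
    refine ⟨hD.inter hD', A ∪ A', hA.union hA', (measure_union_lt_top hAf.lt_top hAf'.lt_top).ne,
      (eA.inter eA').trans (hE.union A A' hA hA' hAf hAf').symm⟩
  · exact ⟨MeasurableSet.univ, ∅, MeasurableSet.empty, by simp, hE.empty.symm⟩
  · intro C hC
    obtain ⟨D, hD, e⟩ := hE.gen C hC
    refine ⟨D, ?_, e⟩
    refine (MeasurableSpace.generateFrom_mono ?_) D hD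
    rintro _ ⟨A, hA, hAf, rfl⟩
    exact ⟨hE.meas A hA hAf, A, hA, hAf, ae_eq_refl _⟩
  · intro D hD
    choose A hA hAf eA using fun j => (hD j).2
    refine Cvg_congr hT (fun j => ?_) (h1 A hA hAf)
    exact indicator_ae_eq_of_ae_eq_set (eA j).symm

end Pool.Agent.TH739.Poi

end

end

/-! ## Existence of Poisson suspensions -/

section

open Filter Topology MeasureTheory Set
open scoped ENNReal NNReal symmDiff

noncomputable section

namespace Pool.Agent.TH739.Poi

/-- the space of configurations with the σ-algebra generated by the void events -/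
def Conf {Y : Type} [MeasurableSpace Y] (_ : Measure Y) : Type := Om Y

instance {Y : Type} [MeasurableSpace Y] (ν : Measure Y) : MeasurableSpace (Conf ν) :=
  MeasurableSpace.generateFrom {D : Set (Om Y) | ∃ A, MeasurableSet A ∧ ν A ≠ ∞ ∧ D = V A}

/-- void events -/
def VC {Y : Type} [MeasurableSpace Y] (ν : Measure Y) (A : Set Y) : Set (Conf ν) := V (Y := Y) A

/-- the action of a map on the configurations -/
def actC {Y : Type} [MeasurableSpace Y] (ν : Measure Y) (S : Y → Y) (ω : Conf ν) : Conf ν :=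
  fun k => ((ω k).1, fun l => S ((ω k).2 l))

/-- **Existence of the Poisson suspension** of a measure preserving map of an s-finite measure. -/
theorem exists_isPoisson {Y : Type} [MeasurableSpace Y] [Nonempty Y] (ν : Measure Y) [SFinite ν]
    (S : Y → Y) (hS : MeasurePreserving S ν ν) :
    ∃ (X : Type) (_ : MeasurableSpace X) (μ : Measure X) (T : X → X),
      IsProbabilityMeasure μ ∧ IsPoisson ν S μ T := by
  obtain ⟨y₀⟩ := (inferInstance : Nonempty Y)
  let ρ : ℕ → Measure Y := sfiniteSeq ν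
  have hρ : Measure.sum ρ = ν := sum_sfiniteSeq ν
  have hV : ∀ A, MeasurableSet A → ν A ≠ ∞ →
      PP ρ y₀ (V A) = ENNReal.ofReal (Real.exp (-(ν A).toReal)) := by
    intro A hA hf
    have := prob_V (ν := ρ) (y₀ := y₀) hA (by rwa [hρ])
    rwa [hρ] at this
  let ι : Om Y → Conf ν := fun ω => ω
  have hι : Measurable ι := by
    refine measurable_generateFrom ?_
    rintro _ ⟨A, hA, _, rfl⟩
    exact V_meas hA
  let μ : Measure (Conf ν) := (PP ρ y₀).map ι
  have hgenm : ∀ A, MeasurableSet A → ν A ≠ ∞ → MeasurableSet (VC ν A) := fun A hA hf =>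
    MeasurableSpace.measurableSet_generateFrom ⟨A, hA, hf, rfl⟩
  have hμ : ∀ A, MeasurableSet A → ν A ≠ ∞ →
      μ (VC ν A) = ENNReal.ofReal (Real.exp (-(ν A).toReal)) := by
    intro A hA hf
    rw [← hV A hA hf]
    exact Measure.map_apply hι (hgenm A hA hf)
  have hprob : IsProbabilityMeasure μ := Measure.isProbabilityMeasure_map hι.aemeasurable
  have hact : ∀ A, actC ν S ⁻¹' VC ν A = VC ν (S ⁻¹' A) := fun A => rfl
  have hfin : ∀ A, MeasurableSet A → ν A ≠ ∞ → ν (S ⁻¹' A) ≠ ∞ := fun A hA hf => by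
    rwa [hS.measure_preimage hA.nullMeasurableSet]
  have hmeas : Measurable (actC ν S) := by
    refine measurable_generateFrom ?_
    rintro _ ⟨A, hA, hf, rfl⟩
    exact hgenm _ (hS.measurable hA) (hfin A hA hf)
  have hunion : ∀ A B : Set Y, VC ν (A ∪ B) = VC ν A ∩ VC ν B := by
    intro A B
    ext ω
    exact ⟨fun h => ⟨fun k l hl hx => h k l hl (Or.inl hx), fun k l hl hx => h k l hl (Or.inr hx)⟩,
      fun h k l hl hx => hx.elim (h.1 k l hl) (h.2 k l hl)⟩
  refine ⟨Conf ν, inferInstance, μ, actC ν S, hprob, hS, ⟨hmeas, ?_⟩, VC ν, hgenm, hμ, ?_, ?_, ?_⟩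
  · have hpi : IsPiSystem {D : Set (Conf ν) | ∃ A, MeasurableSet A ∧ ν A ≠ ∞ ∧ D = VC ν A} := by
      rintro _ ⟨A, hA, hf, rfl⟩ _ ⟨B, hB, hg, rfl⟩ _
      exact ⟨A ∪ B, hA.union hB, (measure_union_lt_top hf.lt_top hg.lt_top).ne, (hunion A B).symm⟩
    have hp2 : IsProbabilityMeasure (μ.map (actC ν S)) :=
      Measure.isProbabilityMeasure_map hmeas.aemeasurable
    refine ext_of_generate_finite _ rfl hpi ?_ ?_
    · rintro _ ⟨A, hA, hf, rfl⟩
      show (μ.map (actC ν S)) (VC ν A) = μ (VC ν A)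
      rw [Measure.map_apply hmeas (hgenm A hA hf), hact, hμ A hA hf,
        hμ (S ⁻¹' A) (hS.measurable hA) (hfin A hA hf), hS.measure_preimage hA.nullMeasurableSet]
    · rw [measure_univ, measure_univ]
  · intro A B hA hB hf hg
    exact Filter.EventuallyEq.of_eq (hunion A B)
  · intro A hA hf
    exact Filter.EventuallyEq.of_eq (hact A)
  · intro C hC
    exact ⟨C, hC, Filter.EventuallyEq.refl _ _⟩

end Pool.Agent.TH739.Poi

end

end

/-! ## The two sufficient conditions for negligible overlaps -/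

section

open Filter Topology MeasureTheory Set
open scoped ENNReal NNReal symmDiff

noncomputable section

namespace Pool.Agent.TH739.Poi

/-- The condition of logarithmic rate: there is a family of sets of finite measure, dense among all
such sets, such that for `A`, `B` in the family there are a set `Z` of times of density zero and
`c > 0` with `(1/N) ∑_{n < N, n ∉ Z} ν (A ∩ S^{-n} B) ≤ (log N)^{-c}` for all large `N`. -/
def HasRate {Y : Type} [MeasurableSpace Y] (ν : Measure Y) (S : Y → Y) : Prop :=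
  ∃ ℛ : Set (Set Y), (∀ A ∈ ℛ, MeasurableSet A ∧ ν A ≠ ∞) ∧
    (∀ A, MeasurableSet A → ν A ≠ ∞ → ∀ ε : ℝ, 0 < ε → ∃ B ∈ ℛ, (ν (A ∆ B)).toReal ≤ ε) ∧
    ∀ A ∈ ℛ, ∀ B ∈ ℛ, ∃ (Z : Set ℕ) (c : ℝ), 0 < c ∧
      Tendsto (fun N : ℕ => (N : ℝ)⁻¹ * ∑ n ∈ Finset.range N, Z.indicator (fun _ => (1 : ℝ)) n)
        atTop (𝓝 0) ∧
      ∀ᶠ N : ℕ in atTop, (N : ℝ)⁻¹ * ∑ n ∈ Finset.range N,
        Zᶜ.indicator (fun n => (ν (A ∩ S^[n] ⁻¹' B)).toReal) n ≤ Real.log N ^ (-c)

theorem ind_pv (Z : Set ℕ) (n : ℕ) : Z.indicator (fun _ => (1 : ℝ)) n = pv (n ∈ Z) := by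
  by_cases h : n ∈ Z
  · rw [indicator_of_mem h, pv_true h]
  · rw [indicator_of_notMem h, pv_false h]

theorem ind_pv' (Z : Set ℕ) (f : ℕ → ℝ) (n : ℕ) : Zᶜ.indicator f n = (1 - pv (n ∈ Z)) * f n := by
  by_cases h : n ∈ Z
  · rw [indicator_of_notMem (by simpa using h), pv_true h, sub_self, zero_mul]
  · rw [indicator_of_mem (by simpa using h), pv_false h, sub_zero, one_mul]

theorem log_tend {c : ℝ} (hc : 0 < c) : Tendsto (fun N : ℕ => Real.log N ^ (-c)) atTop (𝓝 0) :=
  (tendsto_rpow_neg_atTop hc).comp (Real.tendsto_log_atTop.comp tendsto_natCast_atTop_atTop)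

/-- The rate implies that the averages tend to zero. -/
theorem null_of_rate {α : ℕ → ℝ} (h0 : ∀ n, 0 ≤ α n) {K : ℝ} (hK : ∀ n, α n ≤ K) {Z : Set ℕ}
    (hZ : Tendsto (Av fun n => pv (n ∈ Z)) atTop (𝓝 0)) {c : ℝ} (hc : 0 < c)
    (hr : ∀ᶠ N : ℕ in atTop, Av (fun n => (1 - pv (n ∈ Z)) * α n) N ≤ Real.log N ^ (-c)) :
    Tendsto (Av α) atTop (𝓝 0) := by
  have hK0 : 0 ≤ K := (h0 0).trans (hK 0)
  have h1 : Tendsto (fun N : ℕ => K * Av (fun n => pv (n ∈ Z)) N + Real.log N ^ (-c)) atTop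
      (𝓝 (K * 0 + 0)) := (hZ.const_mul K).add (log_tend hc)
  rw [mul_zero, zero_add] at h1
  refine squeeze_zero' (Eventually.of_forall fun N => Av_nonneg h0 N) ?_ h1
  filter_upwards [hr] with N hN
  have h2 : Av α N ≤ Av (fun n => K * pv (n ∈ Z) + (1 - pv (n ∈ Z)) * α n) N := by
    refine Av_mono (fun n => ?_) N
    have := hK n
    have h3 := pv_nonneg (n ∈ Z)
    nlinarith
  refine h2.trans ?_
  rw [Av_add]
  have h3 : Av (fun n => K * pv (n ∈ Z)) N = K * Av (fun n => pv (n ∈ Z)) N := by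
    unfold Av
    rw [← Finset.mul_sum]
    ring
  rw [h3]
  linarith

/-- The rate implies the summability along dyadic times. -/
theorem summable_of_rate {α : ℕ → ℝ} (h0 : ∀ n, 0 ≤ α n) {Z : Set ℕ} {c : ℝ} (hc : 0 < c)
    (hr : ∀ᶠ N : ℕ in atTop, Av (fun n => (1 - pv (n ∈ Z)) * α n) N ≤ Real.log N ^ (-c)) {r : ℕ}
    (hr0 : 0 < r) : ∃ p : ℕ, 0 < p ∧ Summable fun k : ℕ => ((2 ^ k : ℝ)⁻¹ *
      ∑ n ∈ Finset.range (2 ^ k), (1 - pv (r * (n + 1) ∈ Z)) * α (r * (n + 1))) ^ p := by
  obtain ⟨p, hp⟩ := exists_nat_ge (2 / c)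
  have hp0 : 0 < p := by
    by_contra h
    have : p = 0 := by omega
    rw [this, Nat.cast_zero] at hp
    have : 0 < 2 / c := by positivity
    linarith
  have hcp : 2 ≤ c * p := by
    rw [div_le_iff₀ hc] at hp
    linarith
  refine ⟨p, hp0, ?_⟩
  let β : ℕ → ℝ := fun n => (1 - pv (n ∈ Z)) * α n
  have hβ : ∀ n, 0 ≤ β n := fun n => mul_nonneg (by linarith [pv_le (n ∈ Z)]) (h0 n)
  obtain ⟨N₀, hN₀⟩ := eventually_atTop.mp hr
  let D : ℝ := (r + 1) * Real.log 2 ^ (-c)
  have hlog2 : 0 < Real.log 2 := Real.log_pos one_lt_two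
  have hbound : ∀ k : ℕ, max N₀ 1 ≤ k → (2 ^ k : ℝ)⁻¹ * ∑ n ∈ Finset.range (2 ^ k),
      β (r * (n + 1)) ≤ D * (k : ℝ) ^ (-c) := by
    intro k hk
    have hk1 : 1 ≤ k := (le_max_right _ _).trans hk
    have hk0 : (0 : ℝ) < k := by exact_mod_cast hk1
    have h1 : ∑ n ∈ Finset.range (2 ^ k), β (r * (n + 1)) ≤
        ∑ n ∈ Finset.range (r * 2 ^ k + 1), β n := by
      refine sum_inj_le hβ (e := fun n => r * (n + 1)) (fun x y h => ?_) fun n hn => ?_
      · have h3 : r * (x + 1) = r * (y + 1) := h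
        have := Nat.eq_of_mul_eq_mul_left hr0 h3
        omega
      · show r * (n + 1) < r * 2 ^ k + 1
        have : r * (n + 1) ≤ r * 2 ^ k := Nat.mul_le_mul_left _ (by omega)
        omega
    have h2k : k < 2 ^ k := Nat.lt_pow_self one_lt_two
    have hN : N₀ ≤ r * 2 ^ k + 1 := by
      have : N₀ ≤ k := (le_max_left _ _).trans hk
      nlinarith
    have h2 := hN₀ _ hN
    unfold Av at h2
    have hpos : (0 : ℝ) < ((r * 2 ^ k + 1 : ℕ) : ℝ) := by positivity
    rw [inv_mul_le_iff₀ hpos] at h2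
    have h3 : Real.log ((r * 2 ^ k + 1 : ℕ) : ℝ) ^ (-c) ≤ (k * Real.log 2) ^ (-c) := by
      refine Real.rpow_le_rpow_of_nonpos (by positivity) ?_ (by linarith)
      rw [← Real.log_pow]
      refine Real.log_le_log (by positivity) ?_
      push_cast
      have : (1 : ℝ) ≤ r := by exact_mod_cast hr0
      have h5 : (0 : ℝ) < 2 ^ k := by positivity
      nlinarith
    rw [Real.mul_rpow hk0.le hlog2.le] at h3
    have h4 : ((r * 2 ^ k + 1 : ℕ) : ℝ) ≤ (r + 1) * 2 ^ k := by
      push_cast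
      have : (1 : ℝ) ≤ 2 ^ k := one_le_pow₀ one_le_two
      linarith
    rw [inv_mul_le_iff₀ (by positivity)]
    refine h1.trans (h2.trans ?_)
    have h5 : 0 ≤ (k : ℝ) ^ (-c) * Real.log 2 ^ (-c) := by positivity
    calc ((r * 2 ^ k + 1 : ℕ) : ℝ) * Real.log ((r * 2 ^ k + 1 : ℕ) : ℝ) ^ (-c)
        ≤ ((r + 1) * 2 ^ k) * ((k : ℝ) ^ (-c) * Real.log 2 ^ (-c)) :=
          mul_le_mul h4 h3 (Real.rpow_nonneg (Real.log_nonneg (by
            exact_mod_cast Nat.succ_le_succ (Nat.zero_le _))) _) (by positivity)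
      _ = 2 ^ k * (D * (k : ℝ) ^ (-c)) := by
          simp only [D]
          ring
  have hs : Summable fun k : ℕ => D ^ p * (k : ℝ) ^ (-(c * p)) := by
    refine Summable.mul_left _ ?_
    exact Real.summable_nat_rpow.mpr (by linarith)
  rw [← summable_nat_add_iff (max N₀ 1)] at hs ⊢
  refine Summable.of_nonneg_of_le (fun k => ?_) (fun k => ?_) hs
  · exact pow_nonneg (mul_nonneg (by positivity) (Finset.sum_nonneg fun n _ => hβ _)) _
  · have h1 := hbound (k + max N₀ 1) (Nat.le_add_left _ _)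
    have h2 := pow_le_pow_left₀ (mul_nonneg (by positivity)
      (Finset.sum_nonneg fun n _ => hβ (r * (n + 1)))) h1 p
    refine h2.trans (le_of_eq ?_)
    rw [mul_pow, ← Real.rpow_natCast (((k + max N₀ 1 : ℕ) : ℝ) ^ (-c)) p,
      ← Real.rpow_mul (by positivity)]
    congr 2
    ring

variable {Y X : Type} [MeasurableSpace Y] [MeasurableSpace X] {ν : Measure Y} {S : Y → Y}
  {μ : Measure X} {T : X → X} {E : Set Y → Set X}

/-- measure of the overlap -/
theorem ovl_meas (hS : MeasurePreserving S ν ν) {A B : Set Y} (hA : MeasurableSet A)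
    (hB : MeasurableSet B) {a b : ℕ} (hab : a < b) (n : ℕ) :
    ν (S^[a * (n + 1)] ⁻¹' A ∩ S^[b * (n + 1)] ⁻¹' B) =
      ν (A ∩ S^[(b - a) * (n + 1)] ⁻¹' B) := by
  have e : S^[a * (n + 1)] ⁻¹' A ∩ S^[b * (n + 1)] ⁻¹' B =
      S^[a * (n + 1)] ⁻¹' (A ∩ S^[(b - a) * (n + 1)] ⁻¹' B) := by
    ext y
    simp only [mem_inter_iff, mem_preimage]
    rw [← Function.iterate_add_apply, ← Nat.add_mul, Nat.sub_add_cancel hab.le]
  rw [e, (hS.iterate _).measure_preimage (hA.inter
    ((hS.measurable.iterate _) hB)).nullMeasurableSet]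

/-- An ergodic Poisson suspension comes from a null transformation. -/
theorem IsVoid.null [IsProbabilityMeasure μ] (h : IsVoid ν S μ T E)
    (hS : MeasurePreserving S ν ν) (herg : Ergodic T μ) {A B : Set Y}
    (hA : MeasurableSet A) (hB : MeasurableSet B) (hAf : ν A ≠ ∞) (hBf : ν B ≠ ∞) :
    Tendsto (Av fun n => (ν (A ∩ S^[n] ⁻¹' B)).toReal) atTop (𝓝 0) := by
  have hT := herg.toMeasurePreserving
  have hmA := h.meas A hA hAf
  have hmB := h.meas B hB hBf
  let f : X → ℝ := fun x => pv (x ∈ E B)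
  have hfm : Measurable f := pv_mem_meas hmB
  have hb := H165R3.BPE.birkhoff hT f hfm 1 fun x => by
    rw [abs_of_nonneg (pv_nonneg _)]
    exact pv_le _
  set g := μ[f | MeasurableSpace.invariants T] with hg
  have hgm : Measurable[MeasurableSpace.invariants T] g := stronglyMeasurable_condExp.measurable
  obtain ⟨c, hc⟩ := herg.toPreErgodic.ae_eq_const_of_ae_eq_comp
    (hgm.mono (MeasurableSpace.invariants_le T) le_rfl)
    (MeasurableSpace.comp_eq_of_measurable_invariants hgm)
  have hpi : ∀ D, MeasurableSet D → ∫ x, pv (x ∈ D) ∂μ = (μ D).toReal := fun D hD =>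
    (pv_int hD (measure_ne_top μ D)).2
  have hc2 : c = (μ (E B)).toReal := by
    have h1 : ∫ x, g x ∂μ = ∫ x, f x ∂μ := integral_condExp (MeasurableSpace.invariants_le T)
    rw [hpi _ hmB, integral_congr_ae hc] at h1
    simpa using h1
  set α := (ν A).toReal
  set β := (ν B).toReal
  have e1 : ∀ n, ν (S^[n] ⁻¹' B) = ν B := fun n =>
    (hS.iterate n).measure_preimage hB.nullMeasurableSet
  have e2 : ∀ n : ℕ, (μ (E A ∩ T^[n] ⁻¹' E B)).toReal =
      Real.exp (-α) * Real.exp (-β) * Real.exp (ν (A ∩ S^[n] ⁻¹' B)).toReal := by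
    intro n
    have hBn : MeasurableSet (S^[n] ⁻¹' B) := (hS.measurable.iterate n) hB
    have hBnf : ν (S^[n] ⁻¹' B) ≠ ∞ := by
      rw [e1]
      exact hBf
    have h1 : (E A ∩ T^[n] ⁻¹' E B : Set X) =ᵐ[μ] E (A ∪ S^[n] ⁻¹' B) :=
      ((ae_eq_refl _).inter (h.iter hS hT n B hB hBf)).trans
        (h.union A _ hA hBn hAf hBnf).symm
    rw [measure_congr h1, h.prob _ (hA.union hBn)
      (measure_union_lt_top hAf.lt_top hBnf.lt_top).ne, ENNReal.toReal_ofReal (Real.exp_pos _).le,
      ← Real.exp_add, ← Real.exp_add]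
    congr 1
    have h2 := measure_union_add_inter (μ := ν) A hBn
    have hU : ν (A ∪ S^[n] ⁻¹' B) ≠ ∞ := (measure_union_lt_top hAf.lt_top hBnf.lt_top).ne
    have hI : ν (A ∩ S^[n] ⁻¹' B) ≠ ∞ := ne_top_of_le_ne_top hAf (measure_mono inter_subset_left)
    have h3 := congrArg ENNReal.toReal h2
    rw [ENNReal.toReal_add hU hI, ENNReal.toReal_add hAf hBnf, e1] at h3
    linarith
  have h1 : Tendsto (Av fun n => (μ (E A ∩ T^[n] ⁻¹' E B)).toReal) atTop
      (𝓝 ((μ (E A)).toReal * c)) := by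
    have h2 := tendsto_integral_of_dominated_convergence (μ := μ)
      (F := fun N x => pv (x ∈ E A) * ((N : ℝ)⁻¹ * ∑ k ∈ Finset.range N, f (T^[k] x)))
      (f := fun x => pv (x ∈ E A) * c) (fun _ => (1 : ℝ)) (fun N => by
        refine ((pv_mem_meas hmA).mul ((Finset.measurable_fun_sum _ fun k _ =>
          hfm.comp (hT.measurable.iterate k)).const_mul _)).aestronglyMeasurable)
      (integrable_const _) (fun N => Eventually.of_forall fun x => by
        have h3 := Av_le (a := fun k => f (T^[k] x)) (fun n => pv_nonneg _) (fun n => pv_le _) N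
        have h4 : 0 ≤ (N : ℝ)⁻¹ * ∑ k ∈ Finset.range N, f (T^[k] x) := h3.1
        have h5 : (N : ℝ)⁻¹ * ∑ k ∈ Finset.range N, f (T^[k] x) ≤ 1 := h3.2
        rw [Real.norm_of_nonneg (mul_nonneg (pv_nonneg _) h4)]
        exact mul_le_one₀ (pv_le _) h4 h5) (by
        filter_upwards [hb, hc] with x hx hx'
        rw [hx'] at hx
        exact hx.const_mul _)
    rw [integral_mul_const, hpi _ hmA] at h2
    refine h2.congr fun N => ?_
    have h3 : ∀ x, pv (x ∈ E A) * ((N : ℝ)⁻¹ * ∑ k ∈ Finset.range N, f (T^[k] x)) =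
        (N : ℝ)⁻¹ * ∑ k ∈ Finset.range N, pv (x ∈ E A ∩ T^[k] ⁻¹' E B) := by
      intro x
      rw [← mul_assoc, mul_comm (pv _), mul_assoc, Finset.mul_sum]
      congr 1
      refine Finset.sum_congr rfl fun k _ => ?_
      exact pv_mul _ _
    simp only [h3]
    rw [integral_const_mul, integral_finsetSum _ fun k _ =>
      (pv_int (hmA.inter ((hT.measurable.iterate k) hmB)) (measure_ne_top _ _)).1]
    unfold Av
    congr 1
    refine Finset.sum_congr rfl fun k _ => ?_
    exact hpi _ (hmA.inter ((hT.measurable.iterate k) hmB))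
  have hcβ : (μ (E A)).toReal * c = Real.exp (-α) * Real.exp (-β) := by
    rw [hc2, h.prob A hA hAf, h.prob B hB hBf, ENNReal.toReal_ofReal (Real.exp_pos _).le,
      ENNReal.toReal_ofReal (Real.exp_pos _).le]
  rw [hcβ] at h1
  set κ := Real.exp (-α) * Real.exp (-β) with hκ
  have hκ0 : 0 < κ := by positivity
  simp only [e2] at h1
  have h4 : Tendsto (fun N => κ⁻¹ * (Av (fun n => κ * Real.exp (ν (A ∩ S^[n] ⁻¹' B)).toReal) N -
      κ * (N : ℝ)⁻¹ * N)) atTop (𝓝 (κ⁻¹ * (κ - κ))) := by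
    refine (h1.sub ?_).const_mul _
    refine tendsto_const_nhds.congr' ?_
    filter_upwards [eventually_ge_atTop 1] with N hN
    have : (N : ℝ) ≠ 0 := by
      have : N ≠ 0 := by omega
      exact_mod_cast this
    field_simp
  rw [sub_self, mul_zero] at h4
  refine squeeze_zero (fun N => Av_nonneg (fun n => ENNReal.toReal_nonneg) N) (fun N => ?_) h4
  unfold Av
  rw [← Finset.mul_sum]
  have h5 : κ⁻¹ * ((N : ℝ)⁻¹ * (κ * ∑ n ∈ Finset.range N,
      Real.exp (ν (A ∩ S^[n] ⁻¹' B)).toReal) - κ * (N : ℝ)⁻¹ * N) =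
      (N : ℝ)⁻¹ * (∑ n ∈ Finset.range N, Real.exp (ν (A ∩ S^[n] ⁻¹' B)).toReal - N) := by
    field_simp
  rw [h5]
  refine mul_le_mul_of_nonneg_left ?_ (by positivity)
  have h6 : ∑ n ∈ Finset.range N, ((ν (A ∩ S^[n] ⁻¹' B)).toReal + 1) ≤
      ∑ n ∈ Finset.range N, Real.exp (ν (A ∩ S^[n] ⁻¹' B)).toReal :=
    Finset.sum_le_sum fun n _ => Real.add_one_le_exp _
  rw [Finset.sum_add_distrib, Finset.sum_const, Finset.card_range, nsmul_eq_mul, mul_one] at h6
  linarith

/-- **The dense family with negligible overlaps.** -/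
theorem family [IsProbabilityMeasure μ] (h : IsPoisson ν S μ T)
    (hcond : HasRate ν S ∨ (BourgainTheorem ∧ Ergodic T μ)) {ν' : ℕ → Measure Y}
    [∀ k, IsFiniteMeasure (ν' k)] (hν : Measure.sum ν' = ν) (y₀ : Y) :
    ∃ ℛ : Set (Set Y), (∀ A ∈ ℛ, MeasurableSet A ∧ ν A ≠ ∞) ∧
      (∀ A, MeasurableSet A → ν A ≠ ∞ → ∀ ε : ℝ, 0 < ε → ∃ B ∈ ℛ, (ν (A ∆ B)).toReal ≤ ε) ∧
      ∀ A ∈ ℛ, ∀ B ∈ ℛ, ∀ a b : ℕ, 0 < a → a < b → Neg ν' y₀ S A B a b := by
  subst hν
  have hS := h.base
  rcases hcond with ⟨ℛ, h1, h2, h3⟩ | ⟨hB, herg⟩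
  · refine ⟨ℛ, h1, h2, fun A hA B hB a b ha hab => ?_⟩
    obtain ⟨hAm, hAf⟩ := h1 A hA
    obtain ⟨hBm, hBf⟩ := h1 B hB
    have hconv : ∀ A' ∈ ℛ, ∃ (Z : Set ℕ) (c : ℝ), 0 < c ∧
        Tendsto (Av fun n => pv (n ∈ Z)) atTop (𝓝 0) ∧
        ∀ᶠ N : ℕ in atTop, Av (fun n => (1 - pv (n ∈ Z)) *
          (Measure.sum ν' (A ∩ S^[n] ⁻¹' A')).toReal) N ≤ Real.log N ^ (-c) := by
      intro A' hA'
      obtain ⟨Z, c, hc, hZ, hr⟩ := h3 A hA A' hA'
      simp only [ind_pv] at hZ
      simp only [ind_pv'] at hr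
      exact ⟨Z, c, hc, hZ, hr⟩
    obtain ⟨Z₁, c₁, hc₁, hZ₁, hr₁⟩ := hconv A hA
    obtain ⟨Z, c, hc, hZ, hr⟩ := hconv B hB
    have hbA : ∀ A' : Set Y, ∀ n, (Measure.sum ν' (A ∩ S^[n] ⁻¹' A')).toReal ≤
        (Measure.sum ν' A).toReal := fun A' n =>
      ENNReal.toReal_mono hAf (measure_mono inter_subset_left)
    have hnull := null_of_rate (fun n => ENNReal.toReal_nonneg) (hbA A) hZ₁ hc₁ hr₁
    have hr0 : 0 < b - a := by omega
    obtain ⟨p, hp, hsum⟩ := summable_of_rate (fun n => ENNReal.toReal_nonneg) hc hr hr0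
    refine neg_of_rate (Z := {n | (b - a) * (n + 1) ∈ Z}) (p := p) hS hAm hBm hAf ha hnull ?_ hp ?_
    · exact Av_mult (c := fun n => pv (n ∈ Z)) (fun n => pv_nonneg _) hZ hr0 1 le_rfl
    · refine hsum.congr fun k => ?_
      congr 2
      refine Finset.sum_congr rfl fun n _ => ?_
      rw [ovl_meas hS hAm hBm hab]
      rfl
  · obtain ⟨E, hE⟩ := h.void
    refine ⟨{A | MeasurableSet A ∧ Measure.sum ν' A ≠ ∞}, fun A hA => hA,
      fun A hA hAf ε hε => ⟨A, ⟨hA, hAf⟩, by simpa using hε.le⟩, ?_⟩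
    rintro A ⟨hA, hAf⟩ B ⟨hBm, hBf⟩ a b ha hab
    refine neg_of_bou hB hS hA hBm hAf hBf ha hab ?_
    have h1 := Av_mult (fun n => ENNReal.toReal_nonneg) (hE.null hS herg hA hBm hAf hBf)
      (show 0 < b - a by omega) 1 le_rfl
    refine h1.congr fun N => ?_
    congr 1
    funext n
    rw [ovl_meas hS hA hBm hab]

end Pool.Agent.TH739.Poi

end

end

/-! ## Systems whose tail is a factor of a given system -/

section

open Filter Topology MeasureTheory Set
open scoped ENNReal NNReal symmDiff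

noncomputable section

namespace Pool.Agent.TH739.Poi

open Pool.Agent.W761.Gauss (BM BM_of_memLp)
open Pool.Agent.W761.Tail (Cvg term A Cvg_congr Cvg_closed Cvg_factor IsExhaustive IsTailSet
  tail_fun)

/-- Reduction to the system which contains the tail. -/
theorem tail_red {X Y Z : Type} {𝒜 : MeasurableSpace X} [mX : MeasurableSpace X]
    [MeasurableSpace Y] [MeasurableSpace Z]
    {μ : Measure X} [IsProbabilityMeasure μ] {ν : Measure Y}
    {ρ : Measure Z} {T : X → X} (hT : MeasurePreserving T μ μ)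
    (h𝒜 : IsExhaustive μ T 𝒜) {R : Z → Z} (hR : Measurable R)
    {φ : X → Z} (hφ : MeasurePreserving φ μ ρ) (hφT : ∀ᵐ x ∂μ, φ (T x) = R (φ x))
    (htail : ∀ B, IsTailSet μ T 𝒜 B → ∃ D, MeasurableSet D ∧ B =ᵐ[μ] φ ⁻¹' D)
    {S : Y → Y} (hS : MeasurePreserving S ν ν) {π : Y → Z} (hπ : MeasurePreserving π ν ρ)
    (hπS : ∀ᵐ y ∂ν, π (S y) = R (π y)) {m : ℕ}
    (hconv : ∀ g : Fin m → Y → ℂ, (∀ j, BM (g j)) → Cvg ν S g) {f : Fin m → X → ℂ}
    (hf : ∀ j, MemLp (f j) ∞ μ) :
    ∀ᵐ x ∂μ, ∃ L : ℂ, Tendsto (fun N : ℕ => (N : ℂ)⁻¹ * ∑ n ∈ Finset.Icc 1 N,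
      ∏ j : Fin m, f j (T^[((j : ℕ) + 1) * n] x)) atTop (𝓝 L) := by
  choose g hg hfg using fun j => BM_of_memLp (hf j)
  have h1 : Cvg μ T g := by
    refine h𝒜.reduction hT (fun u hu huW => ?_) hg
    choose w hw huw using fun l => tail_fun hφ htail (hu l) (huW l)
    have h2 : Cvg ρ R w :=
      (Cvg_factor hS hR hπ hπS fun j => (hw j).1).mp (hconv _ fun j => by
        obtain ⟨wm, C, hC⟩ := hw j
        exact ⟨wm.comp hπ.measurable, C, fun x => hC _⟩)
    have h3 : Cvg μ T (fun j => w j ∘ φ) := (Cvg_factor hT hR hφ hφT fun j => (hw j).1).mpr h2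
    exact Cvg_congr hT (fun j => (huw j).symm) h3
  have h4 : Cvg μ T f := Cvg_congr hT (fun j => (hfg j).symm) h1
  filter_upwards [h4] with x hx
  obtain ⟨L, hL⟩ := hx
  refine ⟨L, hL.congr fun N => ?_⟩
  rw [A]
  congr 1
  have h5 := Finset.sum_Ico_add' (fun n => ∏ j : Fin m, f j (T^[((j : ℕ) + 1) * n] x)) 0 N 1
  rw [Finset.range_eq_Ico]
  exact h5

/-- Convergence for Poisson suspensions. -/
theorem conv_poisson {Y X : Type} [MeasurableSpace Y] [Nonempty Y] [MeasurableSpace X]
    {ν : Measure Y} [SFinite ν] {S : Y → Y} {μ : Measure X} [IsProbabilityMeasure μ] {T : X → X}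
    (h : IsPoisson ν S μ T) (hcond : HasRate ν S ∨ (BourgainTheorem ∧ Ergodic T μ)) {m : ℕ}
    (f : Fin m → X → ℂ) (hf : ∀ j, BM (f j)) : Cvg μ T f := by
  obtain ⟨y₀⟩ := (inferInstance : Nonempty Y)
  have hν : Measure.sum (sfiniteSeq ν) = ν := sum_sfiniteSeq ν
  obtain ⟨ℛ, h1, h2, h3⟩ := family h hcond hν y₀
  exact h.conv hν h1 h2 h3 hf

end Pool.Agent.TH739.Poi

end

end

/-! ## Products of Gaussian systems and Poisson suspensions: weighted averages -/

section

open Filter Topology MeasureTheory Set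
open scoped ENNReal NNReal

noncomputable section

namespace Pool.Agent.TH739.Poi

/-- Convergence of the weighted frequency of zero from the convergence of the generating
functions. -/
theorem gfw {κ : ℕ → Option ℕ} {w : ℕ → ℝ} (hw : ∀ n, |w n| ≤ 1) {z : ℕ → ℝ} {z₀ : ℝ}
    (hz₀ : |z₀| < 1)
    (hz : Tendsto z atTop (𝓝 z₀)) (hne : ∀ i, z i ≠ z₀) (hz0 : ∀ i, 0 ≤ z i) (hz1 : ∀ i, z i < 1)
    (h : ∀ i, CvR fun n => w n * val (κ n) (z i)) : CvR fun n => w n * pv (κ n = some 0) := by
  let p : ℕ → ℕ → ℝ := fun N k => Av (fun n => w n * pv (κ n = some k)) N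
  have hp : ∀ N k, p N k ∈ Icc (-1 : ℝ) 1 := fun N k => by
    rw [mem_Icc, ← abs_le]
    refine (Av_abs _ N).trans (Av_le (fun n => abs_nonneg _) (fun n => ?_) N).2
    rw [abs_mul, abs_of_nonneg (pv_nonneg _)]
    exact mul_le_one₀ (hw n) (pv_nonneg _) (pv_le _)
  have hps : ∀ N i, ∑' k, p N k * z i ^ k = Av (fun n => w n * val (κ n) (z i)) N := by
    intro N i
    have h1 : HasSum (fun k => ∑ n ∈ Finset.range N, w n * (pv (κ n = some k) * z i ^ k))
        (∑ n ∈ Finset.range N, w n * val (κ n) (z i)) :=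
      hasSum_sum fun n _ => (val_hasSum (κ n) (z i)).mul_left (w n)
    have h2 := (h1.mul_left (N : ℝ)⁻¹).tsum_eq
    rw [Av, ← h2]
    congr 1
    funext k
    show (N : ℝ)⁻¹ * (∑ n ∈ Finset.range N, w n * pv (κ n = some k)) * z i ^ k = _
    rw [mul_assoc, Finset.sum_mul]
    simp only [mul_assoc]
  choose L hL using h
  have hK : IsCompact (Set.pi univ fun _ : ℕ => Icc (-1 : ℝ) 1) :=
    isCompact_univ_pi fun _ => isCompact_Icc
  have key : ∀ (φ : ℕ → ℕ), Tendsto φ atTop atTop → ∀ q : ℕ → ℝ,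
      (∀ k, Tendsto (fun r => p (φ r) k) atTop (𝓝 (q k))) → (∀ k, q k ∈ Icc (-1 : ℝ) 1) →
      ∀ i, ∑' k, q k * z i ^ k = L i := by
    intro φ hφ q hq hq1 i
    have h1 : Tendsto (fun r => ∑' k, p (φ r) k * z i ^ k) atTop (𝓝 (∑' k, q k * z i ^ k)) := by
      refine tendsto_tsum_of_dominated_convergence (bound := fun k => z i ^ k)
        (summable_geometric_of_lt_one (hz0 i) (hz1 i)) (fun k => (hq k).mul_const _) ?_
      refine Eventually.of_forall fun r k => ?_
      rw [norm_mul, norm_pow, Real.norm_of_nonneg (hz0 i)]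
      exact mul_le_of_le_one_left (pow_nonneg (hz0 i) k) (abs_le.mpr (hp _ _))
    have h2 : Tendsto (fun r => ∑' k, p (φ r) k * z i ^ k) atTop (𝓝 (L i)) := by
      simp only [hps]
      exact (hL i).comp hφ
    exact tendsto_nhds_unique h1 h2
  obtain ⟨q, hqK, φ, hφm, hφ⟩ := hK.tendsto_subseq (x := p) fun N => fun k _ => hp N k
  have hφ' := fun k => (tendsto_pi_nhds.mp hφ) k
  have hqs := key φ hφm.tendsto_atTop q hφ' fun k => hqK k (mem_univ k)
  refine ⟨q 0, ?_⟩
  refine tendsto_of_subseq_tendsto fun ns hns => ?_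
  obtain ⟨q', hqK', ψ, hψm, hψ⟩ := hK.tendsto_subseq (x := fun r => p (ns r)) fun N => fun k _ =>
    hp (ns N) k
  have hψ' := fun k => (tendsto_pi_nhds.mp hψ) k
  have hqs' := key (fun r => ns (ψ r)) (hns.comp hψm.tendsto_atTop) q' hψ' fun k =>
    hqK' k (mem_univ k)
  have hsm : ∀ (q : ℕ → ℝ), (∀ k, q k ∈ Icc (-1 : ℝ) 1) → ∀ i, Summable fun k => q k * z i ^ k := by
    intro q hq i
    refine Summable.of_norm_bounded (summable_geometric_of_lt_one (hz0 i) (hz1 i)) fun k => ?_
    rw [norm_mul, norm_pow, Real.norm_of_nonneg (hz0 i)]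
    exact mul_le_of_le_one_left (pow_nonneg (hz0 i) k) (abs_le.mpr (hq _))
  have hd := coeff_zero (d := fun k => q' k - q k) (C := 2) (fun k => by
    have h1 := hqK k (mem_univ k)
    have h2 := hqK' k (mem_univ k)
    simp only [mem_Icc] at h1 h2
    rw [abs_le]
    constructor <;> linarith [h1.1, h1.2, h2.1, h2.2]) hz₀ hz hne fun i => by
      simp only [sub_mul]
      rw [(hsm q' (fun k => hqK' k (mem_univ k)) i).tsum_sub
        (hsm q (fun k => hqK k (mem_univ k)) i), hqs' i, hqs i, sub_self]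
  have hd' : q' 0 = q 0 := by
    linarith
  refine ⟨ψ, ?_⟩
  rw [← hd']
  exact hψ' 0

end Pool.Agent.TH739.Poi

end

end

/-! ## Weighted averages of void events -/

section

open Filter Topology MeasureTheory ProbabilityTheory Set
open scoped ENNReal NNReal

noncomputable section

namespace Pool.Agent.TH739.Poi

variable {Y : Type*} [MeasurableSpace Y] {m : ℕ}

omit [MeasurableSpace Y] in
/-- From the conditional probabilities to the void events. -/
theorem conv_V_of_w {C : ℕ → Fin m → Set Y} {ω : Om Y} {w : ℕ → ℝ} (hw : ∀ n, |w n| ≤ 1)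
    (hQ : Tendsto (Av fun n => pv (ω ∉ V (Ov (C n)))) atTop (𝓝 0))
    (h : ∀ i : ℕ, CvR fun n =>
      w n * Hi (gU ((m + 1 : ℝ)⁻¹ * (1 - 1 / ((i : ℝ) + 2))) (C n)) ω) :
    CvR fun n => w n * pv (ω ∈ V (⋃ j, C n j)) := by
  choose κ hκ1 hκ2 using fun n => exists_kappa ω (⋃ j, C n j)
  have e : (fun n => w n * pv (ω ∈ V (⋃ j, C n j))) = fun n => w n * pv (κ n = some 0) := by
    funext n
    rw [← hκ2 n]
  rw [e]
  let q : ℕ → ℝ := fun i => (m + 1 : ℝ)⁻¹ * (1 - 1 / ((i : ℝ) + 2))
  have hm : (0 : ℝ) < (m : ℝ) + 1 := by positivity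
  have hi2 : ∀ i : ℕ, 0 < 1 / ((i : ℝ) + 2) ∧ 1 / ((i : ℝ) + 2) ≤ 1 / 2 := by
    intro i
    refine ⟨by positivity, ?_⟩
    exact one_div_le_one_div_of_le (by norm_num) (by have : (0 : ℝ) ≤ i := by positivity
                                                     linarith)
  have hinv : (m + 1 : ℝ)⁻¹ ≤ 1 := inv_le_one_of_one_le₀ (by linarith)
  have hinv0 : 0 < (m + 1 : ℝ)⁻¹ := by positivity
  have hq0 : ∀ i, 0 < q i := fun i => mul_pos hinv0 (by linarith [(hi2 i).2])
  have hq1 : ∀ i, q i ≤ 1 := fun i => by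
    show (m + 1 : ℝ)⁻¹ * (1 - 1 / ((i : ℝ) + 2)) ≤ 1
    nlinarith [(hi2 i).1, (hi2 i).2]
  have hqm : ∀ i, m * q i ≤ 1 := fun i => by
    have h3 : (m : ℝ) * q i ≤ (m + 1) * ((m + 1 : ℝ)⁻¹ * 1) := by
      refine mul_le_mul (by linarith) ?_ (hq0 i).le hm.le
      exact mul_le_mul_of_nonneg_left (by linarith [(hi2 i).1]) hinv0.le
    rw [mul_one, mul_inv_cancel₀ hm.ne'] at h3
    exact h3
  have htend : Tendsto (fun i => 1 - q i) atTop (𝓝 (1 - (m + 1 : ℝ)⁻¹)) := by
    have h4 : Tendsto (fun i : ℕ => 1 / ((i : ℝ) + 2)) atTop (𝓝 0) := by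
      have h5 := tendsto_one_div_add_atTop_nhds_zero_nat (𝕜 := ℝ)
      have h6 := h5.comp (tendsto_add_atTop_nat 1)
      refine h6.congr fun i => ?_
      simp only [Function.comp_apply]
      push_cast
      ring_nf
    have h7 : Tendsto (fun i : ℕ => 1 - (m + 1 : ℝ)⁻¹ * (1 - 1 / ((i : ℝ) + 2))) atTop
        (𝓝 (1 - (m + 1 : ℝ)⁻¹ * (1 - 0))) :=
      ((h4.const_sub 1).const_mul _).const_sub 1
    rw [sub_zero, mul_one] at h7
    exact h7
  refine gfw hw (z := fun i => 1 - q i) (z₀ := 1 - (m + 1 : ℝ)⁻¹) ?_ htend ?_ ?_ ?_ ?_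
  · rw [abs_lt]
    constructor <;> linarith
  · intro i h5
    have h6 : q i = (m + 1 : ℝ)⁻¹ := by linarith
    have h7 : (m + 1 : ℝ)⁻¹ * (1 - 1 / ((i : ℝ) + 2)) = (m + 1 : ℝ)⁻¹ * 1 := by
      rw [mul_one]
      exact h6
    have h8 := mul_left_cancel₀ hinv0.ne' h7
    linarith [(hi2 i).1]
  · intro i
    linarith [hq1 i]
  · intro i
    linarith [hq0 i]
  · intro i
    refine CvR_of_close (h i) hQ fun n => ?_
    have hz := hκ1 n (1 - q i) (by linarith [hq1 i]) (by linarith [hq0 i])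
    rw [sub_sub_cancel] at hz
    rw [← hz, ← mul_sub, abs_mul]
    refine (mul_le_of_le_one_left (abs_nonneg _) (hw n)).trans ?_
    by_cases hn : ω ∈ V (Ov (C n))
    · rw [← Hi_eq hn]
      show |Hi (gU (q i) (C n)) ω - Hi (gU (q i) (C n)) ω| ≤ _
      rw [sub_self, abs_zero]
      exact pv_nonneg _
    · rw [pv_true hn]
      have b1 := Hi_bd (g := fun y => 1 - q i * pv (y ∈ ⋃ j, C n j))
        (fun y => by nlinarith [pv_nonneg (y ∈ ⋃ j, C n j), pv_le (y ∈ ⋃ j, C n j), hq0 i, hq1 i])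
        (fun y => by nlinarith [pv_nonneg (y ∈ ⋃ j, C n j), pv_le (y ∈ ⋃ j, C n j), hq0 i]) ω
      have b2 := Hi_bd (g := gU (q i) (C n)) (fun y => (gU_bd (hq0 i).le (hqm i) _ y).1)
        (fun y => (gU_bd (hq0 i).le (hqm i) _ y).2) ω
      show |_ - Hi (gU (q i) (C n)) ω| ≤ 1
      rw [abs_le]
      constructor <;> linarith [b1.1, b1.2, b2.1, b2.2]

end Pool.Agent.TH739.Poi

end

end
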