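import Mathlib
import Pool.Agent.TH739.Pois.System

/-!
# Products of a Gaussian system and a Poisson suspension
-/

set_option autoImplicit false

/-! ## Joint decoupling of a Gaussian system and a Poisson process -/

section

open Filter Topology MeasureTheory ProbabilityTheory Set
open scoped ENNReal NNReal

noncomputable section

namespace Pool.Agent.TH739.Poi

open Pool.Agent.W761.Gauss (GaussSpace ex proc Adm norm_ex meas_ex ex_add meas_proc comp_succ
  q_comp q_smul)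
open Pool.Agent.W761.Tail (A)

/-- The law of a stationary sequence of events is invariant. -/
theorem seq_inv {Ω : Type*} [MeasurableSpace Ω] {P : Measure Ω} [IsProbabilityMeasure P]
    {F : ℕ → Set Ω} (hF : ∀ n, MeasurableSet (F n))
    (h : ∀ I : Finset ℕ, P (⋂ n ∈ I, F (n + 1)) = P (⋂ n ∈ I, F n)) :
    MeasurePreserving (fun (b : ℕ → Prop) n => b (n + 1)) (P.map (seqOf F)) (P.map (seqOf F)) := by
  have hσ : Measurable (fun (b : ℕ → Prop) n => b (n + 1)) :=
    measurable_pi_iff.mpr fun n => measurable_pi_apply (n + 1)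
  refine ⟨hσ, ?_⟩
  rw [Measure.map_map hσ (seqOf_meas hF)]
  exact law_eq (F := fun n => F (n + 1)) (fun n => hF (n + 1)) hF h

/-- The ergodic theorem for a product of stationary sequences. -/
theorem birk2 {Pa : Measure (ℤ → ℝ)} [IsProbabilityMeasure Pa] {Pb : Measure (ℕ → Prop)}
    [IsProbabilityMeasure Pb] (ha : MeasurePreserving (fun (a : ℤ → ℝ) n => a (n + 1)) Pa Pa)
    (hb : MeasurePreserving (fun (b : ℕ → Prop) n => b (n + 1)) Pb Pb) :
    ∀ᵐ p ∂(Pa.prod Pb), ∃ L : ℂ,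
      Tendsto (A fun n => ex (p.1 ((n : ℤ) + 1)) * (pv (p.2 n) : ℂ)) atTop (𝓝 L) := by
  let T : (ℤ → ℝ) × (ℕ → Prop) → (ℤ → ℝ) × (ℕ → Prop) :=
    Prod.map (fun (a : ℤ → ℝ) n => a (n + 1)) (fun (b : ℕ → Prop) n => b (n + 1))
  have hT : MeasurePreserving T (Pa.prod Pb) (Pa.prod Pb) := ha.prod hb
  have hit : ∀ (k : ℕ) (p : (ℤ → ℝ) × (ℕ → Prop)),
      T^[k] p = (fun n => p.1 (n + k), fun n => p.2 (n + k)) := by
    intro k
    induction k with
    | zero =>
      intro p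
      simp
    | succ k ih =>
      intro p
      rw [Function.iterate_succ_apply, ih]
      refine Prod.ext ?_ ?_
      · funext n
        show p.1 (n + k + 1) = p.1 (n + ((k + 1 : ℕ) : ℤ))
        push_cast
        exact congrArg p.1 (by ring)
      · funext n
        show p.2 (n + k + 1) = p.2 (n + (k + 1))
        exact congrArg p.2 (by ring)
  let F : (ℤ → ℝ) × (ℕ → Prop) → ℂ := fun p => ex (p.1 1) * (pv (p.2 0) : ℂ)
  have hF : Measurable F := by
    refine Measurable.mul (meas_ex.comp ((measurable_pi_apply 1).comp measurable_fst)) ?_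
    exact Complex.measurable_ofReal.comp (measurable_pv.comp
      ((measurable_pi_apply 0).comp measurable_snd))
  have hFb : ∀ p, ‖F p‖ ≤ 1 := by
    intro p
    show ‖ex (p.1 1) * (pv (p.2 0) : ℂ)‖ ≤ 1
    rw [norm_mul, norm_ex, one_mul, Complex.norm_real, Real.norm_of_nonneg (pv_nonneg _)]
    exact pv_le _
  have h1 := H165R3.BPE.birkhoff hT (fun p => (F p).re) (Complex.measurable_re.comp hF) 1
    fun p => (Complex.abs_re_le_norm _).trans (hFb p)
  have h2 := H165R3.BPE.birkhoff hT (fun p => (F p).im) (Complex.measurable_im.comp hF) 1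
    fun p => (Complex.abs_im_le_norm _).trans (hFb p)
  filter_upwards [h1, h2] with p hp1 hp2
  refine ⟨_, Tendsto.congr (fun N => ?_)
    (((Complex.continuous_ofReal.tendsto _).comp hp1).add
    (((Complex.continuous_ofReal.tendsto _).comp hp2).mul_const Complex.I))⟩
  simp only [Function.comp_apply, A]
  push_cast
  rw [mul_assoc, ← mul_add, Finset.sum_mul, ← Finset.sum_add_distrib]
  congr 1
  refine Finset.sum_congr rfl fun n _ => ?_
  rw [Complex.re_add_im, hit]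
  show ex (p.1 (1 + (n : ℤ))) * (pv (p.2 (0 + n)) : ℂ) = _
  rw [add_comm (1 : ℤ), zero_add]

/-- A rearrangement of a product of four probability spaces. -/
theorem mp4 {X₁ X₂ X₃ X₄ : Type*} [MeasurableSpace X₁] [MeasurableSpace X₂] [MeasurableSpace X₃]
    [MeasurableSpace X₄] (P₁ : Measure X₁) (P₂ : Measure X₂) (P₃ : Measure X₃) (P₄ : Measure X₄)
    [SFinite P₁] [SFinite P₂] [SFinite P₃] [SFinite P₄] :
    MeasurePreserving (fun p : (X₁ × X₃) × (X₂ × X₄) => ((p.1.1, p.2.1), (p.1.2, p.2.2)))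
      ((P₁.prod P₃).prod (P₂.prod P₄)) ((P₁.prod P₂).prod (P₃.prod P₄)) := by
  have f1 := measurePreserving_prodAssoc P₁ P₃ (P₂.prod P₄)
  have f2 := (MeasurePreserving.id P₁).prod (measurePreserving_prodAssoc P₃ P₂ P₄).symm
  have f3 := (MeasurePreserving.id P₁).prod
    ((Measure.measurePreserving_swap (μ := P₃) (ν := P₂)).prod (MeasurePreserving.id P₄))
  have f4 := (MeasurePreserving.id P₁).prod (measurePreserving_prodAssoc P₂ P₃ P₄)
  have f5 := (measurePreserving_prodAssoc P₁ P₂ (P₃.prod P₄)).symm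
  exact f5.comp (f4.comp (f3.comp (f2.comp f1)))

section gauss

variable {X : Type*} [MeasurableSpace X] {μ : Measure X} {H : Submodule ℝ (X → ℝ)}

/-- The auxiliary processes for commuting Gaussian transformations. -/
theorem gauss_data [IsProbabilityMeasure μ] (hH : GaussSpace μ H) {J : Type*} [Fintype J]
    {S : J → Equiv.Perm X} (hS : ∀ j, Adm μ H (S j)) (hc : ∀ j k, Commute (S j) (S k))
    {h : J → X → ℝ} (hh : ∀ j, h j ∈ H) :
    ∃ (u : (J × J) ⊕ (J × J) → ℤ → X → ℝ) (v : (J × J) ⊕ (J × J) → X → ℝ) (Q₀ : ℝ),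
      (∀ i n, u i n ∈ H) ∧ (∀ i, v i ∈ H) ∧
      (∀ (s : Finset ℤ) (t : ℤ → ℝ),
        Pool.Agent.W761.Gauss.q μ (∑ n ∈ s, t n • ∑ j, h j ∘ (S j ^ (n + 1) : Equiv.Perm X)) +
          ∑ i, Pool.Agent.W761.Gauss.q μ (∑ n ∈ s, t n • u i (n + 1)) =
        Pool.Agent.W761.Gauss.q μ (∑ n ∈ s, t n • ∑ j, h j ∘ (S j ^ n : Equiv.Perm X)) +
          ∑ i, Pool.Agent.W761.Gauss.q μ (∑ n ∈ s, t n • u i n)) ∧
      ∀ n, ∑ i, Pool.Agent.W761.Gauss.q μ (u i n + v i) = Q₀ := by
  set c : ℝ := Real.sqrt 2⁻¹ with hcdef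
  have hc2 : c ^ 2 = 2⁻¹ := Real.sq_sqrt (by norm_num)
  let V : J → J → Equiv.Perm X := fun j k => (S k)⁻¹ * S j
  let u : (J × J) ⊕ (J × J) → ℤ → X → ℝ := fun i n =>
    Sum.elim (fun p : J × J => c • (h p.1 ∘ (S p.1 ^ n : Equiv.Perm X) -
      h p.2 ∘ (S p.2 ^ n : Equiv.Perm X)))
      (fun p : J × J => c • (h p.1 ∘ (V p.1 p.2 ^ n : Equiv.Perm X))) i
  let v : (J × J) ⊕ (J × J) → X → ℝ := Sum.elim (fun _ => 0) (fun p : J × J => c • h p.2)
  have hV : ∀ j k, Adm μ H (V j k) := fun j k => (hS k).inv.mul (hS j)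
  have hu : ∀ i n, u i n ∈ H := by
    intro i n
    rcases i with p | p
    · exact H.smul_mem _ (H.sub_mem (((hS _).zpow n).st _ (hh _)) (((hS _).zpow n).st _ (hh _)))
    · exact H.smul_mem _ (((hV _ _).zpow n).st _ (hh _))
  have hv : ∀ i, v i ∈ H := by
    intro i
    rcases i with p | p
    · exact H.zero_mem
    · exact H.smul_mem _ (hh _)
  refine ⟨u, v, ∑ j, ∑ k, (Pool.Agent.W761.Gauss.q μ (h j) + Pool.Agent.W761.Gauss.q μ (h k)), hu,
    hv, ?_, ?_⟩
  · intro s t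
    let A : J → X → ℝ := fun j => ∑ n ∈ s, t n • (h j ∘ (S j ^ n : Equiv.Perm X))
    let A' : J → X → ℝ := fun j => ∑ n ∈ s, t n • (h j ∘ (S j ^ (n + 1) : Equiv.Perm X))
    let B : J → J → X → ℝ := fun j k => ∑ n ∈ s, t n • (h j ∘ (V j k ^ n : Equiv.Perm X))
    let B' : J → J → X → ℝ := fun j k => ∑ n ∈ s, t n • (h j ∘ (V j k ^ (n + 1) : Equiv.Perm X))
    have hA : ∀ j, A j ∈ H := fun j => H.sum_mem fun n _ =>
      H.smul_mem _ (((hS j).zpow n).st _ (hh j))
    have hA' : ∀ j, A' j ∈ H := fun j => H.sum_mem fun n _ =>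
      H.smul_mem _ (((hS j).zpow (n + 1)).st _ (hh j))
    have hB : ∀ j k, B j k ∈ H := fun j k => H.sum_mem fun n _ =>
      H.smul_mem _ (((hV j k).zpow n).st _ (hh j))
    have hAA : ∀ j, Pool.Agent.W761.Gauss.q μ (A' j) = Pool.Agent.W761.Gauss.q μ (A j) := by
      intro j
      have : A' j = A j ∘ S j := comp_succ _ _ _ _
      rw [this, q_comp (hS j).mp (hH.meas _ (hA j))]
    have hBB : ∀ j k, Pool.Agent.W761.Gauss.q μ (B' j k) = Pool.Agent.W761.Gauss.q μ (B j k) := by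
      intro j k
      have : B' j k = B j k ∘ V j k := comp_succ _ _ _ _
      rw [this, q_comp (hV j k).mp (hH.meas _ (hB j k))]
    have e1 : ∑ n ∈ s, t n • (∑ j, h j ∘ (S j ^ n : Equiv.Perm X)) = ∑ j, A j := by
      simp only [Finset.smul_sum]
      rw [Finset.sum_comm]
    have e1' : ∑ n ∈ s, t n • (∑ j, h j ∘ (S j ^ (n + 1) : Equiv.Perm X)) = ∑ j, A' j := by
      simp only [Finset.smul_sum]
      rw [Finset.sum_comm]
    have e2 : ∀ p : J × J, ∑ n ∈ s, t n • u (Sum.inl p) n = c • (A p.1 - A p.2) := by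
      intro p
      show ∑ n ∈ s, t n • (c • (h p.1 ∘ (S p.1 ^ n : Equiv.Perm X) -
        h p.2 ∘ (S p.2 ^ n : Equiv.Perm X))) = _
      rw [← Finset.sum_sub_distrib, Finset.smul_sum]
      apply Finset.sum_congr rfl
      intro n _
      rw [smul_comm, smul_sub]
    have e2' : ∀ p : J × J, ∑ n ∈ s, t n • u (Sum.inl p) (n + 1) = c • (A' p.1 - A' p.2) := by
      intro p
      show ∑ n ∈ s, t n • (c • (h p.1 ∘ (S p.1 ^ (n + 1) : Equiv.Perm X) -
        h p.2 ∘ (S p.2 ^ (n + 1) : Equiv.Perm X))) = _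
      rw [← Finset.sum_sub_distrib, Finset.smul_sum]
      apply Finset.sum_congr rfl
      intro n _
      rw [smul_comm, smul_sub]
    have e3 : ∀ p : J × J, ∑ n ∈ s, t n • u (Sum.inr p) n = c • B p.1 p.2 := by
      intro p
      show ∑ n ∈ s, t n • (c • (h p.1 ∘ (V p.1 p.2 ^ n : Equiv.Perm X))) = _
      rw [Finset.smul_sum]
      apply Finset.sum_congr rfl
      intro n _
      rw [smul_comm]
    have e3' : ∀ p : J × J, ∑ n ∈ s, t n • u (Sum.inr p) (n + 1) = c • B' p.1 p.2 := by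
      intro p
      show ∑ n ∈ s, t n • (c • (h p.1 ∘ (V p.1 p.2 ^ (n + 1) : Equiv.Perm X))) = _
      rw [Finset.smul_sum]
      apply Finset.sum_congr rfl
      intro n _
      rw [smul_comm]
    rw [Fintype.sum_sum_type, Fintype.sum_sum_type]
    simp only [e1, e1', e2, e2', e3, e3', q_smul, hc2]
    rw [Fintype.sum_prod_type, Fintype.sum_prod_type, Fintype.sum_prod_type,
      Fintype.sum_prod_type]
    simp only [hBB]
    have i1 := hH.q_identity hA
    have i2 := hH.q_identity hA'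
    simp only [hAA] at i2
    linarith
  · intro n
    rw [Fintype.sum_sum_type]
    have f1 : ∀ p : J × J, Pool.Agent.W761.Gauss.q μ (u (Sum.inl p) n + v (Sum.inl p)) =
        2⁻¹ * Pool.Agent.W761.Gauss.q μ
          (h p.1 ∘ (S p.1 ^ n : Equiv.Perm X) - h p.2 ∘ (S p.2 ^ n : Equiv.Perm X)) := by
      intro p
      show Pool.Agent.W761.Gauss.q μ (c • (h p.1 ∘ (S p.1 ^ n : Equiv.Perm X) -
        h p.2 ∘ (S p.2 ^ n : Equiv.Perm X)) + 0) = _
      rw [add_zero, q_smul, hc2]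
    have f2 : ∀ p : J × J, Pool.Agent.W761.Gauss.q μ (u (Sum.inr p) n + v (Sum.inr p)) =
        2⁻¹ * Pool.Agent.W761.Gauss.q μ
          (h p.1 ∘ (S p.1 ^ n : Equiv.Perm X) + h p.2 ∘ (S p.2 ^ n : Equiv.Perm X)) := by
      intro p
      show Pool.Agent.W761.Gauss.q μ
        (c • (h p.1 ∘ (V p.1 p.2 ^ n : Equiv.Perm X)) + c • h p.2) = _
      rw [← smul_add, q_smul, hc2]
      congr 1
      have g1 : h p.1 ∘ (V p.1 p.2 ^ n : Equiv.Perm X) + h p.2 ∈ H :=
        H.add_mem (((hV _ _).zpow n).st _ (hh _)) (hh _)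
      rw [← q_comp ((hS p.2).zpow n).mp (hH.meas _ g1)]
      congr 1
      have g2 : (V p.1 p.2 ^ n * S p.2 ^ n : Equiv.Perm X) = S p.1 ^ n := by
        have g3 : Commute (V p.1 p.2) (S p.2) := by
          apply Commute.mul_left
          · exact (Commute.refl (S p.2)).inv_left
          · exact hc _ _
        rw [← g3.mul_zpow]
        congr 1
        show (S p.2)⁻¹ * S p.1 * S p.2 = S p.1
        rw [mul_assoc, (hc p.1 p.2).eq, ← mul_assoc, inv_mul_cancel, one_mul]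
      ext x
      simp only [Function.comp_apply, Pi.add_apply]
      rw [← Equiv.Perm.mul_apply, g2]
    simp only [f1, f2]
    rw [← Finset.sum_add_distrib, Fintype.sum_prod_type]
    apply Finset.sum_congr rfl
    intro j _
    apply Finset.sum_congr rfl
    intro k _
    have g4 := hH.q_par (((hS j).zpow n).st _ (hh j)) (((hS k).zpow n).st _ (hh k))
    rw [q_comp ((hS j).zpow n).mp (hH.meas _ (hh j)), q_comp ((hS k).zpow n).mp (hH.meas _ (hh k))]
      at g4
    rw [← mul_add]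
    linarith

end gauss

section joint

variable {X : Type*} [MeasurableSpace X] {μ : Measure X} {H : Submodule ℝ (X → ℝ)}
  {Y : Type*} [MeasurableSpace Y] {ν : ℕ → Measure Y} {y₀ : Y} {m : ℕ}
  {I : Type*} [Fintype I]

/-- Stationarity of the marked void events. -/
theorem W_shift [∀ k, IsFiniteMeasure (ν k)] {r : ℝ} [IsProbabilityMeasure (pm m r)] (h0 : 0 ≤ r)
    (h1 : m * r ≤ 1) {S : Y → Y} (hS : MeasurePreserving S (Measure.sum ν) (Measure.sum ν))
    {A : Fin m → Set Y} (hA : ∀ j, MeasurableSet (A j)) (hfin : ∀ j, Measure.sum ν (A j) ≠ ⊤)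
    (I : Finset ℕ) : ((PP ν y₀).prod (TT m r)) (⋂ n ∈ I, W (Cs S A (n + 1))) =
      ((PP ν y₀).prod (TT m r)) (⋂ n ∈ I, W (Cs S A n)) := by
  rw [← W_union I fun n => Cs S A (n + 1), ← W_union I fun n => Cs S A n]
  have hm : ∀ (f : ℕ → ℕ) (j : Fin m), MeasurableSet (⋃ n ∈ I, Cs S A (f n) j) := fun f j =>
    Finset.measurableSet_biUnion _ fun n _ => Cs_meas hS.measurable hA _ j
  have hf : ∀ (f : ℕ → ℕ) (j : Fin m), Measure.sum ν (⋃ n ∈ I, Cs S A (f n) j) ≠ ⊤ := by
    intro f j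
    refine ne_top_of_le_ne_top ?_ (measure_biUnion_finset_le I _)
    refine ENNReal.sum_ne_top.mpr fun n _ => ?_
    rw [Cs_fin hS hA]
    exact hfin j
  rw [prob_W h0 h1 (hm (fun n => n + 1)) (hf fun n => n + 1), prob_W h0 h1 (hm fun n => n)
    (hf fun n => n)]
  have e : ∀ j, Measure.sum ν (⋃ n ∈ I, Cs S A (n + 1) j) =
      Measure.sum ν (⋃ n ∈ I, Cs S A n j) := by
    intro j
    rw [← (hS.iterate ((j : ℕ) + 1)).measure_preimage (hm (fun n => n) j).nullMeasurableSet]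
    congr 1
    simp only [preimage_iUnion, Cs_succ]
  simp only [e]

/-- **Joint core statement.** -/
theorem core2 [IsProbabilityMeasure μ] (hH : GaussSpace μ H)
    {ξ : ℤ → X → ℝ} {u : I → ℤ → X → ℝ} {v : I → X → ℝ} (hξ : ∀ n, ξ n ∈ H)
    (hu : ∀ i n, u i n ∈ H) (hv : ∀ i, v i ∈ H)
    (hst : ∀ (s : Finset ℤ) (t : ℤ → ℝ),
      Pool.Agent.W761.Gauss.q μ (∑ n ∈ s, t n • ξ (n + 1)) +
        ∑ i, Pool.Agent.W761.Gauss.q μ (∑ n ∈ s, t n • u i (n + 1)) =
      Pool.Agent.W761.Gauss.q μ (∑ n ∈ s, t n • ξ n) +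
        ∑ i, Pool.Agent.W761.Gauss.q μ (∑ n ∈ s, t n • u i n))
    {Q₀ : ℝ} (hQ : ∀ n, ∑ i, Pool.Agent.W761.Gauss.q μ (u i n + v i) = Q₀)
    [∀ k, IsFiniteMeasure (ν k)] {r : ℝ} (h0 : 0 ≤ r)
    (h1 : m * r ≤ 1) {S : Y → Y} (hS : MeasurePreserving S (Measure.sum ν) (Measure.sum ν))
    {A : Fin m → Set Y} (hA : ∀ j, MeasurableSet (A j)) (hfin : ∀ j, Measure.sum ν (A j) ≠ ⊤) :
    ∀ᵐ p ∂(μ.prod (PP ν y₀)), ∃ L : ℂ, Tendsto (Pool.Agent.W761.Tail.A fun n =>
      ex (ξ ((n : ℤ) + 1) p.1) * (Hi (gU r (Cs S A n)) p.2 : ℂ)) atTop (𝓝 L) := by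
  have hpm1 := pm_prob h0 h1
  have hξm : ∀ n, Measurable (ξ n) := fun n => hH.meas _ (hξ n)
  have hum : ∀ i n, Measurable (u i n) := fun i n => hH.meas _ (hu i n)
  have hvm : ∀ i, Measurable (v i) := fun i => hH.meas _ (hv i)
  have hpm : Measurable fun (p : X × (I → X)) (n : ℤ) => proc ξ u n p :=
    measurable_pi_lambda _ fun n => meas_proc hξm hum n
  have hWm : ∀ n, MeasurableSet (W (Cs S A n) : Set (Om Y × Th)) :=
    fun n => W_meas fun j => Cs_meas hS.measurable hA n j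
  set Pa := (μ.prod (Measure.pi fun _ : I => μ)).map (fun p n => proc ξ u n p) with hPa
  set Pb := ((PP ν y₀).prod (TT m r)).map (seqOf fun n => W (Cs S A n)) with hPb
  have hP1 : IsProbabilityMeasure Pa := Measure.isProbabilityMeasure_map hpm.aemeasurable
  have hP2 : IsProbabilityMeasure Pb := Measure.isProbabilityMeasure_map
    (seqOf_meas hWm).aemeasurable
  have ha : MeasurePreserving (fun (a : ℤ → ℝ) n => a (n + 1)) Pa Pa :=
    ⟨measurable_pi_lambda _ fun n => measurable_pi_apply _, hH.stationary hξ hu hst⟩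
  have hb : MeasurePreserving (fun (b : ℕ → Prop) n => b (n + 1)) Pb Pb :=
    seq_inv hWm (W_shift h0 h1 hS hA hfin)
  have hB := birk2 ha hb
  have g1 : MeasurePreserving (fun (p : X × (I → X)) (n : ℤ) => proc ξ u n p)
      (μ.prod (Measure.pi fun _ : I => μ)) Pa := ⟨hpm, rfl⟩
  have g2 : MeasurePreserving (seqOf fun n => W (Cs S A n)) ((PP ν y₀).prod (TT m r)) Pb :=
    ⟨seqOf_meas hWm, rfl⟩
  have g3 := (g1.prod g2).comp (mp4 μ (Measure.pi fun _ : I => μ) (PP ν y₀) (TT m r))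
  have hB' := g3.quasiMeasurePreserving.ae hB
  have hB'' := Measure.ae_ae_of_ae_prod hB'
  filter_upwards [hB''] with p hp
  obtain ⟨x, ω⟩ := p
  set PI : Measure (I → X) := Measure.pi fun _ => μ with hPI
  let K : ℕ → (I → X) × Th → ℂ := fun n z =>
    ex (proc ξ u ((n : ℤ) + 1) (x, z.1)) * (pv ((ω, z.2) ∈ W (Cs S A n)) : ℂ)
  have hz : ∀ᵐ z ∂(PI.prod (TT m r)), ∃ L : ℂ,
      Tendsto (Pool.Agent.W761.Tail.A fun n => K n z) atTop (𝓝 L) := hp
  have hKm : ∀ n, Measurable (K n) := by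
    intro n
    refine Measurable.mul (meas_ex.comp ((meas_proc hξm hum _).comp
      (measurable_const.prodMk measurable_fst))) ?_
    exact Complex.measurable_ofReal.comp ((pv_mem_meas (hWm n)).comp
      (measurable_const.prodMk measurable_snd))
  have hKb : ∀ n z, ‖K n z‖ ≤ 1 := by
    intro n z
    show ‖ex _ * (pv _ : ℂ)‖ ≤ 1
    rw [norm_mul, norm_ex, one_mul, Complex.norm_real, Real.norm_of_nonneg (pv_nonneg _)]
    exact pv_le _
  have hvs : Measurable fun z : (I → X) × Th => ex (∑ i, v i (z.1 i)) := by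
    apply meas_ex.comp
    exact Finset.measurable_fun_sum _ fun i _ =>
      (hvm i).comp ((measurable_pi_apply i).comp measurable_fst)
  let F : ℕ → (I → X) × Th → ℂ := fun N z =>
    Pool.Agent.W761.Tail.A (fun n => K n z) N * ex (∑ i, v i (z.1 i))
  have hFm : ∀ N, AEStronglyMeasurable (F N) (PI.prod (TT m r)) := by
    intro N
    apply Measurable.aestronglyMeasurable
    refine Measurable.mul ?_ hvs
    unfold Pool.Agent.W761.Tail.A
    exact (Finset.measurable_fun_sum _ fun n _ => hKm n).const_mul _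
  have hFb : ∀ N, ∀ᵐ z ∂(PI.prod (TT m r)), ‖F N z‖ ≤ (fun _ => (1 : ℝ)) z := by
    intro N
    refine Eventually.of_forall fun z => ?_
    show ‖_ * ex (∑ i, v i (z.1 i))‖ ≤ 1
    rw [norm_mul, norm_ex, mul_one]
    exact Pool.Agent.W761.Tail.A_bound (fun n => hKb n z) N
  have hlim : ∀ᵐ z ∂(PI.prod (TT m r)), Tendsto (fun N => F N z) atTop
      (𝓝 (limUnder atTop (fun N => F N z))) := by
    filter_upwards [hz] with z hz
    apply tendsto_nhds_limUnder
    obtain ⟨L, hL⟩ := hz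
    exact ⟨L * ex (∑ i, v i (z.1 i)), hL.mul_const _⟩
  have hD := tendsto_integral_of_dominated_convergence (fun _ => (1 : ℝ)) hFm
    (integrable_const _) hFb hlim
  have hterm : ∀ n, ∫ z, K n z * ex (∑ i, v i (z.1 i)) ∂(PI.prod (TT m r)) =
      Complex.exp ((-Q₀ / 2 : ℝ) : ℂ) *
        (ex (ξ ((n : ℤ) + 1) x) * (Hi (gU r (Cs S A n)) ω : ℂ)) := by
    intro n
    have e1 : ∀ z : (I → X) × Th, K n z * ex (∑ i, v i (z.1 i)) =
        (ex (ξ ((n : ℤ) + 1) x) * ex (∑ i, (u i ((n : ℤ) + 1) + v i) (z.1 i))) *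
          (pv ((ω, z.2) ∈ W (Cs S A n)) : ℂ) := by
      intro z
      show ex (proc ξ u ((n : ℤ) + 1) (x, z.1)) * (pv ((ω, z.2) ∈ W (Cs S A n)) : ℂ) *
        ex (∑ i, v i (z.1 i)) = _
      have e2 : ex (proc ξ u ((n : ℤ) + 1) (x, z.1)) * ex (∑ i, v i (z.1 i)) =
          ex (ξ ((n : ℤ) + 1) x) * ex (∑ i, (u i ((n : ℤ) + 1) + v i) (z.1 i)) := by
        rw [proc, ex_add, mul_assoc, ← ex_add, ← Finset.sum_add_distrib]
        rfl
      rw [← e2]
      ring
    simp only [e1]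
    rw [integral_prod_mul (μ := PI) (ν := TT m r)
      (fun a : I → X => ex (ξ ((n : ℤ) + 1) x) * ex (∑ i, (u i ((n : ℤ) + 1) + v i) (a i)))
      (fun θ : Th => (pv ((ω, θ) ∈ W (Cs S A n)) : ℂ)), integral_const_mul,
      hH.int_ex_pi fun i => H.add_mem (hu i _) (hv i), hQ]
    have e3 : ∫ θ : Th, (pv ((ω, θ) ∈ W (Cs S A n)) : ℂ) ∂(TT m r) =
        (Hi (gU r (Cs S A n)) ω : ℂ) := by
      rw [integral_complex_ofReal]
      congr 1
      have hs : MeasurableSet {θ : Th | (ω, θ) ∈ W (Cs S A n)} := measurable_prodMk_left (hWm n)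
      have e4 : (fun θ : Th => pv ((ω, θ) ∈ W (Cs S A n))) =
          {θ : Th | (ω, θ) ∈ W (Cs S A n)}.indicator 1 := by
        funext θ
        by_cases h : (ω, θ) ∈ W (Cs S A n)
        · rw [pv_true h, indicator_of_mem (show θ ∈ {θ : Th | (ω, θ) ∈ W (Cs S A n)} from h)]
          rfl
        · rw [pv_false h, indicator_of_notMem
            (show θ ∉ {θ : Th | (ω, θ) ∈ W (Cs S A n)} from h)]
      rw [e4, integral_indicator_one hs, measureReal_def,
        sec_W h0 h1 (fun j => Cs_meas hS.measurable hA n j) ω, ENNReal.toReal_ofReal]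
      exact (Hi_bd (fun y => (gU_bd h0 h1 _ y).1) (fun y => (gU_bd h0 h1 _ y).2) ω).1
    rw [e3]
    ring
  have hint : ∀ N, ∫ z, F N z ∂(PI.prod (TT m r)) = Complex.exp ((-Q₀ / 2 : ℝ) : ℂ) *
      Pool.Agent.W761.Tail.A (fun n => ex (ξ ((n : ℤ) + 1) x) *
        (Hi (gU r (Cs S A n)) ω : ℂ)) N := by
    intro N
    have h2 : ∀ z, F N z = (N : ℂ)⁻¹ * ∑ n ∈ Finset.range N, K n z * ex (∑ i, v i (z.1 i)) := by
      intro z
      show Pool.Agent.W761.Tail.A (fun n => K n z) N * ex (∑ i, v i (z.1 i)) = _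
      rw [Pool.Agent.W761.Tail.A, mul_assoc, Finset.sum_mul]
    simp only [h2]
    rw [integral_const_mul, integral_finsetSum]
    · simp only [hterm]
      rw [← Finset.mul_sum, Pool.Agent.W761.Tail.A]
      ring
    · intro n _
      refine Integrable.of_bound ((hKm n).mul hvs).aestronglyMeasurable 1
        (Eventually.of_forall fun z => ?_)
      rw [norm_mul, norm_ex, mul_one]
      exact hKb n z
  simp only [hint] at hD
  have hne : Complex.exp ((-Q₀ / 2 : ℝ) : ℂ) ≠ 0 := Complex.exp_ne_zero _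
  refine ⟨(Complex.exp ((-Q₀ / 2 : ℝ) : ℂ))⁻¹ * _, (hD.const_mul
    (Complex.exp ((-Q₀ / 2 : ℝ) : ℂ))⁻¹).congr fun N => ?_⟩
  rw [← mul_assoc, inv_mul_cancel₀ hne, one_mul]

end joint

end Pool.Agent.TH739.Poi

end

end

/-! ## Products of a Gaussian system and a Poisson suspension: the basic functions -/

section

open Filter Topology MeasureTheory ProbabilityTheory Set
open scoped ENNReal NNReal symmDiff

noncomputable section

namespace Pool.Agent.TH739.Poi

open Pool.Agent.W761.Gauss (GaussSpace ex proc Adm norm_ex meas_ex ex_add ex_sum meas_proc BM)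
open Pool.Agent.W761.Tail (Cvg term A_add A_sub A_mul A_bound term_update Cvg_closed Cvg_add
  Cvg_congr)

/-! ### one coordinate -/

section one

variable {X : Type} [mX : MeasurableSpace X] {μ : Measure X} {m : ℕ} {T : X → X}

/-- Closure in one coordinate, without a uniform bound. -/
theorem Cvg_closed1 [IsProbabilityMeasure μ] (hT : MeasurePreserving T μ μ) {f : Fin m → X → ℂ}
    (hf : ∀ j, BM (f j)) (k : Fin m) {h : X → ℂ} (hh : BM h)
    (H : ∀ ε : ℝ, 0 < ε → ∃ g : X → ℂ, BM g ∧ ∫ x, ‖h x - g x‖ ∂μ ≤ ε ∧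
      Cvg μ T (Function.update f k g)) : Cvg μ T (Function.update f k h) := by
  obtain ⟨hhm, Ch, hCh⟩ := hh
  choose hfm CF hCF using hf
  set D : ℝ := ∏ l ∈ Finset.univ.erase k, (|CF l| + 1) with hD
  have hD0 : 0 < D := Finset.prod_pos fun l _ => by positivity
  have hDb : ∀ (n : ℕ) (x : X),
      ‖∏ l ∈ Finset.univ.erase k, f l (T^[((l : ℕ) + 1) * (n + 1)] x)‖ ≤ D := by
    intro n x
    rw [norm_prod]
    apply Finset.prod_le_prod (fun l _ => norm_nonneg _)
    intro l _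
    exact ((hCF l _).trans (le_abs_self _)).trans (by linarith)
  choose g hg hgi hgc using fun i : ℕ => H (1 / ((i : ℝ) + 1)) (by positivity)
  let R : X → X := T^[(k : ℕ) + 1]
  have hR : MeasurePreserving R μ μ := hT.iterate _
  let κ : ℕ → X → ℝ := fun i x => ‖h (R x) - g i (R x)‖
  have hκm : ∀ i, Measurable (κ i) := fun i => ((hhm.sub (hg i).1).comp hR.measurable).norm
  have hκb : ∀ i, ∃ C : ℝ, ∀ x, |κ i x| ≤ C := by
    intro i
    obtain ⟨_, C, hC⟩ := hg i
    refine ⟨Ch + C, fun x => ?_⟩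
    show |‖h (R x) - g i (R x)‖| ≤ _
    rw [abs_norm]
    exact (norm_sub_le _ _).trans (add_le_add (hCh _) (hC _))
  choose Cκ hCκ using hκb
  have hB := fun i => H165R3.BPE.birkhoff hR (κ i) (hκm i) (Cκ i) (hCκ i)
  let L : ℕ → X → ℝ := fun i => μ[κ i | MeasurableSpace.invariants R]
  have hLi : ∀ i, Integrable (L i) μ := fun i => integrable_condExp
  have hL0 : ∀ i, 0 ≤ᵐ[μ] L i := fun i =>
    condExp_nonneg (Eventually.of_forall fun x => norm_nonneg _)
  have hLint : ∀ i, ∫ x, L i x ∂μ ≤ 1 / ((i : ℝ) + 1) := by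
    intro i
    have h1 : ∫ x, L i x ∂μ = ∫ x, κ i x ∂μ := integral_condExp (MeasurableSpace.invariants_le _)
    have h2 : ∫ x, κ i x ∂μ = ∫ x, ‖h x - g i x‖ ∂μ := by
      have h4 := integral_map (μ := μ) (φ := R) (f := fun x => ‖h x - g i x‖)
        hR.measurable.aemeasurable (hhm.sub (hg i).1).norm.aestronglyMeasurable
      rw [hR.map_eq] at h4
      exact h4.symm
    rw [h1, h2]
    exact hgi i
  have hbad : ∀ t : ℕ, ∀ᵐ x ∂μ, ∃ i, L i x < 1 / ((t : ℝ) + 1) := by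
    intro t
    have hε : (0 : ℝ) < 1 / ((t : ℝ) + 1) := by positivity
    rw [ae_iff]
    simp only [not_exists, not_lt]
    have h1 : ∀ i : ℕ, 1 / ((t : ℝ) + 1) * μ.real {x | ∀ i, 1 / ((t : ℝ) + 1) ≤ L i x} ≤
        1 / ((i : ℝ) + 1) := by
      intro i
      refine le_trans ?_ ((mul_meas_ge_le_integral_of_nonneg (hL0 i) (hLi i)
        (1 / ((t : ℝ) + 1))).trans (hLint i))
      refine mul_le_mul_of_nonneg_left ?_ hε.le
      exact measureReal_mono fun x hx => hx i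
    have h2 : 1 / ((t : ℝ) + 1) * μ.real {x | ∀ i, 1 / ((t : ℝ) + 1) ≤ L i x} ≤ 0 :=
      ge_of_tendsto' (tendsto_one_div_add_atTop_nhds_zero_nat (𝕜 := ℝ)) h1
    have h3 : μ.real {x | ∀ i, 1 / ((t : ℝ) + 1) ≤ L i x} = 0 := by
      refine le_antisymm ?_ measureReal_nonneg
      by_contra h4
      rw [not_le] at h4
      exact absurd h2 (not_le.mpr (mul_pos hε h4))
    exact (measureReal_eq_zero_iff).mp h3
  filter_upwards [ae_all_iff.mpr hB, ae_all_iff.mpr hbad, ae_all_iff.mpr hgc] with x hx1 hx2 hx3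
  apply cauchySeq_tendsto_of_complete
  rw [Metric.cauchySeq_iff']
  intro ε hε
  obtain ⟨t, ht⟩ := exists_nat_one_div_lt (show (0 : ℝ) < ε / (4 * D) by positivity)
  obtain ⟨i, hi⟩ := hx2 t
  obtain ⟨N₁, hN₁⟩ := eventually_atTop.mp ((tendsto_order.mp (hx1 i)).2 _ (hi.trans ht))
  obtain ⟨l, hl⟩ := hx3 i
  obtain ⟨N₂, hN₂⟩ := Metric.tendsto_atTop.mp hl (ε / 4) (by positivity)
  have hclose : ∀ N, N₁ ≤ N → ‖W761.Tail.A (fun n => term T (Function.update f k h) n x) N -
      W761.Tail.A (fun n => term T (Function.update f k (g i)) n x) N‖ < ε / 4 := by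
    intro N hN
    have h5 := hN₁ N hN
    rw [← A_sub, W761.Tail.A, norm_mul, norm_inv, Complex.norm_natCast]
    have h3 : ‖∑ n ∈ Finset.range N, (term T (Function.update f k h) n x -
        term T (Function.update f k (g i)) n x)‖ ≤
        D * ∑ n ∈ Finset.range N, κ i (R^[n] x) := by
      refine (norm_sum_le _ _).trans ?_
      rw [Finset.mul_sum]
      apply Finset.sum_le_sum
      intro n _
      rw [term_update, term_update, ← sub_mul, norm_mul, mul_comm]
      refine mul_le_mul (hDb n x) (le_of_eq ?_) (norm_nonneg _) hD0.le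
      show _ = ‖h (R (R^[n] x)) - g i (R (R^[n] x))‖
      rw [← Function.iterate_succ_apply' R n x, ← Function.iterate_mul]
    calc (N : ℝ)⁻¹ * ‖_‖ ≤ (N : ℝ)⁻¹ * (D * ∑ n ∈ Finset.range N, κ i (R^[n] x)) :=
          mul_le_mul_of_nonneg_left h3 (by positivity)
      _ = D * ((N : ℝ)⁻¹ * ∑ n ∈ Finset.range N, κ i (R^[n] x)) := by ring
      _ < D * (ε / (4 * D)) := mul_lt_mul_of_pos_left h5 hD0
      _ = ε / 4 := by field_simp
  refine ⟨max N₁ N₂, fun N hN => ?_⟩
  have a1 := hclose N ((le_max_left _ _).trans hN)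
  have a2 := hclose (max N₁ N₂) (le_max_left _ _)
  have a3 := hN₂ N ((le_max_right _ _).trans hN)
  have a4 := hN₂ (max N₁ N₂) (le_max_right _ _)
  rw [← dist_eq_norm] at a1 a2
  set u := W761.Tail.A (fun n => term T (Function.update f k h) n x) N
  set u' := W761.Tail.A (fun n => term T (Function.update f k h) n x) (max N₁ N₂)
  set w := W761.Tail.A (fun n => term T (Function.update f k (g i)) n x) N
  set w' := W761.Tail.A (fun n => term T (Function.update f k (g i)) n x) (max N₁ N₂)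
  have b1 := dist_triangle u w u'
  have b2 := dist_triangle w l u'
  have b3 := dist_triangle l w' u'
  rw [dist_comm l w'] at b3
  rw [dist_comm w' u'] at b3
  linarith

end one

/-! ### real and complex averages -/

theorem re_conv {e : ℕ → ℂ} {b : ℕ → ℝ}
    (h : ∃ L : ℂ, Tendsto (W761.Tail.A fun n => e n * (b n : ℂ)) atTop (𝓝 L)) :
    CvR (fun n => (e n).re * b n) ∧ CvR (fun n => (e n).im * b n) := by
  obtain ⟨L, hL⟩ := h
  constructor
  · refine ⟨L.re, ((Complex.continuous_re.tendsto L).comp hL).congr fun N => ?_⟩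
    simp only [Function.comp_apply, W761.Tail.A, Av]
    rw [← Complex.ofReal_natCast, ← Complex.ofReal_inv, Complex.re_ofReal_mul, Complex.re_sum]
    simp only [Complex.re_mul_ofReal]
  · refine ⟨L.im, ((Complex.continuous_im.tendsto L).comp hL).congr fun N => ?_⟩
    simp only [Function.comp_apply, W761.Tail.A, Av]
    rw [← Complex.ofReal_natCast, ← Complex.ofReal_inv, Complex.im_ofReal_mul, Complex.im_sum]
    simp only [Complex.im_mul_ofReal]

theorem conv_re {e : ℕ → ℂ} {b : ℕ → ℝ} (h1 : CvR (fun n => (e n).re * b n))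
    (h2 : CvR (fun n => (e n).im * b n)) :
    ∃ L : ℂ, Tendsto (W761.Tail.A fun n => e n * (b n : ℂ)) atTop (𝓝 L) := by
  obtain ⟨L₁, hL₁⟩ := h1
  obtain ⟨L₂, hL₂⟩ := h2
  refine ⟨(L₁ : ℂ) + L₂ * Complex.I, Tendsto.congr (fun N => ?_)
    (((Complex.continuous_ofReal.tendsto _).comp hL₁).add
    (((Complex.continuous_ofReal.tendsto _).comp hL₂).mul_const Complex.I))⟩
  simp only [Function.comp_apply, W761.Tail.A, Av]
  push_cast
  rw [mul_assoc, ← mul_add, Finset.sum_mul, ← Finset.sum_add_distrib]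
  congr 1
  refine Finset.sum_congr rfl fun n _ => ?_
  conv_rhs => rw [← Complex.re_add_im (e n)]
  ring

section joint

variable {X : Type} [MeasurableSpace X] {μ : Measure X} {H : Submodule ℝ (X → ℝ)}
  {Y : Type} [MeasurableSpace Y] {ν : ℕ → Measure Y} {y₀ : Y} {m : ℕ}

/-- The overlaps of all pairs are negligible. -/
theorem ovl_zero [∀ k, IsFiniteMeasure (ν k)] {S : Y → Y} {A : Fin m → Set Y}
    (hov : ∀ i j : Fin m, i < j → Neg ν y₀ S (A i) (A j) ((i : ℕ) + 1) ((j : ℕ) + 1)) :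
    ∀ᵐ ω ∂(PP ν y₀), Tendsto (Av fun n => pv (ω ∉ V (Ov (Cs S A n)))) atTop (𝓝 0) := by
  have h1 : ∀ᵐ ω ∂(PP ν y₀), ∀ i j : Fin m, i < j →
      Tendsto (Av fun n => pv (ω ∉ V (Cs S A n i ∩ Cs S A n j))) atTop (𝓝 0) := by
    rw [ae_all_iff]
    intro i
    rw [ae_all_iff]
    intro j
    by_cases hij : i < j
    · filter_upwards [hov i j hij] with ω hω _
      exact hω
    · exact Eventually.of_forall fun ω h => absurd h hij
  filter_upwards [h1] with ω hω1
  let c : Fin m × Fin m → ℕ → ℝ := fun p n =>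
    if p.1 < p.2 then pv (ω ∉ V (Cs S A n p.1 ∩ Cs S A n p.2)) else 0
  have hc0 : ∀ p n, 0 ≤ c p n := by
    intro p n
    show 0 ≤ if p.1 < p.2 then _ else _
    split_ifs
    · exact pv_nonneg _
    · exact le_rfl
  have hc : Tendsto (Av fun n => ∑ p ∈ (Finset.univ : Finset (Fin m × Fin m)), c p n) atTop
      (𝓝 0) := by
    have h3 : Tendsto (fun N => ∑ p ∈ (Finset.univ : Finset (Fin m × Fin m)), Av (c p) N) atTop
        (𝓝 (∑ p ∈ (Finset.univ : Finset (Fin m × Fin m)), 0)) := by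
      refine tendsto_finsetSum _ fun p _ => ?_
      by_cases hp : p.1 < p.2
      · have : c p = fun n => pv (ω ∉ V (Cs S A n p.1 ∩ Cs S A n p.2)) := by
          funext n
          exact if_pos hp
        rw [this]
        exact hω1 p.1 p.2 hp
      · have : c p = fun _ => 0 := by
          funext n
          exact if_neg hp
        rw [this]
        exact tendsto_const_nhds.congr fun N => (Av_zero N).symm
    rw [Finset.sum_const_zero] at h3
    exact h3.congr fun N => (Av_sum _ c N).symm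
  refine squeeze_zero (fun N => Av_nonneg (fun n => pv_nonneg _) N) (fun N => Av_mono ?_ N) hc
  intro n
  by_cases h : ω ∉ V (Ov (Cs S A n))
  · rw [pv_true h]
    simp only [V, mem_ofPred_eq, not_forall, not_not] at h
    obtain ⟨k, l, hl, i, j, hij, hi, hj⟩ := h
    have h4 : c (i, j) n = 1 := by
      show (if i < j then pv (ω ∉ V (Cs S A n i ∩ Cs S A n j)) else 0) = 1
      rw [if_pos hij]
      refine pv_true fun h5 => ?_
      exact h5 k l hl ⟨hi, hj⟩
    rw [← h4]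
    exact Finset.single_le_sum (f := fun p => c p n) (fun p _ => hc0 p n) (Finset.mem_univ (i, j))
  · rw [pv_false h]
    exact Finset.sum_nonneg fun p _ => hc0 p n

/-- Joint convergence in the model. -/
theorem joint_V [IsProbabilityMeasure μ] (hH : GaussSpace μ H) {G : Fin m → Equiv.Perm X}
    (hG : ∀ j, Adm μ H (G j)) (hc : ∀ j k, Commute (G j) (G k)) {h : Fin m → X → ℝ}
    (hh : ∀ j, h j ∈ H) [∀ k, IsFiniteMeasure (ν k)]
    {S : Y → Y} (hS : MeasurePreserving S (Measure.sum ν) (Measure.sum ν))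
    {A : Fin m → Set Y} (hA : ∀ j, MeasurableSet (A j)) (hfin : ∀ j, Measure.sum ν (A j) ≠ ⊤)
    (hov : ∀ i j : Fin m, i < j → Neg ν y₀ S (A i) (A j) ((i : ℕ) + 1) ((j : ℕ) + 1)) :
    ∀ᵐ p ∂(μ.prod (PP ν y₀)), ∃ L : ℂ, Tendsto (W761.Tail.A fun n =>
      ex ((∑ j, h j ∘ (G j ^ ((n : ℤ) + 1) : Equiv.Perm X)) p.1) *
        (pv (p.2 ∈ V (⋃ j, Cs S A n j)) : ℂ)) atTop (𝓝 L) := by
  obtain ⟨u, v, Q₀, hu, hv, hst, hQ⟩ := gauss_data hH hG hc hh
  have hξ : ∀ n : ℤ, ∑ j, h j ∘ (G j ^ n : Equiv.Perm X) ∈ H := fun n =>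
    H.sum_mem fun j _ => ((hG j).zpow n).st _ (hh j)
  have h1 : ∀ᵐ p ∂(μ.prod (PP ν y₀)), ∀ i : ℕ, ∃ L : ℂ, Tendsto (W761.Tail.A fun n =>
      ex ((∑ j, h j ∘ (G j ^ ((n : ℤ) + 1) : Equiv.Perm X)) p.1) *
        (Hi (gU ((m + 1 : ℝ)⁻¹ * (1 - 1 / ((i : ℝ) + 2))) (Cs S A n)) p.2 : ℂ)) atTop (𝓝 L) := by
    rw [ae_all_iff]
    intro i
    exact core2 hH (ξ := fun n : ℤ => ∑ j, h j ∘ (G j ^ n : Equiv.Perm X)) hξ hu hv hst hQ
      (q_bd m i).1 (q_bd m i).2 hS hA hfin
  have h2 : ∀ᵐ p ∂(μ.prod (PP ν y₀)),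
      Tendsto (Av fun n => pv (p.2 ∉ V (Ov (Cs S A n)))) atTop (𝓝 0) :=
    Measure.quasiMeasurePreserving_snd.ae (ovl_zero hov)
  filter_upwards [h1, h2] with p hp1 hp2
  have hr := fun i => re_conv (hp1 i)
  have hb : ∀ n : ℕ, ‖ex ((∑ j, h j ∘ (G j ^ ((n : ℤ) + 1) : Equiv.Perm X)) p.1)‖ ≤ 1 := fun n =>
    (norm_ex _).le
  refine conv_re ?_ ?_
  · exact conv_V_of_w (fun n => (Complex.abs_re_le_norm _).trans (hb n)) hp2 fun i => (hr i).1
  · exact conv_V_of_w (fun n => (Complex.abs_im_le_norm _).trans (hb n)) hp2 fun i => (hr i).2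

end joint

end Pool.Agent.TH739.Poi

end

end

/-! ## Products of a Gaussian system and a Poisson suspension: all bounded functions -/

section

open Filter Topology MeasureTheory ProbabilityTheory Set
open scoped ENNReal NNReal symmDiff

noncomputable section

namespace Pool.Agent.TH739.Poi

open Pool.Agent.W761.Gauss (GaussSpace ex Adm norm_ex meas_ex ex_add ex_sum BM EP dense_EP sig
  meas_exh sat le_sat sig_mono)
open Pool.Agent.W761.Tail (Cvg term A_add A_sub A_mul A_bound term_update Cvg_closed Cvg_add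
  Cvg_congr IsGaussian)

/-- The events of the suspension in terms of the iterates. -/
theorem IsVoid.mem_iff {Y X : Type} [MeasurableSpace Y] [MeasurableSpace X] {ν : Measure Y}
    {S : Y → Y} {μ : Measure X} {T : X → X} {E : Set Y → Set X} [IsProbabilityMeasure μ]
    (h : IsVoid ν S μ T E) (hS : MeasurePreserving S ν ν) (hT : MeasurePreserving T μ μ) {m : ℕ}
    {A : Fin m → Set Y} (hA : ∀ j, MeasurableSet (A j)) (hfin : ∀ j, ν (A j) ≠ ∞) :
    ∀ᵐ x ∂μ, ∀ n, (x ∈ E (⋃ j ∈ (Finset.univ : Finset (Fin m)), Cs S A n j)) ↔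
      ∀ j : Fin m, T^[((j : ℕ) + 1) * (n + 1)] x ∈ E (A j) := by
  have hC : ∀ n j, MeasurableSet (Cs S A n j) := fun n j => Cs_meas hS.measurable hA n j
  have hCf : ∀ n j, ν (Cs S A n j) ≠ ∞ := fun n j => by
    have : ν (Cs S A n j) = ν (A j) := (hS.iterate _).measure_preimage (hA j).nullMeasurableSet
    rw [this]
    exact hfin j
  rw [ae_all_iff]
  intro n
  have h4 := h.biUnion (Finset.univ : Finset (Fin m)) (hC n) (hCf n)
  have h5 : ∀ᵐ x ∂μ, ∀ j : Fin m, (x ∈ E (Cs S A n j)) ↔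
      T^[((j : ℕ) + 1) * (n + 1)] x ∈ E (A j) := by
    rw [ae_all_iff]
    intro j
    have h6 := h.iter hS hT (((j : ℕ) + 1) * (n + 1)) (A j) (hA j) (hfin j)
    filter_upwards [h6] with x hx
    exact (Iff.of_eq hx).symm
  filter_upwards [h4, h5] with x hx hx'
  have hx2 : (x ∈ E (⋃ j ∈ (Finset.univ : Finset (Fin m)), Cs S A n j)) ↔
      x ∈ ⋂ i ∈ (Finset.univ : Finset (Fin m)), E (Cs S A n i) := Iff.of_eq hx
  rw [hx2]
  simp only [Finset.mem_univ, iInter_true, mem_iInter]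
  exact forall_congr' hx'

section prod

variable {X₁ X₂ Y : Type} [MeasurableSpace X₁] [MeasurableSpace X₂] [MeasurableSpace Y]
  {μ₁ : Measure X₁} {μ₂ : Measure X₂} {ν : Measure Y} {S : Y → Y} {T₂ : X₂ → X₂}
  {E : Set Y → Set X₂} {H : Submodule ℝ (X₁ → ℝ)} {G₁ : Equiv.Perm X₁} {m : ℕ}

/-- The product functions. -/
def Pf (E : Set Y → Set X₂) (F : Fin m → X₁ → ℂ) (A : Fin m → Set Y) (j : Fin m)
    (z : X₁ × X₂) : ℂ := F j z.1 * (E (A j)).indicator (fun _ => 1) z.2

/-- Convergence for the basic functions. -/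
theorem joint_E [IsProbabilityMeasure μ₁] [IsProbabilityMeasure μ₂] (hH : GaussSpace μ₁ H)
    (hG : Adm μ₁ H G₁) {h : Fin m → X₁ → ℝ} (hh : ∀ j, h j ∈ H) (hE : IsVoid ν S μ₂ T₂ E)
    (hS : MeasurePreserving S ν ν) (hT : MeasurePreserving T₂ μ₂ μ₂) {ν' : ℕ → Measure Y}
    [∀ k, IsFiniteMeasure (ν' k)] (hν : Measure.sum ν' = ν) {y₀ : Y} {A : Fin m → Set Y}
    (hA : ∀ j, MeasurableSet (A j)) (hfin : ∀ j, ν (A j) ≠ ∞)
    (hov : ∀ i j : Fin m, i < j → Neg ν' y₀ S (A i) (A j) ((i : ℕ) + 1) ((j : ℕ) + 1)) :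
    Cvg (μ₁.prod μ₂) (Prod.map G₁ T₂) (Pf E (fun j x => ex (h j x)) A) := by
  subst hν
  set ν := Measure.sum ν' with hν
  let G : Fin m → Equiv.Perm X₁ := fun j => G₁ ^ ((j : ℕ) + 1)
  have hGa : ∀ j, Adm μ₁ H (G j) := fun j => hG.pow _
  have hGc : ∀ j k, Commute (G j) (G k) := fun j k => (Commute.refl G₁).pow_pow _ _
  have hC : ∀ n j, MeasurableSet (Cs S A n j) := fun n j => Cs_meas hS.measurable hA n j
  have hCf : ∀ n j, ν (Cs S A n j) ≠ ∞ := fun n j => by
    rw [hν, Cs_fin hS hA]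
    exact hfin j
  let B : ℕ → Set Y := fun n => ⋃ j ∈ (Finset.univ : Finset (Fin m)), Cs S A n j
  have hB : ∀ n, MeasurableSet (B n) := fun n =>
    Finset.measurableSet_biUnion _ fun j _ => hC n j
  have hBf : ∀ n, ν (B n) ≠ ∞ := fun n => fin_biUnion _ (hCf n)
  have h1 := joint_V (y₀ := y₀) hH hGa hGc hh hS hA hfin hov
  have eB : ∀ n, (⋃ j, Cs S A n j) = B n := fun n => by simp [B]
  simp only [eB] at h1
  let ξ : ℕ → X₁ → ℝ := fun n => ∑ j, h j ∘ (G j ^ ((n : ℤ) + 1) : Equiv.Perm X₁)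
  have hξm : ∀ n, Measurable (ξ n) := fun n =>
    hH.meas _ (H.sum_mem fun j _ => ((hGa j).zpow _).st _ (hh j))
  let 𝒢 : Set (X₁ × (ℕ → Prop)) := {p | ∃ L : ℂ, Tendsto (W761.Tail.A fun n =>
    ex (ξ n p.1) * (pv (p.2 n) : ℂ)) atTop (𝓝 L)}
  have h𝒢 : MeasurableSet 𝒢 := by
    apply measurableSet_exists_tendsto
    intro N
    unfold W761.Tail.A
    refine (Finset.measurable_fun_sum _ fun n _ => ?_).const_mul _
    refine Measurable.mul (meas_ex.comp ((hξm n).comp measurable_fst)) ?_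
    exact Complex.measurable_ofReal.comp (measurable_pv.comp
      ((measurable_pi_apply n).comp measurable_snd))
  let F : ℕ → Set (Om Y) := fun n => V (B n)
  let F' : ℕ → Set X₂ := fun n => E (B n)
  have hF : ∀ n, MeasurableSet (F n) := fun n => V_meas (hB n)
  have hF' : ∀ n, MeasurableSet (F' n) := fun n => hE.meas _ (hB n) (hBf n)
  have hlaw : (PP ν' y₀).map (seqOf F) = μ₂.map (seqOf F') := by
    refine law_eq hF hF' fun I => ?_
    rw [← V_union, prob_V (Finset.measurableSet_biUnion _ fun n _ => hB n) (fin_biUnion I hBf),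
      ← measure_congr (hE.biUnion I hB hBf),
      hE.prob _ (Finset.measurableSet_biUnion _ fun n _ => hB n) (fin_biUnion I hBf)]
  have g1 : MeasurePreserving (Prod.map id (seqOf F)) (μ₁.prod (PP ν' y₀))
      (μ₁.prod ((PP ν' y₀).map (seqOf F))) := by
    have := Measure.isProbabilityMeasure_map (μ := PP ν' y₀) (seqOf_meas hF).aemeasurable
    exact (MeasurePreserving.id μ₁).prod ⟨seqOf_meas hF, rfl⟩
  have g2 : MeasurePreserving (Prod.map id (seqOf F')) (μ₁.prod μ₂)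
      (μ₁.prod (μ₂.map (seqOf F'))) := by
    have := Measure.isProbabilityMeasure_map (μ := μ₂) (seqOf_meas hF').aemeasurable
    exact (MeasurePreserving.id μ₁).prod ⟨seqOf_meas hF', rfl⟩
  have h2 : ∀ᵐ z ∂(μ₁.prod ((PP ν' y₀).map (seqOf F))), z ∈ 𝒢 := by
    rw [← g1.map_eq]
    exact (ae_map_iff g1.measurable.aemeasurable h𝒢).mpr h1
  rw [hlaw] at h2
  have h3 := g2.quasiMeasurePreserving.ae h2
  have h4 : ∀ᵐ z ∂(μ₁.prod μ₂), ∀ n, (z.2 ∈ E (B n)) ↔
      ∀ j : Fin m, T₂^[((j : ℕ) + 1) * (n + 1)] z.2 ∈ E (A j) :=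
    Measure.quasiMeasurePreserving_snd.ae (hE.mem_iff hS hT hA hfin)
  filter_upwards [h3, h4] with z hz hz'
  obtain ⟨L, hL⟩ := hz
  refine ⟨L, hL.congr fun N => ?_⟩
  congr 1
  funext n
  show ex (ξ n z.1) * (pv (z.2 ∈ E (B n)) : ℂ) = term (Prod.map G₁ T₂) _ n z
  rw [term]
  simp only [Pf, Prod.map_iterate, Prod.map_fst, Prod.map_snd]
  rw [Finset.prod_mul_distrib, ← ex_sum]
  congr 1
  · congr 1
    show (∑ j, h j ∘ (G j ^ ((n : ℤ) + 1) : Equiv.Perm X₁)) z.1 = _
    rw [Finset.sum_apply]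
    refine Finset.sum_congr rfl fun j _ => ?_
    show h j ((((G₁ ^ ((j : ℕ) + 1)) ^ ((n : ℤ) + 1) : Equiv.Perm X₁)) z.1) = _
    congr 1
    have e1 : ((n : ℤ) + 1) = ((n + 1 : ℕ) : ℤ) := by push_cast; rfl
    rw [e1, zpow_natCast, ← pow_mul, ← Equiv.Perm.iterate_eq_pow]
  · rw [hz' n]
    by_cases h7 : ∀ j : Fin m, T₂^[((j : ℕ) + 1) * (n + 1)] z.2 ∈ E (A j)
    · rw [pv_true h7]
      symm
      rw [Complex.ofReal_one]
      exact Finset.prod_eq_one fun j _ => indicator_of_mem (h7 j) _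
    · rw [pv_false h7]
      rw [not_forall] at h7
      obtain ⟨j, hj⟩ := h7
      symm
      rw [Complex.ofReal_zero]
      exact Finset.prod_eq_zero (Finset.mem_univ j) (indicator_of_notMem hj _)

omit [MeasurableSpace X₂] in
theorem ind_norm (D : Set X₂) (x : X₂) : ‖D.indicator (fun _ => (1 : ℂ)) x‖ ≤ 1 :=
  (norm_indicator_le_norm_self _ _).trans (by simp)

omit [MeasurableSpace Y] in
theorem Pf_meas {F : Fin m → X₁ → ℂ} (hF : ∀ j, BM (F j)) {A : Fin m → Set Y}
    (hE : ∀ j, MeasurableSet (E (A j))) (j : Fin m) : BM (Pf E F A j) := by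
  obtain ⟨hFm, C, hC⟩ := hF j
  refine ⟨(hFm.comp measurable_fst).mul ((measurable_const.indicator (hE j)).comp measurable_snd),
    C, fun z => ?_⟩
  show ‖F j z.1 * _‖ ≤ C
  rw [norm_mul]
  exact (mul_le_of_le_one_right (norm_nonneg _) (ind_norm _ _)).trans (hC _)

omit [MeasurableSpace X₁] [MeasurableSpace X₂] [MeasurableSpace Y] in
theorem Pf_update (E : Set Y → Set X₂) (F : Fin m → X₁ → ℂ) (A : Fin m → Set Y) (k : Fin m)
    (g : X₁ → ℂ) : Pf E (Function.update F k g) A =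
      Function.update (Pf E F A) k fun z => g z.1 * (E (A k)).indicator (fun _ => 1) z.2 := by
  funext j
  by_cases hj : j = k
  · subst hj
    rw [Function.update_self]
    funext z
    rw [Pf, Function.update_self]
  · rw [Function.update_of_ne hj]
    funext z
    rw [Pf, Pf, Function.update_of_ne hj]

/-- Convergence for all sets of finite measure. -/
theorem joint_fin [IsProbabilityMeasure μ₁] [IsProbabilityMeasure μ₂] (hH : GaussSpace μ₁ H)
    (hG : Adm μ₁ H G₁) {h : Fin m → X₁ → ℝ} (hh : ∀ j, h j ∈ H) (hE : IsVoid ν S μ₂ T₂ E)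
    (hS : MeasurePreserving S ν ν) (hT : MeasurePreserving T₂ μ₂ μ₂) {ν' : ℕ → Measure Y}
    [∀ k, IsFiniteMeasure (ν' k)] (hν : Measure.sum ν' = ν) {y₀ : Y} {ℛ : Set (Set Y)}
    (hℛ : ∀ A ∈ ℛ, MeasurableSet A ∧ ν A ≠ ∞)
    (hd : ∀ A, MeasurableSet A → ν A ≠ ∞ → ∀ ε : ℝ, 0 < ε → ∃ B ∈ ℛ, (ν (A ∆ B)).toReal ≤ ε)
    (hov : ∀ A ∈ ℛ, ∀ B ∈ ℛ, ∀ a b : ℕ, 0 < a → a < b → Neg ν' y₀ S A B a b) {A : Fin m → Set Y}
    (hA : ∀ j, MeasurableSet (A j)) (hfin : ∀ j, ν (A j) ≠ ∞) :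
    Cvg (μ₁.prod μ₂) (Prod.map G₁ T₂) (Pf E (fun j x => ex (h j x)) A) := by
  have hTT : MeasurePreserving (Prod.map G₁ T₂) (μ₁.prod μ₂) (μ₁.prod μ₂) := hG.mp.prod hT
  have hBM : ∀ j, BM fun x => ex (h j x) := fun j =>
    ⟨meas_exh hH (hh j), 1, fun x => (norm_ex _).le⟩
  have hb : ∀ (A : Fin m → Set Y) (j : Fin m) (z : X₁ × X₂),
      ‖Pf E (fun j x => ex (h j x)) A j z‖ ≤ 1 := by
    intro A j z
    show ‖ex _ * _‖ ≤ 1
    rw [norm_mul, norm_ex, one_mul]
    exact ind_norm _ _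
  refine Cvg_closed hTT (C := 1)
    (fun j => (Pf_meas hBM (fun j => hE.meas _ (hA j) (hfin j)) j).1) (hb A) fun ε hε => ?_
  choose B hB hAB using fun j => hd (A j) (hA j) (hfin j) ε hε
  refine ⟨0, Pf E (fun j x => ex (h j x)) B,
    fun j => (Pf_meas hBM (fun j => hE.meas _ (hℛ _ (hB j)).1 (hℛ _ (hB j)).2) j).1, hb B,
    fun j => ?_, ?_⟩
  · refine le_trans (le_of_eq ?_)
      ((hE.dist (hA j) (hℛ _ (hB j)).1 (hfin j) (hℛ _ (hB j)).2).trans (hAB j))
    have e1 : ∀ z : X₁ × X₂, ‖Pf E (fun j x => ex (h j x)) A j ((Prod.map G₁ T₂)^[0] z) -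
        Pf E (fun j x => ex (h j x)) B j z‖ =
        ‖(E (A j)).indicator (fun _ => (1 : ℂ)) z.2 -
          (E (B j)).indicator (fun _ => (1 : ℂ)) z.2‖ := by
      intro z
      show ‖ex (h j z.1) * _ - ex (h j z.1) * _‖ = _
      rw [← mul_sub, norm_mul, norm_ex, one_mul]
      rfl
    simp only [e1]
    rw [integral_fun_snd (fun x => ‖(E (A j)).indicator (fun _ => (1 : ℂ)) x -
      (E (B j)).indicator (fun _ => (1 : ℂ)) x‖), probReal_univ, one_smul]
  · exact joint_E hH hG hh hE hS hT hν (y₀ := y₀) (fun j => (hℛ _ (hB j)).1)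
      (fun j => (hℛ _ (hB j)).2) fun i j hij =>
        hov _ (hB i) _ (hB j) _ _ (Nat.succ_pos _) (Nat.succ_lt_succ hij)

/-- Convergence for products of bounded functions and void events. -/
theorem joint_BM [IsProbabilityMeasure μ₁] [IsProbabilityMeasure μ₂] (hH : GaussSpace μ₁ H)
    (hgen : ∀ A, MeasurableSet A → ∃ B, MeasurableSet[sig H] B ∧ A =ᵐ[μ₁] B)
    (hG : Adm μ₁ H G₁) (hT : MeasurePreserving T₂ μ₂ μ₂) {A : Fin m → Set Y}
    (hE : ∀ j, MeasurableSet (E (A j)))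
    (hbase : ∀ h : Fin m → X₁ → ℝ, (∀ j, h j ∈ H) →
      Cvg (μ₁.prod μ₂) (Prod.map G₁ T₂) (Pf E (fun j x => ex (h j x)) A))
    {F : Fin m → X₁ → ℂ} (hF : ∀ j, BM (F j)) :
    Cvg (μ₁.prod μ₂) (Prod.map G₁ T₂) (Pf E F A) := by
  have hTT : MeasurePreserving (Prod.map G₁ T₂) (μ₁.prod μ₂) (μ₁.prod μ₂) := hG.mp.prod hT
  have key : ∀ (I : Finset (Fin m)) (F : Fin m → X₁ → ℂ), (∀ j ∈ I, BM (F j)) →
      (∀ j ∉ I, ∃ h ∈ H, F j = fun x => ex (h x)) →
        Cvg (μ₁.prod μ₂) (Prod.map G₁ T₂) (Pf E F A) := by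
    intro I
    induction I using Finset.induction_on with
    | empty =>
      intro F _ h2
      choose h hh hFh using fun j => h2 j (Finset.notMem_empty j)
      have h3 : F = fun j x => ex (h j x) := by
        funext j
        exact hFh j
      rw [h3]
      exact hbase h hh
    | insert j I hj ih =>
      intro F h1 h2
      have hBMall : ∀ l, BM (F l) := by
        intro l
        by_cases hl : l ∈ insert j I
        · exact h1 l hl
        · obtain ⟨h, hh, e⟩ := h2 l hl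
          rw [e]
          exact ⟨meas_exh hH hh, 1, fun x => (norm_ex _).le⟩
      have hbmj : BM (F j) := hBMall j
      have hmain : Cvg (μ₁.prod μ₂) (Prod.map G₁ T₂) (Pf E (Function.update F j (F j)) A) := by
        rw [Pf_update]
        have hBj : ∀ g : X₁ → ℂ, BM g →
            BM fun z : X₁ × X₂ => g z.1 * (E (A j)).indicator (fun _ => (1 : ℂ)) z.2 := by
          rintro g ⟨hgm, C, hC⟩
          refine ⟨(hgm.comp measurable_fst).mul
            ((measurable_const.indicator (hE j)).comp measurable_snd), C, fun z => ?_⟩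
          rw [norm_mul]
          exact (mul_le_of_le_one_right (norm_nonneg _) (ind_norm _ _)).trans (hC _)
        refine Cvg_closed1 hTT (fun l => Pf_meas hBMall hE l) j (hBj _ hbmj) fun ε hε => ?_
        obtain ⟨hfm, C, hC⟩ := hbmj
        have hmem : MemLp (F j) 2 μ₁ := MemLp.of_bound hfm.aestronglyMeasurable C
          (Eventually.of_forall hC)
        obtain ⟨g, hg, hfg⟩ := dense_EP hH hgen hmem hε
        have hg' : BM g ∧ Cvg (μ₁.prod μ₂) (Prod.map G₁ T₂)
            (Pf E (Function.update F j g) A) := by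
          refine Submodule.span_induction
            (p := fun (g : X₁ → ℂ) _ => BM g ∧ Cvg (μ₁.prod μ₂) (Prod.map G₁ T₂)
              (Pf E (Function.update F j g) A)) ?_ ?_ ?_ ?_ hg
          · rintro _ ⟨h, hh, rfl⟩
            refine ⟨⟨meas_exh hH hh, 1, fun x => (norm_ex _).le⟩, ?_⟩
            apply ih
            · intro l hl
              have hlj : l ≠ j := fun e => hj (e ▸ hl)
              rw [Function.update_of_ne hlj]
              exact h1 l (Finset.mem_insert_of_mem hl)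
            · intro l hl
              by_cases hlj : l = j
              · subst hlj
                exact ⟨h, hh, by rw [Function.update_self]⟩
              · rw [Function.update_of_ne hlj]
                apply h2
                intro hmem'
                rcases Finset.mem_insert.mp hmem' with h5 | h5
                · exact hlj h5
                · exact hl h5
          · refine ⟨⟨measurable_const, 0, fun x => by simp⟩, ?_⟩
            rw [Pf_update]
            refine Eventually.of_forall fun z => ⟨0, ?_⟩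
            refine Tendsto.congr (fun N => ?_) (tendsto_const_nhds (x := (0 : ℂ)))
            rw [W761.Tail.A]
            simp [term_update]
          · rintro g₁ g₂ _ _ ⟨⟨m₁, C₁, b₁⟩, c₁⟩ ⟨⟨m₂, C₂, b₂⟩, c₂⟩
            refine ⟨⟨m₁.add m₂, C₁ + C₂, fun x => (norm_add_le _ _).trans
              (add_le_add (b₁ x) (b₂ x))⟩, ?_⟩
            rw [Pf_update] at c₁ c₂ ⊢
            have e : (fun z : X₁ × X₂ => (g₁ + g₂) z.1 *
                (E (A j)).indicator (fun _ => (1 : ℂ)) z.2) =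
                (fun z : X₁ × X₂ => g₁ z.1 * (E (A j)).indicator (fun _ => (1 : ℂ)) z.2) +
                fun z : X₁ × X₂ => g₂ z.1 * (E (A j)).indicator (fun _ => (1 : ℂ)) z.2 := by
              funext z
              simp only [Pi.add_apply]
              ring
            rw [e]
            exact Cvg_add c₁ c₂
          · rintro c g₁ _ ⟨⟨m₁, C₁, b₁⟩, c₁⟩
            refine ⟨⟨m₁.const_smul c, ‖c‖ * C₁, fun x => ?_⟩, ?_⟩
            · rw [Pi.smul_apply, norm_smul]
              exact mul_le_mul_of_nonneg_left (b₁ x) (norm_nonneg _)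
            · rw [Pf_update] at c₁ ⊢
              have e : (fun z : X₁ × X₂ => (c • g₁) z.1 *
                  (E (A j)).indicator (fun _ => (1 : ℂ)) z.2) =
                  fun z : X₁ × X₂ => c * (g₁ z.1 *
                    (E (A j)).indicator (fun _ => (1 : ℂ)) z.2) := by
                funext z
                simp only [Pi.smul_apply, smul_eq_mul]
                ring
              rw [e]
              exact Cvg_smul c c₁
        refine ⟨fun z => g z.1 * (E (A j)).indicator (fun _ => (1 : ℂ)) z.2, hBj g hg'.1, ?_, ?_⟩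
        · refine le_trans ?_ hfg
          have i1 : Integrable (fun x => ‖F j x - g x‖) μ₁ := by
            obtain ⟨gm, C', hC'⟩ := hg'.1
            refine Integrable.of_bound (hfm.sub gm).norm.aestronglyMeasurable (C + C')
              (Eventually.of_forall fun x => ?_)
            rw [norm_norm]
            exact (norm_sub_le _ _).trans (add_le_add (hC x) (hC' x))
          have i2 : Integrable (fun z : X₁ × X₂ => ‖F j z.1 - g z.1‖) (μ₁.prod μ₂) :=
            i1.comp_fst μ₂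
          have e2 : ∫ x, ‖F j x - g x‖ ∂μ₁ =
              ∫ z : X₁ × X₂, ‖F j z.1 - g z.1‖ ∂(μ₁.prod μ₂) := by
            rw [integral_fun_fst (fun x => ‖F j x - g x‖), probReal_univ, one_smul]
          rw [e2]
          refine integral_mono_of_nonneg (Eventually.of_forall fun z => norm_nonneg _) i2
            (Eventually.of_forall fun z => ?_)
          show ‖_ - _‖ ≤ ‖F j z.1 - g z.1‖
          rw [← sub_mul, norm_mul]
          exact mul_le_of_le_one_right (norm_nonneg _) (ind_norm _ _)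
        · rw [← Pf_update]
          exact hg'.2
      rwa [Function.update_eq_self] at hmain
  exact key Finset.univ F (fun j _ => hF j) fun j hj => absurd (Finset.mem_univ j) hj

end prod

end Pool.Agent.TH739.Poi

end

end

/-! ## Products of a Gaussian system and a Poisson suspension: convergence -/

section

open Filter Topology MeasureTheory ProbabilityTheory Set
open scoped ENNReal NNReal symmDiff

noncomputable section

namespace Pool.Agent.TH739.Poi

open Pool.Agent.W761.Gauss (GaussSpace Adm BM sig sat le_sat sig_mono)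
open Pool.Agent.W761.Tail (Cvg Cvg_congr IsGaussian IsExhaustive IsTailSet)

variable {X₁ X₂ Y : Type} [MeasurableSpace X₁] [MeasurableSpace X₂] [MeasurableSpace Y]
  {μ₁ : Measure X₁} {μ₂ : Measure X₂} {ν : Measure Y} {S : Y → Y} {T₂ : X₂ → X₂}
  {E : Set Y → Set X₂} {G₁ : Equiv.Perm X₁} {m : ℕ}

theorem prod_ae [IsProbabilityMeasure μ₁] [IsProbabilityMeasure μ₂] (D : Set X₁)
    {B B' : Set X₂} (h : B =ᵐ[μ₂] B') : (D ×ˢ B : Set (X₁ × X₂)) =ᵐ[μ₁.prod μ₂] D ×ˢ B' := by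
  have h1 : ∀ᵐ z ∂(μ₁.prod μ₂), (z.2 ∈ B) = (z.2 ∈ B') :=
    Measure.quasiMeasurePreserving_snd.ae h
  filter_upwards [h1] with z hz
  show (z.1 ∈ D ∧ z.2 ∈ B) = (z.1 ∈ D ∧ z.2 ∈ B')
  rw [hz]

/-- The π-system of the rectangles with void events. -/
def Rec (μ₁ : Measure X₁) (μ₂ : Measure X₂) (ν : Measure Y) (E : Set Y → Set X₂) :
    Set (Set (X₁ × X₂)) :=
  {D | MeasurableSet D ∧ ∃ (D₁ : Set X₁) (A : Set Y), MeasurableSet D₁ ∧ MeasurableSet A ∧
    ν A ≠ ∞ ∧ D =ᵐ[μ₁.prod μ₂] D₁ ×ˢ E A}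

theorem Rec_pi [IsProbabilityMeasure μ₁] [IsProbabilityMeasure μ₂] (hE : IsVoid ν S μ₂ T₂ E) :
    IsPiSystem (Rec μ₁ μ₂ ν E) := by
  rintro D ⟨hD, D₁, A, hD₁, hA, hAf, e⟩ D' ⟨hD', D₁', A', hD₁', hA', hAf', e'⟩ _
  refine ⟨hD.inter hD', D₁ ∩ D₁', A ∪ A', hD₁.inter hD₁', hA.union hA',
    (measure_union_lt_top hAf.lt_top hAf'.lt_top).ne, ?_⟩
  refine (e.inter e').trans ?_
  rw [prod_inter_prod]
  exact prod_ae _ (hE.union A A' hA hA' hAf hAf').symm

theorem Rec_univ [IsProbabilityMeasure μ₁] [IsProbabilityMeasure μ₂] (hE : IsVoid ν S μ₂ T₂ E)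
    {C₁ : Set X₁} (hC₁ : MeasurableSet C₁) : C₁ ×ˢ (univ : Set X₂) ∈ Rec μ₁ μ₂ ν E :=
  ⟨hC₁.prod MeasurableSet.univ, C₁, ∅, hC₁, MeasurableSet.empty, by simp,
    prod_ae _ hE.empty.symm⟩

theorem Rec_gen [IsProbabilityMeasure μ₁] [IsProbabilityMeasure μ₂] (hE : IsVoid ν S μ₂ T₂ E)
    (C : Set (X₁ × X₂)) (hC : MeasurableSet C) :
    ∃ D, MeasurableSet[MeasurableSpace.generateFrom (Rec μ₁ μ₂ ν E)] D ∧
      C =ᵐ[μ₁.prod μ₂] D := by
  have h1 : ∀ C₁ : Set X₁, MeasurableSet C₁ → ∀ D₂ : Set X₂,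
      MeasurableSet[MeasurableSpace.generateFrom {D | ∃ A, MeasurableSet A ∧ ν A ≠ ∞ ∧ D = E A}]
        D₂ → MeasurableSet[MeasurableSpace.generateFrom (Rec μ₁ μ₂ ν E)] (C₁ ×ˢ D₂) := by
    intro C₁ hC₁ D₂ hD₂
    induction D₂, hD₂ using MeasurableSpace.generateFrom_induction with
    | hC t ht _ =>
      obtain ⟨A, hA, hAf, rfl⟩ := ht
      exact MeasurableSpace.measurableSet_generateFrom
        ⟨hC₁.prod (hE.meas A hA hAf), C₁, A, hC₁, hA, hAf, ae_eq_refl _⟩
    | empty =>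
      rw [prod_empty]
      exact @MeasurableSet.empty _ (MeasurableSpace.generateFrom (Rec μ₁ μ₂ ν E))
    | compl t _ ih =>
      have e : C₁ ×ˢ tᶜ = (C₁ ×ˢ (univ : Set X₂)) \ (C₁ ×ˢ t) := by
        ext z
        simp only [mem_prod, mem_compl_iff, mem_univ, and_true, Set.mem_sdiff]
        tauto
      rw [e]
      exact MeasurableSet.diff
        (MeasurableSpace.measurableSet_generateFrom (Rec_univ hE hC₁)) ih
    | iUnion f _ ih =>
      rw [prod_iUnion]
      exact MeasurableSet.iUnion ih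
  have h2 : ∀ C : Set (X₁ × X₂), MeasurableSet[MeasurableSpace.generateFrom
      (image2 (fun (s : Set X₁) (t : Set X₂) => s ×ˢ t) {s | MeasurableSet s}
        {t | MeasurableSet t})] C →
      ∃ D, MeasurableSet[MeasurableSpace.generateFrom (Rec μ₁ μ₂ ν E)] D ∧
        C =ᵐ[μ₁.prod μ₂] D := by
    intro C hC
    induction C, hC using MeasurableSpace.generateFrom_induction with
    | hC t ht _ =>
      obtain ⟨C₁, hC₁, C₂, hC₂, rfl⟩ := ht
      obtain ⟨D₂, hD₂, e⟩ := hE.gen C₂ hC₂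
      exact ⟨C₁ ×ˢ D₂, h1 C₁ hC₁ D₂ hD₂, prod_ae _ e⟩
    | empty =>
      exact ⟨∅, @MeasurableSet.empty _ (MeasurableSpace.generateFrom (Rec μ₁ μ₂ ν E)),
        ae_eq_refl _⟩
    | compl t _ ih =>
      obtain ⟨D, hD, e⟩ := ih
      exact ⟨Dᶜ, MeasurableSet.compl hD, e.compl⟩
    | iUnion f _ ih =>
      choose D hD e using ih
      exact ⟨⋃ n, D n, MeasurableSet.iUnion hD, Filter.EventuallyEq.countable_iUnion e⟩
  refine h2 C ?_
  rw [generateFrom_prod]
  exact hC

/-- **Convergence for the product of a Gaussian system and a Poisson suspension.** -/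
theorem conv_prod [Nonempty Y] [SFinite ν] [IsProbabilityMeasure μ₁] [IsProbabilityMeasure μ₂]
    (h₁ : IsGaussian μ₁ G₁) (h₂ : IsPoisson ν S μ₂ T₂)
    (hcond : HasRate ν S ∨ (BourgainTheorem ∧ Ergodic T₂ μ₂)) {f : Fin m → X₁ × X₂ → ℂ}
    (hf : ∀ j, BM (f j)) : Cvg (μ₁.prod μ₂) (Prod.map G₁ T₂) f := by
  obtain ⟨y₀⟩ := (inferInstance : Nonempty Y)
  have hν : Measure.sum (sfiniteSeq ν) = ν := sum_sfiniteSeq ν
  obtain ⟨ℛ, hℛ, hd, hov⟩ := family h₂ hcond hν y₀
  obtain ⟨E, hE⟩ := h₂.void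
  have hS := h₂.base
  have hT := h₂.mp
  obtain ⟨H, g1, g2, g3⟩ := h₁.gauss
  have hH : GaussSpace μ₁ H := ⟨fun h hh => (g1 h hh).1, fun h hh => (g1 h hh).2⟩
  have hadm : Adm μ₁ (sat μ₁ H) G₁ := by
    have hinv : MeasurePreserving ((G₁)⁻¹ : Equiv.Perm X₁) μ₁ μ₁ := by
      let e : X₁ ≃ᵐ X₁ := ⟨G₁, h₁.mp.measurable, h₁.meas_symm⟩
      exact h₁.mp.symm e
    refine ⟨h₁.mp, hinv, ?_, ?_⟩
    · rintro g ⟨hg, h, hh, e⟩
      obtain ⟨h', hh', e'⟩ := (g2 h hh).1
      refine ⟨hg.comp h₁.mp.measurable, h', hh', ?_⟩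
      exact (h₁.mp.quasiMeasurePreserving.ae_eq_comp e).trans e'
    · rintro g ⟨hg, h, hh, e⟩
      obtain ⟨h', hh', e'⟩ := (g2 h hh).2
      refine ⟨hg.comp hinv.measurable, h', hh', ?_⟩
      exact (hinv.quasiMeasurePreserving.ae_eq_comp e).trans e'
  have hgen : ∀ A, MeasurableSet A → ∃ B, MeasurableSet[sig (sat μ₁ H)] B ∧ A =ᵐ[μ₁] B := by
    intro A hA
    obtain ⟨B, hB, e⟩ := g3 A hA
    exact ⟨B, sig_mono (le_sat hH) B hB, e⟩
  have hTT : MeasurePreserving (Prod.map G₁ T₂) (μ₁.prod μ₂) (μ₁.prod μ₂) := h₁.mp.prod hT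
  refine ext_pi hTT (𝒬 := Rec μ₁ μ₂ ν E) (fun D hD => hD.1) (Rec_pi hE) ?_ (Rec_gen hE) ?_ hf
  · have := Rec_univ (μ₁ := μ₁) hE (MeasurableSet.univ (α := X₁))
    rwa [univ_prod_univ] at this
  · intro D hD
    choose D₁ A hD₁ hA hAf e using fun j => (hD j).2
    have h1 : Cvg (μ₁.prod μ₂) (Prod.map G₁ T₂)
        (Pf E (fun j => (D₁ j).indicator fun _ => (1 : ℂ)) A) := by
      refine joint_BM hH.sat hgen hadm hT (fun j => hE.meas _ (hA j) (hAf j)) (fun h hh => ?_)
        fun j => ind_BM (hD₁ j) 1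
      exact joint_fin hH.sat hadm hh hE hS hT hν (y₀ := y₀) hℛ hd hov hA hAf
    refine Cvg_congr hTT (fun j => ?_) h1
    have e1 : Pf E (fun j => (D₁ j).indicator fun _ => (1 : ℂ)) A j =
        (D₁ j ×ˢ E (A j)).indicator fun _ => 1 := by
      funext z
      rw [Pf]
      by_cases a : z.1 ∈ D₁ j <;> by_cases b : z.2 ∈ E (A j) <;> simp [Set.indicator, a, b]
    rw [e1]
    exact indicator_ae_eq_of_ae_eq_set (e j).symm

end Pool.Agent.TH739.Poi

end

end
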